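import Mathlib
import Pool.Agent.W545.Man.Pigeon
import Pool.Agent.W545.Man.Bdry
set_option autoImplicit false
open Set Filter Topology MeasureTheory Metric
open scoped ENNReal Manifold ContDiff

/-! The pointwise scalar product of differentials on a Riemannian surface. -/

namespace Pool.Agent.W545.CS
open Pool.Agent.W545.Man

/-- the basis vectors of the plane -/
noncomputable abbrev ev (i : Fin (1 + 1)) : EE 1 := EuclideanSpace.single i (1 : ℝ)

/-- the scalar product of covectors for the metric with matrix `A` -/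
noncomputable def qf (A : Matrix (Fin (1 + 1)) (Fin (1 + 1)) ℝ) (L L' : EE 1 →L[ℝ] ℝ) : ℝ :=
  (A 1 1 * (L (ev 0) * L' (ev 0)) - A 0 1 * (L (ev 0) * L' (ev 1) + L (ev 1) * L' (ev 0)) +
    A 0 0 * (L (ev 1) * L' (ev 1))) / A.det

theorem qf_symm (A : Matrix (Fin (1 + 1)) (Fin (1 + 1)) ℝ) (L L' : EE 1 →L[ℝ] ℝ) :
    qf A L L' = qf A L' L := by unfold qf; ring

theorem qf_add (A : Matrix (Fin (1 + 1)) (Fin (1 + 1)) ℝ) (L L' L'' : EE 1 →L[ℝ] ℝ) :
    qf A (L + L') L'' = qf A L L'' + qf A L' L'' := by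
  unfold qf; simp only [add_apply]; ring

theorem qf_smul (A : Matrix (Fin (1 + 1)) (Fin (1 + 1)) ℝ) (a : ℝ) (L L' : EE 1 →L[ℝ] ℝ) :
    qf A (a • L) L' = a * qf A L L' := by
  unfold qf; simp only [smul_apply, smul_eq_mul]; ring

theorem lin2 (L : EE 1 →L[ℝ] ℝ) (v : EE 1) : L v = L (ev 0) * v 0 + L (ev 1) * v 1 := by
  have hv : v = v 0 • ev 0 + v 1 • ev 1 := by
    ext i
    fin_cases i <;> simp [ev]
  conv_lhs => rw [hv]
  rw [map_add, map_smul, map_smul, smul_eq_mul, smul_eq_mul]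
  ring

theorem det2 (A : Matrix (Fin (1 + 1)) (Fin (1 + 1)) ℝ) : A.det = A 0 0 * A 1 1 - A 0 1 * A 1 0 :=
  Matrix.det_fin_two A

theorem symm2 {A : Matrix (Fin (1 + 1)) (Fin (1 + 1)) ℝ} (hA : A.PosDef) : A 1 0 = A 0 1 := by
  have := hA.isHermitian.apply 0 1
  simpa using this

theorem lagrange2 {A : Matrix (Fin (1 + 1)) (Fin (1 + 1)) ℝ} (hA : A.PosDef)
    (L : EE 1 →L[ℝ] ℝ) (v : EE 1) :
    (L v) ^ 2 * A.det ≤ qf A L L * A.det * (A 0 0 * v 0 ^ 2 + 2 * A 0 1 * v 0 * v 1 +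
      A 1 1 * v 1 ^ 2) := by
  have hd := hA.det_pos
  have h1 : qf A L L * A.det = A 1 1 * (L (ev 0) * L (ev 0)) - A 0 1 * (L (ev 0) * L (ev 1) +
      L (ev 1) * L (ev 0)) + A 0 0 * (L (ev 1) * L (ev 1)) := by
    unfold qf
    rw [div_mul_cancel₀ _ hd.ne']
  rw [h1, lin2 L v, det2, symm2 hA]
  nlinarith [sq_nonneg ((A 1 1 * L (ev 0) - A 0 1 * L (ev 1)) * v 1 -
    (A 0 0 * L (ev 1) - A 0 1 * L (ev 0)) * v 0)]

theorem quad_pos {A : Matrix (Fin (1 + 1)) (Fin (1 + 1)) ℝ} (hA : A.PosDef) {a b : ℝ}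
    (h : a ≠ 0 ∨ b ≠ 0) : 0 < A 0 0 * a ^ 2 + 2 * A 0 1 * a * b + A 1 1 * b ^ 2 := by
  have := (Matrix.posDef_iff_dotProduct_mulVec.1 hA).2 (x := ![a, b]) (by
    intro h0
    rcases h with h | h
    · exact h (by simpa using congrFun h0 0)
    · exact h (by simpa using congrFun h0 1))
  have e := symm2 hA
  simp [dotProduct, Matrix.mulVec, Fin.sum_univ_two, e] at this
  nlinarith

theorem qf_nonneg {A : Matrix (Fin (1 + 1)) (Fin (1 + 1)) ℝ} (hA : A.PosDef)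
    (L : EE 1 →L[ℝ] ℝ) : 0 ≤ qf A L L := by
  unfold qf
  apply div_nonneg _ hA.det_pos.le
  by_cases h : L (ev 0) = 0 ∧ L (ev 1) = 0
  · rw [h.1, h.2]; simp
  · have h' : L (ev 1) ≠ 0 ∨ -L (ev 0) ≠ 0 := by
      by_contra hc
      push_neg at hc
      exact h ⟨by simpa using hc.2, hc.1⟩
    have := quad_pos hA h'
    nlinarith

theorem qf_cs {A : Matrix (Fin (1 + 1)) (Fin (1 + 1)) ℝ} (hA : A.PosDef)
    (L L' : EE 1 →L[ℝ] ℝ) : qf A L L' ^ 2 ≤ qf A L L * qf A L' L' := by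
  have key : ∀ t : ℝ, 0 ≤ qf A L L * (t * t) + 2 * qf A L L' * t + qf A L' L' := by
    intro t
    have h := qf_nonneg hA (t • L + L')
    have e : qf A (t • L + L') (t • L + L') =
        qf A L L * (t * t) + 2 * qf A L L' * t + qf A L' L' := by
      rw [qf_add, qf_smul, qf_symm A L, qf_symm A L' (t • L + L'), qf_add, qf_add, qf_smul, qf_smul,
        qf_symm A L' L]
      ring
    rwa [e] at h
  have := discrim_le_zero key
  unfold discrim at this
  nlinarith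

theorem sup_qf {A : Matrix (Fin (1 + 1)) (Fin (1 + 1)) ℝ} (hA : A.PosDef) (L : EE 1 →L[ℝ] ℝ)
    {B : EE 1 → ℝ} (hB : ∀ v, B v = A 0 0 * v 0 ^ 2 + 2 * A 0 1 * v 0 * v 1 + A 1 1 * v 1 ^ 2) :
    ⨆ v : EE 1, ENNReal.ofReal ((L v) ^ 2 / B v) = ENNReal.ofReal (qf A L L) := by
  have hd := hA.det_pos
  apply le_antisymm
  · apply iSup_le
    intro v
    apply ENNReal.ofReal_le_ofReal
    by_cases h0 : v 0 ≠ 0 ∨ v 1 ≠ 0
    · have h1 := quad_pos hA h0
      rw [← hB v] at h1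
      rw [div_le_iff₀ h1]
      have h2 := lagrange2 hA L v
      rw [← hB v] at h2
      by_contra hc
      rw [not_le] at hc
      nlinarith
    · push_neg at h0
      rw [hB, h0.1, h0.2]
      simp only [ne_eq, OfNat.ofNat_ne_zero, not_false_eq_true, zero_pow, mul_zero, add_zero,
        div_zero]
      exact qf_nonneg hA L
  · set v : EE 1 := (A 1 1 * L (ev 0) - A 0 1 * L (ev 1)) • ev 0 +
      (A 0 0 * L (ev 1) - A 0 1 * L (ev 0)) • ev 1 with hv
    have v0 : v 0 = A 1 1 * L (ev 0) - A 0 1 * L (ev 1) := by simp [hv, ev]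
    have v1 : v 1 = A 0 0 * L (ev 1) - A 0 1 * L (ev 0) := by simp [hv, ev]
    refine le_iSup_of_le v ?_
    apply ENNReal.ofReal_le_ofReal
    by_cases h0 : v 0 ≠ 0 ∨ v 1 ≠ 0
    · have h1 := quad_pos hA h0
      rw [← hB v] at h1
      rw [le_div_iff₀ h1]
      have e1 : L v = qf A L L * A.det := by
        rw [lin2 L v, v0, v1]
        unfold qf
        rw [div_mul_cancel₀ _ hd.ne']
        ring
      have e2 : B v = qf A L L * A.det * A.det := by
        rw [hB, v0, v1]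
        unfold qf
        rw [div_mul_cancel₀ _ hd.ne', det2, symm2 hA]
        ring
      rw [e1, e2]
      apply le_of_eq
      ring
    · push_neg at h0
      have e1 : L v = qf A L L * A.det := by
        rw [lin2 L v, v0, v1]
        unfold qf
        rw [div_mul_cancel₀ _ hd.ne']
        ring
      rw [lin2 L v, h0.1, h0.2, mul_zero, mul_zero, add_zero] at e1
      have : qf A L L = 0 := by
        rcases mul_eq_zero.1 e1.symm with h | h
        · exact h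
        · exact absurd h hd.ne'
      rw [this]
      rw [hB, h0.1, h0.2]
      simp

variable {M : Type*} [TopologicalSpace M] [ChartedSpace (EuclideanHalfSpace (1 + 1)) M]
  [IsManifold (𝓡∂ (1 + 1)) ∞ M]

/-- smooth functions -/
abbrev Sm (u : M → ℝ) : Prop := ContMDiff (𝓡∂ (1 + 1)) 𝓘(ℝ, ℝ) ∞ u

omit [IsManifold (𝓡∂ (1 + 1)) ∞ M] in
theorem Sm.md {u : M → ℝ} (hu : Sm u) (x : M) : MDifferentiableAt (𝓡∂ (1 + 1)) 𝓘(ℝ, ℝ) u x :=
  (hu x).mdifferentiableAt (by simp)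

/-- `⟨du, dw⟩_g` -/
noncomputable def bi (g : RMetric 1 M) (u w : M → ℝ) (x : M) : ℝ :=
  qf (gram g x x) (Dloc 1 x u (ph 1 x x)) (Dloc 1 x w (ph 1 x x))

theorem coeff_quad (g : RMetric 1 M) {c z : M} (hz : z ∈ (ph 1 c).source) (v : EE 1) :
    coeff g.inner c z v v = gram g c z 0 0 * v 0 ^ 2 + 2 * gram g c z 0 1 * v 0 * v 1 +
      gram g c z 1 1 * v 1 ^ 2 := by
  rw [coeff_sum]
  have h := symm2 (gram_posDef g hz)
  have hs : ∀ f : Fin (1 + 1) → ℝ, ∑ i, f i = f 0 + f 1 := Fin.sum_univ_two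
  simp only [hs]
  rw [h]
  ring

theorem gradSq_qf (g : RMetric 1 M) {u : M → ℝ} {c x : M} (hx : x ∈ (ph 1 c).source)
    (hu : MDifferentiableAt (𝓡∂ (1 + 1)) 𝓘(ℝ, ℝ) u x) :
    gradSq g u x =
      ENNReal.ofReal (qf (gram g c x) (Dloc 1 c u (ph 1 c x)) (Dloc 1 c u (ph 1 c x))) := by
  rw [gradSq_chart g hx hu]
  exact sup_qf (gram_posDef g hx) _ (coeff_quad g hx)

theorem bi_self (g : RMetric 1 M) {u : M → ℝ} (hu : Sm u) (x : M) :
    ENNReal.ofReal (bi g u u x) = gradSq g u x :=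
  (gradSq_qf g (mem_extChartAt_source x) (hu.md x)).symm

theorem bi_symm (g : RMetric 1 M) (u w : M → ℝ) (x : M) : bi g u w x = bi g w u x :=
  qf_symm _ _ _

theorem bi_nonneg (g : RMetric 1 M) (u : M → ℝ) (x : M) : 0 ≤ bi g u u x :=
  qf_nonneg (gram_posDef g (mem_extChartAt_source x)) _

theorem bi_cs (g : RMetric 1 M) (u w : M → ℝ) (x : M) :
    bi g u w x ^ 2 ≤ bi g u u x * bi g w w x :=
  qf_cs (gram_posDef g (mem_extChartAt_source x)) _ _

theorem ud {c : M} {y : EE 1} (hy : y ∈ (ph 1 c).target) :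
    UniqueDiffWithinAt ℝ (range (𝓡∂ (1 + 1))) y :=
  (𝓡∂ (1 + 1)).uniqueDiffOn _ (extChartAt_target_subset_range c hy)

theorem Dloc_add {u w : M → ℝ} (hu : Sm u) (hw : Sm w) {c : M} {y : EE 1}
    (hy : y ∈ (ph 1 c).target) :
    Dloc 1 c (fun x => u x + w x) y = Dloc 1 c u y + Dloc 1 c w y :=
  ((Dloc_has hu hy).add (Dloc_has hw hy)).fderivWithin (ud hy)

theorem Dloc_sub {u w : M → ℝ} (hu : Sm u) (hw : Sm w) {c : M} {y : EE 1}
    (hy : y ∈ (ph 1 c).target) :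
    Dloc 1 c (fun x => u x - w x) y = Dloc 1 c u y - Dloc 1 c w y :=
  ((Dloc_has hu hy).sub (Dloc_has hw hy)).fderivWithin (ud hy)

theorem Dloc_mul {u w : M → ℝ} (hu : Sm u) (hw : Sm w) {c : M} {y : EE 1}
    (hy : y ∈ (ph 1 c).target) :
    Dloc 1 c (fun x => u x * w x) y = loc 1 c u y • Dloc 1 c w y + loc 1 c w y • Dloc 1 c u y :=
  ((Dloc_has hu hy).mul (Dloc_has hw hy)).fderivWithin (ud hy)

theorem Dloc_const (a : ℝ) {c : M} {y : EE 1} (hy : y ∈ (ph 1 c).target) :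
    Dloc 1 c (fun _ : M => a) y = 0 :=
  (hasFDerivWithinAt_const a y _).fderivWithin (ud hy)

theorem Dloc_comp {F : M → ℝ} (hF : Sm F) {θ : ℝ → ℝ} {c : M} {y : EE 1}
    (hy : y ∈ (ph 1 c).target) (hθ : DifferentiableAt ℝ θ (loc 1 c F y)) :
    Dloc 1 c (fun x => θ (F x)) y = deriv θ (loc 1 c F y) • Dloc 1 c F y := by
  have h1 := hθ.hasDerivAt.comp_hasFDerivWithinAt y (Dloc_has hF hy)
  exact h1.fderivWithin (ud hy)

theorem qf_smul' (A : Matrix (Fin (1 + 1)) (Fin (1 + 1)) ℝ) (a : ℝ) (L L' : EE 1 →L[ℝ] ℝ) :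
    qf A L (a • L') = a * qf A L L' := by rw [qf_symm, qf_smul, qf_symm]

theorem qf_add' (A : Matrix (Fin (1 + 1)) (Fin (1 + 1)) ℝ) (L L' L'' : EE 1 →L[ℝ] ℝ) :
    qf A L (L' + L'') = qf A L L' + qf A L L'' := by
  rw [qf_symm, qf_add, qf_symm A L', qf_symm A L'']

theorem qf_polar (A : Matrix (Fin (1 + 1)) (Fin (1 + 1)) ℝ) (L L' : EE 1 →L[ℝ] ℝ) :
    qf A L L' = (qf A (L + L') (L + L') - qf A (L - L') (L - L')) / 4 := by
  rw [sub_eq_add_neg L L', ← neg_one_smul ℝ L']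
  simp only [qf_add, qf_add', qf_smul, qf_smul']
  rw [qf_symm A L' L]
  ring

theorem bi_chart (g : RMetric 1 M) {u w : M → ℝ} (hu : Sm u) (hw : Sm w) {c x : M}
    (hx : x ∈ (ph 1 c).source) : bi g u w x =
      qf (gram g c x) (Dloc 1 c u (ph 1 c x)) (Dloc 1 c w (ph 1 c x)) := by
  have key : ∀ v : M → ℝ, Sm v → qf (gram g x x) (Dloc 1 x v (ph 1 x x)) (Dloc 1 x v (ph 1 x x)) =
      qf (gram g c x) (Dloc 1 c v (ph 1 c x)) (Dloc 1 c v (ph 1 c x)) := by
    intro v hv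
    have h1 := gradSq_qf g (mem_extChartAt_source x) (hv.md x)
    have h2 := gradSq_qf g hx (hv.md x)
    rw [h1] at h2
    exact (ENNReal.ofReal_eq_ofReal_iff (qf_nonneg (gram_posDef g (mem_extChartAt_source x)) _)
      (qf_nonneg (gram_posDef g hx) _)).1 h2
  unfold bi
  have hy1 := mem_extChartAt_target (I := 𝓡∂ (1 + 1)) x
  have hy2 := (ph 1 c).map_source hx
  have k1 := key (fun x => u x + w x) (hu.add hw)
  have k2 := key (fun x => u x - w x) (hu.sub hw)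
  rw [Dloc_add hu hw hy1, Dloc_add hu hw hy2] at k1
  rw [Dloc_sub hu hw hy1, Dloc_sub hu hw hy2] at k2
  rw [qf_polar, qf_polar (gram g c x), k1, k2]

theorem sym_ph (x : M) : (ph 1 x).symm (ph 1 x x) = x := (ph 1 x).left_inv (mem_extChartAt_source x)

theorem bi_add (g : RMetric 1 M) {u v w : M → ℝ} (hu : Sm u) (hv : Sm v) (x : M) :
    bi g (fun x => u x + v x) w x = bi g u w x + bi g v w x := by
  unfold bi
  rw [Dloc_add hu hv (mem_extChartAt_target x), qf_add]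

theorem bi_mul (g : RMetric 1 M) {u v w : M → ℝ} (hu : Sm u) (hv : Sm v) (x : M) :
    bi g (fun x => u x * v x) w x = u x * bi g v w x + v x * bi g u w x := by
  unfold bi
  rw [Dloc_mul hu hv (mem_extChartAt_target x), qf_add, qf_smul, qf_smul]
  unfold loc
  rw [sym_ph]

theorem bi_const (g : RMetric 1 M) (a : ℝ) {w : M → ℝ} (x : M) :
    bi g (fun _ => a) w x = 0 := by
  unfold bi
  rw [Dloc_const a (mem_extChartAt_target x)]
  unfold qf
  simp

theorem bi_comp (g : RMetric 1 M) {F w : M → ℝ} (hF : Sm F) {θ : ℝ → ℝ} (x : M)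
    (hθ : DifferentiableAt ℝ θ (F x)) :
    bi g (fun x => θ (F x)) w x = deriv θ (F x) * bi g F w x := by
  unfold bi
  have e : loc 1 x F (ph 1 x x) = F x := by unfold loc; rw [sym_ph]
  rw [Dloc_comp hF (mem_extChartAt_target x) (by rw [e]; exact hθ), qf_smul, e]

theorem Dloc_smooth {u : M → ℝ} (hu : Sm u) (c : M) :
    ContDiffOn ℝ ∞ (Dloc 1 c u) (ph 1 c).target := by
  have hud : UniqueDiffOn ℝ (ph 1 c).target := uniqueDiffOn_extChartAt_target c
  have h1 : ContDiffOn ℝ ∞ (fderivWithin ℝ (loc 1 c u) (ph 1 c).target) (ph 1 c).target :=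
    (loc_contDiff hu c).fderivWithin hud (by simp)
  apply h1.congr
  intro y hy
  exact ((Dloc_has hu hy).mono (extChartAt_target_subset_range c)).fderivWithin (hud y hy) |>.symm

theorem bi_smooth (g : RMetric 1 M) {u w : M → ℝ} (hu : Sm u) (hw : Sm w) : Sm (bi g u w) := by
  intro c
  have hsrc : (ph 1 c).source ∈ 𝓝 c := (isOpen_extChartAt_source c).mem_nhds
    (mem_extChartAt_source c)
  set Φ : EE 1 → ℝ := fun y => qf (gram g c ((ph 1 c).symm y)) (Dloc 1 c u y) (Dloc 1 c w y)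
    with hΦ
  have hg : ∀ i j, ContDiffOn ℝ ∞ (fun y => gram g c ((ph 1 c).symm y) i j) (ph 1 c).target :=
    fun i j => g.smooth c _ _
  have hDu : ∀ i, ContDiffOn ℝ ∞ (fun y => Dloc 1 c u y (ev i)) (ph 1 c).target := fun i =>
    (Dloc_smooth hu c).clm_apply contDiffOn_const
  have hDw : ∀ i, ContDiffOn ℝ ∞ (fun y => Dloc 1 c w y (ev i)) (ph 1 c).target := fun i =>
    (Dloc_smooth hw c).clm_apply contDiffOn_const
  have h1 : ContDiffOn ℝ ∞ Φ (ph 1 c).target := by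
    rw [hΦ]
    unfold qf
    apply ContDiffOn.div
    · exact (((hg 1 1).mul ((hDu 0).mul (hDw 0))).sub ((hg 0 1).mul (((hDu 0).mul (hDw 1)).add
        ((hDu 1).mul (hDw 0))))).add ((hg 0 0).mul ((hDu 1).mul (hDw 1)))
    · have : (fun y => (gram g c ((ph 1 c).symm y)).det) = fun y =>
          gram g c ((ph 1 c).symm y) 0 0 * gram g c ((ph 1 c).symm y) 1 1 -
          gram g c ((ph 1 c).symm y) 0 1 * gram g c ((ph 1 c).symm y) 1 0 := by
        funext y; exact det2 _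
      rw [this]
      exact ((hg 0 0).mul (hg 1 1)).sub ((hg 0 1).mul (hg 1 0))
    · intro y hy
      exact (gram_posDef g ((ph 1 c).map_target hy)).det_pos.ne'
  have h2 : ContMDiffOn (𝓡∂ (1 + 1)) 𝓘(ℝ, ℝ) ∞ (fun x => Φ (ph 1 c x)) (ph 1 c).source := by
    have h3 : ContMDiffOn 𝓘(ℝ, EE 1) 𝓘(ℝ, ℝ) ∞ Φ (ph 1 c).target := h1.contMDiffOn
    have h4 : ContMDiffOn (𝓡∂ (1 + 1)) 𝓘(ℝ, EE 1) ∞ (ph 1 c) (ph 1 c).source := by
      have := contMDiffOn_extChartAt (I := 𝓡∂ (1 + 1)) (x := c) (n := ∞)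
      rwa [← extChartAt_source (𝓡∂ (1 + 1))] at this
    exact h3.comp h4 fun x hx => (ph 1 c).map_source hx
  have h5 : ContMDiffOn (𝓡∂ (1 + 1)) 𝓘(ℝ, ℝ) ∞ (bi g u w) (ph 1 c).source := by
    apply h2.congr
    intro x hx
    rw [bi_chart g hu hw hx, hΦ]
    simp only
    rw [(ph 1 c).left_inv hx]
  exact h5.contMDiffAt hsrc

end Pool.Agent.W545.CS
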