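import Mathlib
import Pool.Agent.W545.CS.Bi
import Pool.Agent.W545.Man.SigmaOne
set_option autoImplicit false
open Set Filter Topology MeasureTheory Metric
open scoped ENNReal Manifold ContDiff

/-! The length measure of a smooth curve on a surface; closed surfaces. -/

namespace Pool.Agent.W545.CS
open Pool.Agent.W545.Man

variable {M : Type*} [TopologicalSpace M] [ChartedSpace (EuclideanHalfSpace (1 + 1)) M]
  [IsManifold (𝓡∂ (1 + 1)) ∞ M]

/-- `ν` is the length measure of the curve `Γ` for the metric `g`: it is carried by `Γ` and, for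
every arc `t ↦ γ t` of `Γ` (smooth, regular and injective, written in a chart), the integral of `h`
over the arc is the line integral `∫ h(γ(t)) |γ'(t)|_g dt` -/
def IsLen [MeasurableSpace M] (g : RMetric 1 M) (Γ : Set M) (ν : Measure M) : Prop :=
  ν Γᶜ = 0 ∧ ∀ (c : M) (γ : ℝ → EE 1) (a b : ℝ), ContDiffOn ℝ ∞ γ (Ioo a b) →
    InjOn γ (Ioo a b) →
    (∀ t ∈ Ioo a b, deriv γ t ≠ 0 ∧ γ t ∈ (ph 1 c).target ∧ (ph 1 c).symm (γ t) ∈ Γ) →
    ∀ h : M → ℝ≥0∞, Measurable h →
      ∫⁻ x in (ph 1 c).symm '' (γ '' Ioo a b), h x ∂ν =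
        ∫⁻ t in Ioo a b, h ((ph 1 c).symm (γ t)) *
          ENNReal.ofReal (√(coeff g.inner c ((ph 1 c).symm (γ t)) (deriv γ t) (deriv γ t)))

theorem pos0 (hbd : bd 1 M = ∅) {c : M} {y : EE 1} (hy : y ∈ (ph 1 c).target) : 0 < y 0 := by
  have h1 : (ph 1 c).symm y ∈ (ph 1 c).source := (ph 1 c).map_target hy
  have h2 := ph_coord_nonneg (d := 1) c ((ph 1 c).symm y)
  rw [(ph 1 c).right_inv hy] at h2
  refine lt_of_le_of_ne h2 fun h => ?_
  have h3 := (mem_bd_iff h1).2 (by rw [(ph 1 c).right_inv hy]; exact h.symm)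
  rw [hbd] at h3
  exact h3

theorem range_nhds (hbd : bd 1 M = ∅) {c : M} {y : EE 1} (hy : y ∈ (ph 1 c).target) :
    range (𝓡∂ (1 + 1)) ∈ 𝓝 y := by
  rw [range_modelWithCornersEuclideanHalfSpace]
  have c0 : Continuous fun y : EE 1 => y 0 := by fun_prop
  have : {y : EE 1 | 0 < y 0} ∈ 𝓝 y := (isOpen_lt continuous_const c0).mem_nhds (pos0 hbd hy)
  exact mem_of_superset this fun z (hz : 0 < z 0) => hz.le

/-- the charts of a closed surface have open images in the plane -/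
theorem tgt_open (hbd : bd 1 M = ∅) (c : M) : IsOpen (ph 1 c).target := by
  rw [isOpen_iff_mem_nhds]
  intro y hy
  have h1 := target_nhds hy
  rwa [nhdsWithin_eq_nhds.2 (range_nhds hbd hy)] at h1

theorem Dloc_fd (hbd : bd 1 M = ∅) (u : M → ℝ) {c : M} {y : EE 1} (hy : y ∈ (ph 1 c).target) :
    Dloc 1 c u y = fderiv ℝ (loc 1 c u) y :=
  fderivWithin_of_mem_nhds (range_nhds hbd hy)

end Pool.Agent.W545.CS
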