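import Mathlib
set_option autoImplicit false
open Set Filter Topology MeasureTheory Metric
open scoped ContDiff

/-! Cut off functions of one variable. -/

namespace Pool.Agent.W545.CS

/-- the smooth step from `0` to `1` on the interval `[-a - b, -a]` -/
noncomputable def stp (a b x : ℝ) : ℝ := Real.smoothTransition (1 + (x + a) / b)

theorem stp_smooth (a b : ℝ) : ContDiff ℝ ∞ (stp a b) := by
  unfold stp
  have h : ContDiff ℝ ∞ fun x : ℝ => 1 + (x + a) / b := by fun_prop
  exact Real.smoothTransition.contDiff.comp h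

theorem stp_nonneg (a b x : ℝ) : 0 ≤ stp a b x := Real.smoothTransition.nonneg _
theorem stp_le_one (a b x : ℝ) : stp a b x ≤ 1 := Real.smoothTransition.le_one _

theorem stp_mono {a b : ℝ} (hb : 0 < b) : Monotone (stp a b) := by
  intro x y h
  apply Real.smoothTransition.monotone
  gcongr

theorem stp_one {a b x : ℝ} (hb : 0 < b) (hx : -a ≤ x) : stp a b x = 1 := by
  apply Real.smoothTransition.one_of_one_le
  have : 0 ≤ (x + a) / b := div_nonneg (by linarith) hb.le
  linarith

theorem stp_zero {a b x : ℝ} (hb : 0 < b) (hx : x ≤ -a - b) : stp a b x = 0 := by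
  apply Real.smoothTransition.zero_of_nonpos
  have : (x + a) / b ≤ -1 := by rw [div_le_iff₀ hb]; linarith
  linarith

/-- its derivative -/
noncomputable def dst (a b x : ℝ) : ℝ := deriv (stp a b) x

theorem dst_has (a b x : ℝ) : HasDerivAt (stp a b) (dst a b x) x :=
  ((stp_smooth a b).differentiable (by simp) x).hasDerivAt

theorem dst_smooth (a b : ℝ) : ContDiff ℝ ∞ (dst a b) :=
  (contDiff_infty_iff_deriv.1 (stp_smooth a b)).2

theorem dst_nonneg {a b : ℝ} (hb : 0 < b) (x : ℝ) : 0 ≤ dst a b x :=
  (stp_mono hb).deriv_nonneg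

theorem dst_zero_right {a b x : ℝ} (hb : 0 < b) (hx : -a ≤ x) : dst a b x = 0 := by
  have : IsLocalMax (stp a b) x := Eventually.of_forall fun y => by
    rw [stp_one hb hx]; exact stp_le_one _ _ _
  exact this.deriv_eq_zero

theorem dst_zero_left {a b x : ℝ} (hb : 0 < b) (hx : x ≤ -a - b) : dst a b x = 0 := by
  have : IsLocalMin (stp a b) x := Eventually.of_forall fun y => by
    rw [stp_zero hb hx]; exact stp_nonneg _ _ _
  exact this.deriv_eq_zero

/-- the derivative of the basic step is bounded -/
theorem exists_K0 : ∃ K0 : ℝ, 0 < K0 ∧ ∀ x, deriv Real.smoothTransition x ≤ K0 := by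
  have hc : Continuous (deriv Real.smoothTransition) :=
    ((contDiff_infty_iff_deriv.1 (Real.smoothTransition.contDiff (n := ⊤))).2).continuous
  obtain ⟨x0, -, h⟩ := (isCompact_Icc (a := (0 : ℝ)) (b := 1)).exists_isMaxOn ⟨0, by simp⟩
    hc.continuousOn
  refine ⟨|deriv Real.smoothTransition x0| + 1, by positivity, fun x => ?_⟩
  by_cases hx : x ∈ Icc (0 : ℝ) 1
  · have := h hx
    simp only [mem_ofPred_eq] at this
    linarith [le_abs_self (deriv Real.smoothTransition x0)]
  · have h0 : deriv Real.smoothTransition x = 0 := by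
      rw [mem_Icc, not_and_or, not_le, not_le] at hx
      rcases hx with hx | hx
      · have : IsLocalMin Real.smoothTransition x := Eventually.of_forall fun y => by
          rw [Real.smoothTransition.zero_of_nonpos hx.le]; exact Real.smoothTransition.nonneg _
        exact this.deriv_eq_zero
      · have : IsLocalMax Real.smoothTransition x := Eventually.of_forall fun y => by
          rw [Real.smoothTransition.one_of_one_le hx.le]; exact Real.smoothTransition.le_one _
        exact this.deriv_eq_zero
    rw [h0]; positivity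

theorem dst_le {K0 : ℝ} (hK : ∀ x, deriv Real.smoothTransition x ≤ K0) {a b : ℝ} (hb : 0 < b)
    (x : ℝ) : dst a b x ≤ K0 / b := by
  have h1 : HasDerivAt (fun x : ℝ => 1 + (x + a) / b) (1 / b) x := by
    have := (((hasDerivAt_id x).add_const a).div_const b).const_add 1
    simpa using this
  have h2 : HasDerivAt Real.smoothTransition (deriv Real.smoothTransition (1 + (x + a) / b))
      (1 + (x + a) / b) := by
    have : ContDiff ℝ ∞ Real.smoothTransition := Real.smoothTransition.contDiff
    exact (this.differentiable (by simp) _).hasDerivAt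
  have h3 : dst a b x = deriv Real.smoothTransition (1 + (x + a) / b) * (1 / b) :=
    (h2.comp x h1).deriv
  rw [h3, mul_one_div]
  exact div_le_div_of_nonneg_right (hK _) hb.le

theorem dst_integral {a b : ℝ} (hb : 0 < b) : ∫ x, dst a b x = 1 := by
  have hs : HasCompactSupport (dst a b) := by
    apply HasCompactSupport.intro (isCompact_Icc (a := -a - b) (b := -a))
    intro x hx
    rw [mem_Icc, not_and_or, not_le, not_le] at hx
    rcases hx with hx | hx
    · exact dst_zero_left hb hx.le
    · exact dst_zero_right hb hx.le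
  have hi : Integrable (dst a b) := (dst_smooth a b).continuous.integrable_of_hasCompactSupport hs
  have h1 : Tendsto (stp a b) atTop (𝓝 1) := by
    apply tendsto_const_nhds.congr'
    filter_upwards [eventually_ge_atTop (-a)] with x hx
    rw [stp_one hb hx]
  have h2 : Tendsto (stp a b) atBot (𝓝 0) := by
    apply tendsto_const_nhds.congr'
    filter_upwards [eventually_le_atBot (-a - b)] with x hx
    rw [stp_zero hb hx]
  rw [integral_of_hasDerivAt_of_tendsto (fun x => dst_has a b x) hi h2 h1, sub_zero]

/-- the test function of the trace inequality -/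
noncomputable def tht (s e x : ℝ) : ℝ := stp s s x * ((x / s - 1) * (1 - stp 0 e x))

theorem tht_smooth (s e : ℝ) : ContDiff ℝ ∞ (tht s e) := by
  unfold tht
  have h : ContDiff ℝ ∞ fun x : ℝ => x / s - 1 := by fun_prop
  exact (stp_smooth s s).mul (h.mul (contDiff_const.sub (stp_smooth 0 e)))

theorem tht_deriv (s e x : ℝ) : deriv (tht s e) x = dst s s x * ((x / s - 1) * (1 - stp 0 e x)) +
    stp s s x * (1 / s * (1 - stp 0 e x) + (x / s - 1) * (- dst 0 e x)) := by
  have h1 : HasDerivAt (fun x : ℝ => x / s - 1) (1 / s) x := by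
    simpa using ((hasDerivAt_id x).div_const s).sub_const 1
  have h2 := (dst_has s s x).mul (h1.mul ((dst_has 0 e x).const_sub 1))
  exact h2.deriv

theorem tht_abs {s e : ℝ} (hs : 0 < s) (he : 0 < e) (x : ℝ) :
    |tht s e x| ≤ 3 * (Ico (-2 * s) 0).indicator 1 x := by
  by_cases hx : x ∈ Ico (-2 * s) 0
  · rw [indicator_of_mem hx]
    unfold tht
    rw [abs_mul, abs_mul, abs_of_nonneg (stp_nonneg _ _ _)]
    have h1 := stp_le_one s s x
    have h2 := stp_nonneg s s x
    have h3 : |1 - stp 0 e x| ≤ 1 := by
      rw [abs_le]; constructor <;> linarith [stp_le_one 0 e x, stp_nonneg 0 e x]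
    have h4 : |x / s - 1| ≤ 3 := by
      rw [abs_le]
      have e1 : -2 ≤ x / s := by rw [le_div_iff₀ hs]; linarith [hx.1]
      have e2 : x / s ≤ 0 := div_nonpos_of_nonpos_of_nonneg hx.2.le hs.le
      constructor <;> linarith
    have h5 := abs_nonneg (x / s - 1)
    have h6 := abs_nonneg (1 - stp 0 e x)
    have h7 : |x / s - 1| * |1 - stp 0 e x| ≤ 3 * 1 := by gcongr
    have h8 : stp s s x * (|x / s - 1| * |1 - stp 0 e x|) ≤ 1 * (3 * 1) := by gcongr
    simp only [Pi.one_apply]
    linarith
  · rw [indicator_of_notMem hx, mul_zero]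
    rw [mem_Ico, not_and_or, not_le, not_lt] at hx
    unfold tht
    rcases hx with hx | hx
    · rw [stp_zero hs (by linarith)]; simp
    · rw [stp_one he (by linarith)]; simp

theorem tht_lower {K0 : ℝ} (hK0 : 0 < K0) (hK : ∀ x, deriv Real.smoothTransition x ≤ K0) {s e : ℝ}
    (hs : 0 < s) (he : 0 < e) (hes : e ≤ s) (x : ℝ) :
    dst 0 e x + 1 / s * (Icc (-s) (-e)).indicator 1 x ≤
      deriv (tht s e) x + (3 * K0 + 1) / s * (Icc (-2 * s) (-s)).indicator 1 x := by
  rw [tht_deriv]
  have hΘ0 := stp_nonneg 0 e x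
  have hΘ1 := stp_le_one 0 e x
  have hκ := dst_nonneg (a := 0) he x
  rcases lt_or_ge x (-2 * s) with h1 | h1
  · -- far left
    have e1 : x ∉ Icc (-s) (-e) := fun h => by linarith [h.1]
    have e2 : x ∉ Icc (-2 * s) (-s) := fun h => by linarith [h.1]
    rw [indicator_of_notMem e1, indicator_of_notMem e2, dst_zero_left he (by linarith),
      dst_zero_left hs (by linarith), stp_zero hs (by linarith)]
    simp
  rcases lt_or_ge x (-s) with h2 | h2
  · have e1 : x ∉ Icc (-s) (-e) := fun h => by linarith [h.1]
    have e2 : x ∈ Icc (-2 * s) (-s) := ⟨h1, h2.le⟩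
    rw [indicator_of_notMem e1, indicator_of_mem e2, dst_zero_left he (by linarith)]
    have h3 := dst_le hK hs (a := s) x
    have h4 := dst_nonneg (a := s) hs x
    have h5 : -3 ≤ x / s - 1 := by
      have : -2 ≤ x / s := by rw [le_div_iff₀ hs]; linarith
      linarith
    have h6 : x / s - 1 ≤ 0 := by
      have : x / s ≤ 0 := div_nonpos_of_nonpos_of_nonneg (by linarith) hs.le
      linarith
    have h7 := stp_nonneg s s x
    have h8 : -3 ≤ (x / s - 1) * (1 - stp 0 e x) := by nlinarith
    have h9 : -(3 * (K0 / s)) ≤ dst s s x * ((x / s - 1) * (1 - stp 0 e x)) := by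
      have a1 : (x / s - 1) * (1 - stp 0 e x) ≤ 0 := by nlinarith
      have a2 : 0 < K0 / s := by positivity
      nlinarith
    have h10 : 0 ≤ stp s s x * (1 / s * (1 - stp 0 e x)) := by
      have : 0 ≤ 1 - stp 0 e x := by linarith
      positivity
    have e3 : (3 * K0 + 1) / s * (1 : ℝ → ℝ) x = 3 * (K0 / s) + 1 / s := by
      simp only [Pi.one_apply]; ring
    rw [e3]
    have h11 : 0 < 1 / s := by positivity
    simp only [neg_zero, mul_zero, add_zero]
    linarith
  · rw [dst_zero_right hs (by linarith), stp_one hs (by linarith)]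
    have hind : 0 ≤ (3 * K0 + 1) / s * (Icc (-2 * s) (-s)).indicator (1 : ℝ → ℝ) x := by
      apply mul_nonneg (by positivity)
      apply indicator_nonneg
      intro y _
      simp
    have h3 : dst 0 e x ≤ (x / s - 1) * (- dst 0 e x) := by
      rcases lt_or_ge x 0 with h | h
      · have : x / s ≤ 0 := div_nonpos_of_nonpos_of_nonneg h.le hs.le
        nlinarith
      · rw [dst_zero_right he (by linarith)]; simp
    have h4 : 1 / s * (Icc (-s) (-e)).indicator (1 : ℝ → ℝ) x ≤ 1 / s * (1 - stp 0 e x) := by
      gcongr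
      by_cases h : x ∈ Icc (-s) (-e)
      · rw [indicator_of_mem h, stp_zero he (by linarith [h.2])]; simp
      · rw [indicator_of_notMem h]; linarith
    linarith

end Pool.Agent.W545.CS
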