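import Mathlib
import Pool.Agent.W545.CS.Len
import Pool.Agent.W545.CS.Cut
set_option autoImplicit false
open Set Filter Topology MeasureTheory Metric
open scoped ENNReal Manifold ContDiff

/-! Calculus with functions of the defining function `F`. -/

namespace Pool.Agent.W545.CS
open Pool.Agent.W545.Man

variable {M : Type*} [TopologicalSpace M] [ChartedSpace (EuclideanHalfSpace (1 + 1)) M]
  [IsManifold (𝓡∂ (1 + 1)) ∞ M] [MeasurableSpace M] [BorelSpace M] [CompactSpace M]

/-- the analytic data of a closed surface with a domain `{F < 0}` -/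
structure Dat (g : RMetric 1 M) (F D : M → ℝ) (μ ν : Measure M) (s0 m C : ℝ) : Prop where
  sF : Sm F
  sD : Sm D
  green : ∀ w : M → ℝ, Sm w → ∫ x, bi g w F x ∂μ = - ∫ x, w x * D x ∂μ
  s00 : 0 < s0
  m0 : 0 < m
  C1 : 1 ≤ C
  low : ∀ x, |F x| ≤ 2 * s0 → m ^ 2 ≤ bi g F F x
  up : ∀ x, bi g F F x ≤ C ^ 2
  Dle : ∀ x, |D x| ≤ C
  coarea : ∀ w : M → ℝ, Continuous w → ∀ η : ℝ, 0 < η → ∃ δ : ℝ, 0 < δ ∧ ∀ κ : ℝ → ℝ,
    Continuous κ → (∀ x, 0 ≤ κ x) → (∀ x, κ x ≠ 0 → |x| ≤ δ) → ∫ x, κ x = 1 →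
    |∫ x, w x * (κ (F x) * √(bi g F F x)) ∂μ - ∫ x, w x ∂ν| ≤ η

omit [IsManifold (𝓡∂ (1 + 1)) ∞ M] [MeasurableSpace M] [BorelSpace M] [CompactSpace M] in
theorem Sm.cont {u : M → ℝ} (hu : Sm u) : Continuous u := hu.continuous

omit [IsManifold (𝓡∂ (1 + 1)) ∞ M] [MeasurableSpace M] [BorelSpace M] [CompactSpace M] in
theorem Sm.comp {u : M → ℝ} (hu : Sm u) {φ : ℝ → ℝ} (hφ : ∀ x, ContDiffAt ℝ ∞ φ (u x)) :
    Sm fun x => φ (u x) := fun x => (hφ x).contMDiffAt.comp x (hu x)

omit [ChartedSpace (EuclideanHalfSpace (1 + 1)) M] [IsManifold (𝓡∂ (1 + 1)) ∞ M] in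
theorem int_cont {μ : Measure M} [IsFiniteMeasure μ] {f : M → ℝ} (hf : Continuous f) :
    Integrable f μ := hf.integrable_of_hasCompactSupport (HasCompactSupport.of_compactSpace f)

omit [ChartedSpace (EuclideanHalfSpace (1 + 1)) M] [IsManifold (𝓡∂ (1 + 1)) ∞ M] [CompactSpace M] in
theorem ind_int (μ : Measure M) {F : M → ℝ} (hF : Continuous F) {S : Set ℝ} (hS : MeasurableSet S)
    (f : M → ℝ) : ∫ x, S.indicator 1 (F x) * f x ∂μ = ∫ x in F ⁻¹' S, f x ∂μ := by
  rw [← integral_indicator (hF.measurable hS)]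
  congr 1
  funext x
  by_cases h : F x ∈ S
  · rw [indicator_of_mem h, indicator_of_mem (show x ∈ F ⁻¹' S from h)]; simp
  · rw [indicator_of_notMem h, indicator_of_notMem (show x ∉ F ⁻¹' S from h)]; simp

omit [ChartedSpace (EuclideanHalfSpace (1 + 1)) M] [IsManifold (𝓡∂ (1 + 1)) ∞ M] in
theorem ind_integrable {μ : Measure M} [IsFiniteMeasure μ] {F : M → ℝ} (hF : Continuous F)
    {S : Set ℝ} (hS : MeasurableSet S) {f : M → ℝ} (hf : Continuous f) :
    Integrable (fun x => S.indicator 1 (F x) * f x) μ := by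
  have h1 : Integrable ((F ⁻¹' S).indicator f) μ := (int_cont hf).indicator (hF.measurable hS)
  convert h1 using 1
  funext x
  by_cases h : F x ∈ S
  · rw [indicator_of_mem h, indicator_of_mem (show x ∈ F ⁻¹' S from h)]; simp
  · rw [indicator_of_notMem h, indicator_of_notMem (show x ∉ F ⁻¹' S from h)]; simp

section
variable {g : RMetric 1 M} {F D : M → ℝ} {μ ν : Measure M} {s0 m C : ℝ} [IsFiniteMeasure μ]

theorem calc1 (H : Dat g F D μ ν s0 m C) {w : M → ℝ} (hw : Sm w) {θ : ℝ → ℝ}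
    (hθ : ContDiff ℝ ∞ θ) :
    ∫ x, w x * (deriv θ (F x) * bi g F F x) ∂μ =
      - ∫ x, θ (F x) * (bi g w F x + w x * D x) ∂μ := by
  have hθF : Sm fun x => θ (F x) := H.sF.comp fun x => hθ.contDiffAt
  have h1 := H.green (fun x => w x * θ (F x)) (hw.mul hθF)
  have e1 : ∀ x, bi g (fun x => w x * θ (F x)) F x =
      w x * (deriv θ (F x) * bi g F F x) + θ (F x) * bi g w F x := by
    intro x
    rw [bi_mul g hw hθF, bi_comp g H.sF x (hθ.differentiable (by simp) _)]
  simp only [e1] at h1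
  have c1 : Continuous fun x => w x * (deriv θ (F x) * bi g F F x) :=
    hw.cont.mul ((((contDiff_infty_iff_deriv.1 hθ).2).continuous.comp H.sF.cont).mul
      (bi_smooth g H.sF H.sF).cont)
  have c2 : Continuous fun x => θ (F x) * bi g w F x := hθF.cont.mul (bi_smooth g hw H.sF).cont
  have c3 : Continuous fun x => θ (F x) * (w x * D x) := hθF.cont.mul (hw.cont.mul H.sD.cont)
  rw [integral_add (int_cont c1) (int_cont c2)] at h1
  have e2 : ∫ x, θ (F x) * (bi g w F x + w x * D x) ∂μ =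
      (∫ x, θ (F x) * bi g w F x ∂μ) + ∫ x, θ (F x) * (w x * D x) ∂μ := by
    rw [← integral_add (int_cont c2) (int_cont c3)]
    congr 1; funext x; ring
  have e3 : ∫ x, w x * θ (F x) * D x ∂μ = ∫ x, θ (F x) * (w x * D x) ∂μ := by
    congr 1; funext x; ring
  rw [e3] at h1
  rw [e2]
  linarith

/-- the one step inequality -/
theorem step1 (H : Dat g F D μ ν s0 m C) {K0 : ℝ} (hK0 : 0 < K0)
    (hK : ∀ x, deriv Real.smoothTransition x ≤ K0) {w : M → ℝ} (hw : Sm w) (hw0 : ∀ x, 0 ≤ w x)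
    {s e : ℝ} (hs : 0 < s) (he : 0 < e) (hes : e ≤ s) :
    ∫ x, w x * (dst 0 e (F x) * bi g F F x) ∂μ +
      1 / s * ∫ x in F ⁻¹' (Icc (-s) (-e)), w x * bi g F F x ∂μ ≤
    (3 * K0 + 1) / s * ∫ x in F ⁻¹' (Icc (-2 * s) (-s)), w x * bi g F F x ∂μ +
      3 * ∫ x in F ⁻¹' (Ico (-2 * s) 0), |bi g w F x + w x * D x| ∂μ := by
  have cF := H.sF.cont
  have cQ := (bi_smooth g H.sF H.sF).cont
  have cwQ : Continuous fun x => w x * bi g F F x := hw.cont.mul cQ
  have cj : Continuous fun x => bi g w F x + w x * D x :=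
    (bi_smooth g hw H.sF).cont.add (hw.cont.mul H.sD.cont)
  have hθ := tht_smooth s e
  have h1 := calc1 H hw hθ
  have cθ' : Continuous (deriv (tht s e)) := ((contDiff_infty_iff_deriv.1 hθ).2).continuous
  rw [← ind_int μ cF measurableSet_Icc, ← ind_int μ cF measurableSet_Icc,
    ← ind_int μ cF measurableSet_Ico]
  have hA := ind_integrable (μ := μ) cF (measurableSet_Icc (a := -s) (b := -e)) cwQ
  have hB := ind_integrable (μ := μ) cF (measurableSet_Icc (a := -2 * s) (b := -s)) cwQ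
  have hC := ind_integrable (μ := μ) cF (measurableSet_Ico (a := -2 * s) (b := 0)) cj.abs
  have hD : Integrable (fun x => w x * (dst 0 e (F x) * bi g F F x)) μ :=
    int_cont (hw.cont.mul (((dst_smooth 0 e).continuous.comp cF).mul cQ))
  have hE : Integrable (fun x => w x * (deriv (tht s e) (F x) * bi g F F x)) μ :=
    int_cont (hw.cont.mul ((cθ'.comp cF).mul cQ))
  have hG : Integrable (fun x => tht s e (F x) * (bi g w F x + w x * D x)) μ :=
    int_cont ((hθ.continuous.comp cF).mul cj)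
  have h2 : ∫ x, w x * (dst 0 e (F x) * bi g F F x) ∂μ +
      1 / s * ∫ x, (Icc (-s) (-e)).indicator 1 (F x) * (w x * bi g F F x) ∂μ ≤
      ∫ x, w x * (deriv (tht s e) (F x) * bi g F F x) ∂μ + (3 * K0 + 1) / s *
        ∫ x, (Icc (-2 * s) (-s)).indicator 1 (F x) * (w x * bi g F F x) ∂μ := by
    rw [← integral_const_mul, ← integral_const_mul, ← integral_add hD (hA.const_mul _),
      ← integral_add hE (hB.const_mul _)]
    apply integral_mono (hD.add (hA.const_mul _)) (hE.add (hB.const_mul _))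
    intro x
    have h3 := tht_lower hK0 hK hs he hes (F x)
    have h4 : 0 ≤ w x * bi g F F x := mul_nonneg (hw0 x) (bi_nonneg g F x)
    have h5 := mul_le_mul_of_nonneg_right h3 h4
    show w x * (dst 0 e (F x) * bi g F F x) + 1 / s * ((Icc (-s) (-e)).indicator 1 (F x) *
      (w x * bi g F F x)) ≤ w x * (deriv (tht s e) (F x) * bi g F F x) + (3 * K0 + 1) / s *
        ((Icc (-2 * s) (-s)).indicator 1 (F x) * (w x * bi g F F x))
    linarith
  have h3 : -∫ x, tht s e (F x) * (bi g w F x + w x * D x) ∂μ ≤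
      3 * ∫ x, (Ico (-2 * s) 0).indicator 1 (F x) * |bi g w F x + w x * D x| ∂μ := by
    rw [← integral_neg, ← integral_const_mul]
    apply integral_mono hG.neg (hC.const_mul _)
    intro x
    have h4 := tht_abs hs he (F x)
    have h5 := neg_abs_le (tht s e (F x) * (bi g w F x + w x * D x))
    rw [abs_mul] at h5
    have h6 := mul_le_mul_of_nonneg_right h4 (abs_nonneg (bi g w F x + w x * D x))
    show -(tht s e (F x) * (bi g w F x + w x * D x)) ≤ 3 * ((Ico (-2 * s) 0).indicator 1 (F x) *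
      |bi g w F x + w x * D x|)
    linarith
  rw [h1] at h2
  linarith

end

end Pool.Agent.W545.CS
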