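import Mathlib
import Pool.Agent.W545.CS.Calc
set_option autoImplicit false
open Set Filter Topology MeasureTheory Metric
open scoped ENNReal Manifold ContDiff

/-! Trace inequality with interior collar. -/

namespace Pool.Agent.W545.CS
open Pool.Agent.W545.Man

variable {M : Type*} [TopologicalSpace M] [ChartedSpace (EuclideanHalfSpace (1 + 1)) M]
  [IsManifold (𝓡∂ (1 + 1)) ∞ M] [MeasurableSpace M] [BorelSpace M] [CompactSpace M]

variable {g : RMetric 1 M} {F D : M → ℝ} {μ ν : Measure M} {s0 m C : ℝ} [IsFiniteMeasure μ]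

omit [ChartedSpace (EuclideanHalfSpace (1 + 1)) M] [IsManifold (𝓡∂ (1 + 1)) ∞ M] in
theorem set_mono {F : M → ℝ} (hF : Continuous F) {S : Set ℝ} (hS : MeasurableSet S) {f1 f2 : M → ℝ}
    (h1 : Continuous f1) (h2 : Continuous f2) (h : ∀ x, F x ∈ S → f1 x ≤ f2 x) :
    ∫ x in F ⁻¹' S, f1 x ∂μ ≤ ∫ x in F ⁻¹' S, f2 x ∂μ :=
  setIntegral_mono_on (int_cont h1).integrableOn (int_cont h2).integrableOn (hF.measurable hS)
    fun x hx => h x hx

omit [IsFiniteMeasure μ] in
theorem bi_sq_le (H : Dat g F D μ ν s0 m C) (u : M → ℝ) (x : M) :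
    bi g u F x ^ 2 ≤ C ^ 2 * bi g u u x := by
  have h1 := bi_cs g u F x
  have h2 := H.up x
  have h3 := bi_nonneg g u x
  nlinarith

omit [IsFiniteMeasure μ] in
theorem j_sq (H : Dat g F D μ ν s0 m C) {u : M → ℝ} (hu : Sm u) {α : ℝ} (hα : 0 < α) (x : M) :
    |bi g (fun x => u x * u x) F x + u x * u x * D x| ≤
      (α + C) * u x ^ 2 + C ^ 2 / α * bi g u u x := by
  rw [bi_mul g hu hu]
  have h1 := bi_sq_le H u x
  have h2 := H.Dle x
  have h3 : |2 * u x * bi g u F x| ≤ α * u x ^ 2 + 1 / α * bi g u F x ^ 2 := by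
    rw [abs_le]
    have e : 0 ≤ (α * u x + bi g u F x) ^ 2 / α := by positivity
    have e' : 0 ≤ (α * u x - bi g u F x) ^ 2 / α := by positivity
    have f1 : (α * u x + bi g u F x) ^ 2 / α = α * u x ^ 2 + 2 * u x * bi g u F x +
        1 / α * bi g u F x ^ 2 := by field_simp; ring
    have f2 : (α * u x - bi g u F x) ^ 2 / α = α * u x ^ 2 - 2 * u x * bi g u F x +
        1 / α * bi g u F x ^ 2 := by field_simp; ring
    rw [f1] at e; rw [f2] at e'
    constructor <;> linarith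
  have h4 : 1 / α * bi g u F x ^ 2 ≤ C ^ 2 / α * bi g u u x := by
    have : 1 / α * bi g u F x ^ 2 ≤ 1 / α * (C ^ 2 * bi g u u x) := by gcongr
    calc _ ≤ _ := this
      _ = _ := by ring
  have h5 : |u x * u x * D x| ≤ C * u x ^ 2 := by
    rw [abs_mul, abs_of_nonneg (mul_self_nonneg _)]
    have := mul_le_mul_of_nonneg_left h2 (mul_self_nonneg (u x))
    nlinarith
  have e0 : u x * bi g u F x + u x * bi g u F x + u x * u x * D x =
      2 * u x * bi g u F x + u x * u x * D x := by ring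
  rw [e0]
  refine (abs_add_le _ _).trans ?_
  nlinarith

theorem trace_e (H : Dat g F D μ ν s0 m C) {K0 : ℝ} (hK0 : 0 < K0)
    (hK : ∀ x, deriv Real.smoothTransition x ≤ K0) {u : M → ℝ} (hu : Sm u)
    {s e : ℝ} (hs : 0 < s) (he : 0 < e) (hes : e ≤ s) (hs0 : s ≤ s0) (hs1 : s * (12 * C) ≤ m ^ 2) :
    m * ∫ x, u x * u x * (dst 0 e (F x) * √(bi g F F x)) ∂μ ≤
      ((3 * K0 + 1) * C ^ 2 + m ^ 2) / s * ∫ x in F ⁻¹' (Icc (-2 * s) (-s)), u x ^ 2 ∂μ +
      36 * C ^ 2 * s / m ^ 2 * ∫ x in F ⁻¹' (Ico (-2 * s) 0), bi g u u x ∂μ +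
      m ^ 2 / (2 * s) * ∫ x in F ⁻¹' (Ioo (-e) 0), u x ^ 2 ∂μ := by
  have hm := H.m0
  have hC : 0 < C := lt_of_lt_of_le one_pos H.C1
  have cF := H.sF.cont
  have cu := hu.cont
  have cu2 : Continuous fun x => u x ^ 2 := cu.pow 2
  have cQ := (bi_smooth g H.sF H.sF).cont
  have cE := (bi_smooth g hu hu).cont
  have cj : Continuous fun x => |bi g (fun x => u x * u x) F x + u x * u x * D x| :=
    ((bi_smooth g (hu.mul hu) H.sF).cont.add ((cu.mul cu).mul H.sD.cont)).abs
  have h1 := step1 H hK0 hK (hu.mul hu) (fun x => mul_self_nonneg _) hs he hes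
  have low : ∀ x, F x ∈ Icc (-2 * s0) 0 → m ^ 2 ≤ bi g F F x := fun x hx => H.low x (by
    rw [abs_le]; constructor <;> linarith [hx.1, hx.2, H.s00])
  set X1 := ∫ x in F ⁻¹' (Icc (-2 * s) (-s)), u x ^ 2 ∂μ with hX1
  set X2 := ∫ x in F ⁻¹' (Icc (-s) (-e)), u x ^ 2 ∂μ with hX2
  set X3 := ∫ x in F ⁻¹' (Ioo (-e) 0), u x ^ 2 ∂μ with hX3
  set X := ∫ x in F ⁻¹' (Ico (-2 * s) 0), u x ^ 2 ∂μ with hX
  set E := ∫ x in F ⁻¹' (Ico (-2 * s) 0), bi g u u x ∂μ with hE
  -- the four pieces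
  have hT : m * ∫ x, u x * u x * (dst 0 e (F x) * √(bi g F F x)) ∂μ ≤
      ∫ x, u x * u x * (dst 0 e (F x) * bi g F F x) ∂μ := by
    rw [← integral_const_mul]
    have cd : Continuous fun x => dst 0 e (F x) := (dst_smooth 0 e).continuous.comp cF
    apply integral_mono (int_cont ((cu.mul cu).mul (cd.mul (Real.continuous_sqrt.comp cQ)))
      |>.const_mul m) (int_cont ((cu.mul cu).mul (cd.mul cQ)))
    intro x
    show m * (u x * u x * (dst 0 e (F x) * √(bi g F F x))) ≤
      u x * u x * (dst 0 e (F x) * bi g F F x)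
    by_cases hx : dst 0 e (F x) = 0
    · rw [hx]; simp
    · have hFx : F x ∈ Icc (-2 * s0) 0 := by
        constructor
        · by_contra hc
          exact hx (dst_zero_left he (by linarith))
        · by_contra hc
          exact hx (dst_zero_right he (by linarith))
      have hq := low x hFx
      have hq0 := bi_nonneg g F x
      have hms : m ≤ √(bi g F F x) := Real.le_sqrt_of_sq_le hq
      have h4 : m * √(bi g F F x) ≤ bi g F F x := by
        have := Real.mul_self_sqrt hq0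
        nlinarith [Real.sqrt_nonneg (bi g F F x)]
      have h5 : 0 ≤ u x * u x * dst 0 e (F x) := mul_nonneg (mul_self_nonneg _) (dst_nonneg he _)
      have := mul_le_mul_of_nonneg_left h4 h5
      nlinarith
  have hY2 : m ^ 2 * X2 ≤ ∫ x in F ⁻¹' (Icc (-s) (-e)), u x * u x * bi g F F x ∂μ := by
    rw [hX2, ← integral_const_mul]
    apply set_mono cF measurableSet_Icc (continuous_const.mul cu2) ((cu.mul cu).mul cQ)
    intro x hx
    have := low x ⟨by linarith [hx.1], by linarith [hx.2]⟩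
    show m ^ 2 * u x ^ 2 ≤ u x * u x * bi g F F x
    nlinarith [mul_le_mul_of_nonneg_left this (mul_self_nonneg (u x))]
  have hY1 : ∫ x in F ⁻¹' (Icc (-2 * s) (-s)), u x * u x * bi g F F x ∂μ ≤ C ^ 2 * X1 := by
    rw [hX1, ← integral_const_mul]
    apply set_mono cF measurableSet_Icc ((cu.mul cu).mul cQ) (continuous_const.mul cu2)
    intro x _
    have := H.up x
    show u x * u x * bi g F F x ≤ C ^ 2 * u x ^ 2
    nlinarith [mul_le_mul_of_nonneg_left this (mul_self_nonneg (u x))]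
  have hJ : ∫ x in F ⁻¹' (Ico (-2 * s) 0), |bi g (fun x => u x * u x) F x + u x * u x * D x| ∂μ ≤
      (m ^ 2 / (12 * s) + C) * X + C ^ 2 / (m ^ 2 / (12 * s)) * E := by
    rw [hX, hE, ← integral_const_mul, ← integral_const_mul, ← integral_add
      ((int_cont cu2).integrableOn.const_mul _) ((int_cont cE).integrableOn.const_mul _)]
    apply set_mono cF measurableSet_Ico cj
      ((continuous_const.mul cu2).add (continuous_const.mul cE))
    intro x _
    exact j_sq H hu (by positivity) x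
  have hXX : X ≤ X1 + X2 + X3 := by
    have e1 : F ⁻¹' (Ico (-2 * s) 0) ⊆ (F ⁻¹' (Icc (-2 * s) (-s)) ∪ F ⁻¹' (Icc (-s) (-e))) ∪
        F ⁻¹' (Ioo (-e) 0) := by
      intro x hx
      obtain ⟨h2, h3⟩ := hx
      rcases le_or_gt (F x) (-s) with h4 | h4
      · exact Or.inl (Or.inl ⟨h2, h4⟩)
      · rcases le_or_gt (F x) (-e) with h5 | h5
        · exact Or.inl (Or.inr ⟨h4.le, h5⟩)
        · exact Or.inr ⟨h5, h3⟩
    have hi : ∀ S, IntegrableOn (fun x => u x ^ 2) S μ := fun S => (int_cont cu2).integrableOn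
    have hnn : ∀ (S : Set M), 0 ≤ᵐ[μ.restrict S] fun x => u x ^ 2 := fun S =>
      Eventually.of_forall fun x => sq_nonneg _
    have m1 : MeasurableSet (F ⁻¹' (Icc (-2 * s) (-s))) := cF.measurable measurableSet_Icc
    have m2 : MeasurableSet (F ⁻¹' (Icc (-s) (-e))) := cF.measurable measurableSet_Icc
    have m3 : MeasurableSet (F ⁻¹' (Ioo (-e) 0)) := cF.measurable measurableSet_Ioo
    have key : ∀ (A B : Set M), MeasurableSet A → MeasurableSet B →
        ∫ x in A ∪ B, u x ^ 2 ∂μ ≤ (∫ x in A, u x ^ 2 ∂μ) + ∫ x in B, u x ^ 2 ∂μ := by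
      intro A B hA hB
      rw [← integral_indicator (hA.union hB), ← integral_indicator hA, ← integral_indicator hB,
        ← integral_add ((int_cont cu2).indicator hA) ((int_cont cu2).indicator hB)]
      apply integral_mono ((int_cont cu2).indicator (hA.union hB))
        (((int_cont cu2).indicator hA).add ((int_cont cu2).indicator hB))
      intro x
      show (A ∪ B).indicator (fun x => u x ^ 2) x ≤ A.indicator (fun x => u x ^ 2) x +
        B.indicator (fun x => u x ^ 2) x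
      have hx := sq_nonneg (u x)
      by_cases hA' : x ∈ A
      · rw [indicator_of_mem (mem_union_left B hA'), indicator_of_mem hA']
        have : 0 ≤ B.indicator (fun x => u x ^ 2) x := indicator_nonneg (fun x _ => sq_nonneg _) x
        linarith
      · by_cases hB' : x ∈ B
        · rw [indicator_of_mem (mem_union_right A hB'), indicator_of_notMem hA', indicator_of_mem hB']
          linarith
        · rw [indicator_of_notMem (fun h => h.elim hA' hB'), indicator_of_notMem hA',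
            indicator_of_notMem hB']
          simp
    calc X ≤ ∫ x in (F ⁻¹' (Icc (-2 * s) (-s)) ∪ F ⁻¹' (Icc (-s) (-e))) ∪ F ⁻¹' (Ioo (-e) 0),
          u x ^ 2 ∂μ := setIntegral_mono_set (hi _) (hnn _) e1.eventuallyLE
      _ ≤ _ := (key _ _ (m1.union m2) m3).trans (by
          have := key _ _ m1 m2
          linarith)
  have hE0 : 0 ≤ E := setIntegral_nonneg (cF.measurable measurableSet_Ico) fun x _ =>
    bi_nonneg g u x
  have hX10 : 0 ≤ X1 := setIntegral_nonneg (cF.measurable measurableSet_Icc) fun x _ =>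
    sq_nonneg _
  have hX20 : 0 ≤ X2 := setIntegral_nonneg (cF.measurable measurableSet_Icc) fun x _ =>
    sq_nonneg _
  have hX30 : 0 ≤ X3 := setIntegral_nonneg (cF.measurable measurableSet_Ioo) fun x _ =>
    sq_nonneg _
  have hX0 : 0 ≤ X := setIntegral_nonneg (cF.measurable measurableSet_Ico) fun x _ =>
    sq_nonneg _
  -- put together
  have e1 : 3 * (m ^ 2 / (12 * s) + C) ≤ m ^ 2 / (2 * s) := by
    have f1 : m ^ 2 / (2 * s) - 3 * (m ^ 2 / (12 * s) + C) = (m ^ 2 - 12 * C * s) / (4 * s) := by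
      field_simp; ring
    have f2 : 0 ≤ (m ^ 2 - 12 * C * s) / (4 * s) := by
      apply div_nonneg _ (by positivity)
      linarith
    linarith
  have e2 : 3 * (C ^ 2 / (m ^ 2 / (12 * s))) = 36 * C ^ 2 * s / m ^ 2 := by
    field_simp; ring
  have a1 : 1 / s * (m ^ 2 * X2) ≤
      1 / s * ∫ x in F ⁻¹' (Icc (-s) (-e)), u x * u x * bi g F F x ∂μ := by gcongr
  have a2 : (3 * K0 + 1) / s * ∫ x in F ⁻¹' (Icc (-2 * s) (-s)), u x * u x * bi g F F x ∂μ ≤
      (3 * K0 + 1) / s * (C ^ 2 * X1) := by gcongr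
  have a3 : 3 * (m ^ 2 / (12 * s) + C) * X ≤ m ^ 2 / (2 * s) * (X1 + X2 + X3) := by
    gcongr
  have a4 : m ^ 2 / (2 * s) * X2 ≤ 1 / s * (m ^ 2 * X2) := by
    have : m ^ 2 / (2 * s) * X2 = 1 / s * (m ^ 2 * X2) / 2 := by field_simp
    rw [this]
    have : 0 ≤ 1 / s * (m ^ 2 * X2) := by positivity
    linarith
  have a5 : (3 * K0 + 1) / s * (C ^ 2 * X1) + m ^ 2 / (2 * s) * X1 ≤
      ((3 * K0 + 1) * C ^ 2 + m ^ 2) / s * X1 := by
    have f1 : ((3 * K0 + 1) * C ^ 2 + m ^ 2) / s * X1 - ((3 * K0 + 1) / s * (C ^ 2 * X1) +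
        m ^ 2 / (2 * s) * X1) = m ^ 2 / (2 * s) * X1 := by field_simp; ring
    have f2 : 0 ≤ m ^ 2 / (2 * s) * X1 := by positivity
    linarith
  have e3 : 3 * ((m ^ 2 / (12 * s) + C) * X + C ^ 2 / (m ^ 2 / (12 * s)) * E) =
      3 * (m ^ 2 / (12 * s) + C) * X + 36 * C ^ 2 * s / m ^ 2 * E := by rw [← e2]; ring
  have e4 : m ^ 2 / (2 * s) * (X1 + X2 + X3) = m ^ 2 / (2 * s) * X1 + m ^ 2 / (2 * s) * X2 +
      m ^ 2 / (2 * s) * X3 := by ring
  have h1' : ∫ x, u x * u x * (dst 0 e (F x) * bi g F F x) ∂μ +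
      1 / s * ∫ x in F ⁻¹' (Icc (-s) (-e)), u x * u x * bi g F F x ∂μ ≤
    (3 * K0 + 1) / s * ∫ x in F ⁻¹' (Icc (-2 * s) (-s)), u x * u x * bi g F F x ∂μ +
      3 * ∫ x in F ⁻¹' (Ico (-2 * s) 0), |bi g (fun x => u x * u x) F x + u x * u x * D x| ∂μ := h1
  linarith

end Pool.Agent.W545.CS
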