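import Mathlib
import Pool.Agent.W545.CS.Trace1
set_option autoImplicit false
open Set Filter Topology MeasureTheory Metric
open scoped ENNReal Manifold ContDiff

/-! Trace inequality for the length measure; the collar estimates. -/

namespace Pool.Agent.W545.CS
open Pool.Agent.W545.Man

variable {M : Type*} [TopologicalSpace M] [ChartedSpace (EuclideanHalfSpace (1 + 1)) M]
  [IsManifold (𝓡∂ (1 + 1)) ∞ M] [MeasurableSpace M] [BorelSpace M] [CompactSpace M]

variable {g : RMetric 1 M} {F D : M → ℝ} {μ ν : Measure M} {s0 m C : ℝ} [IsFiniteMeasure μ]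

omit [ChartedSpace (EuclideanHalfSpace (1 + 1)) M] [IsManifold (𝓡∂ (1 + 1)) ∞ M] in
theorem small_collar {F : M → ℝ} (hF : Continuous F) {f : M → ℝ} (hf : Continuous f)
    (h0 : ∀ x, 0 ≤ f x) {η : ℝ} (hη : 0 < η) : ∃ δ : ℝ, 0 < δ ∧ ∀ e : ℝ, e ≤ δ →
      ∫ x in F ⁻¹' (Ioo (-e) 0), f x ∂μ ≤ η := by
  have h1 := tendsto_setIntegral_of_antitone (μ := μ) (f := f)
    (s := fun n : ℕ => F ⁻¹' (Ioo (-(1 / ((n : ℝ) + 1))) 0))
    (fun n => hF.measurable measurableSet_Ioo) (by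
      intro a b hab x hx
      refine ⟨?_, hx.2⟩
      have h : (1 : ℝ) / ((b : ℝ) + 1) ≤ 1 / ((a : ℝ) + 1) := by
        have : (a : ℝ) ≤ b := by exact_mod_cast hab
        gcongr
      have := hx.1
      linarith) ⟨0, (int_cont hf).integrableOn⟩
  have h2 : ⋂ n : ℕ, F ⁻¹' (Ioo (-(1 / ((n : ℝ) + 1))) 0) = ∅ := by
    ext x
    simp only [mem_iInter, mem_preimage, mem_Ioo, mem_empty_iff_false, iff_false, not_forall,
      not_and]
    by_cases h : F x < 0
    · obtain ⟨n, hn⟩ := exists_nat_one_div_lt (neg_pos.2 h)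
      exact ⟨n, fun h1 => by linarith⟩
    · exact ⟨0, fun _ => h⟩
  rw [h2, setIntegral_empty] at h1
  obtain ⟨n, hn⟩ := (h1.eventually (gt_mem_nhds hη)).exists
  refine ⟨1 / ((n : ℝ) + 1), by positivity, fun e he => ?_⟩
  refine le_trans ?_ hn.le
  apply setIntegral_mono_set (int_cont hf).integrableOn (Eventually.of_forall h0)
  apply HasSubset.Subset.eventuallyLE
  intro x hx
  exact ⟨by linarith [hx.1], hx.2⟩

theorem kernel_ok {e δ : ℝ} (he : 0 < e) (hδ : e ≤ δ) (x : ℝ) (hx : dst 0 e x ≠ 0) : |x| ≤ δ := by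
  rw [abs_le]
  constructor
  · by_contra hc
    exact hx (dst_zero_left he (by linarith))
  · by_contra hc
    exact hx (dst_zero_right he (by linarith))

theorem trace_nu (H : Dat g F D μ ν s0 m C) : ∃ s1 C1 : ℝ, 0 < s1 ∧ s1 ≤ s0 ∧ 0 < C1 ∧
    ∀ s, 0 < s → s ≤ s1 → ∀ u : M → ℝ, Sm u → ∫ x, u x ^ 2 ∂ν ≤
      C1 / s * ∫ x in F ⁻¹' (Icc (-2 * s) (-s)), u x ^ 2 ∂μ +
      C1 * s * ∫ x in F ⁻¹' (Ico (-2 * s) 0), bi g u u x ∂μ := by
  obtain ⟨K0, hK0, hK⟩ := exists_K0
  have hm := H.m0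
  have hC : 0 < C := lt_of_lt_of_le one_pos H.C1
  have hs00 := H.s00
  refine ⟨min s0 (m ^ 2 / (12 * C)), ((3 * K0 + 1) * C ^ 2 + m ^ 2) / m + 36 * C ^ 2 / m ^ 2 / m,
    lt_min hs00 (by positivity), min_le_left _ _, by positivity, ?_⟩
  intro s hs hs1 u hu
  have hs0 : s ≤ s0 := hs1.trans (min_le_left _ _)
  have hs2 : s * (12 * C) ≤ m ^ 2 := by
    have : s ≤ m ^ 2 / (12 * C) := hs1.trans (min_le_right _ _)
    rwa [le_div_iff₀ (by positivity)] at this
  set X1 := ∫ x in F ⁻¹' (Icc (-2 * s) (-s)), u x ^ 2 ∂μ with hX1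
  set E := ∫ x in F ⁻¹' (Ico (-2 * s) 0), bi g u u x ∂μ with hE
  set B := ∫ x, u x ^ 2 ∂ν with hB
  have hX10 : 0 ≤ X1 := setIntegral_nonneg (H.sF.cont.measurable measurableSet_Icc) fun x _ =>
    sq_nonneg _
  have hE0 : 0 ≤ E := setIntegral_nonneg (H.sF.cont.measurable measurableSet_Ico) fun x _ =>
    bi_nonneg g u x
  have key : m * B ≤ ((3 * K0 + 1) * C ^ 2 + m ^ 2) / s * X1 + 36 * C ^ 2 * s / m ^ 2 * E := by
    apply le_of_forall_pos_le_add
    intro η' hη'
    set η := η' / (m + m ^ 2 / (2 * s)) with hη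
    have hη0 : 0 < η := by positivity
    obtain ⟨δ1, hδ1, h1⟩ := H.coarea (fun x => u x * u x) (hu.cont.mul hu.cont) η hη0
    obtain ⟨δ2, hδ2, h2⟩ := small_collar (μ := μ) H.sF.cont (hu.cont.pow 2)
      (fun x => sq_nonneg _) hη0
    set e := min (min δ1 δ2) s with he
    have he0 : 0 < e := lt_min (lt_min hδ1 hδ2) hs
    have he1 : e ≤ δ1 := (min_le_left _ _).trans (min_le_left _ _)
    have he2 : e ≤ δ2 := (min_le_left _ _).trans (min_le_right _ _)
    have hes : e ≤ s := min_le_right _ _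
    have h3 := h1 (dst 0 e) (dst_smooth 0 e).continuous (dst_nonneg he0) (kernel_ok he0 he1)
      (dst_integral he0)
    have h4 := h2 e he2
    have h5 := trace_e H hK0 hK hu hs he0 hes hs0 hs2
    have eB : ∫ x, u x * u x ∂ν = B := by rw [hB]; congr 1; funext x; ring
    rw [eB, abs_le] at h3
    have h6 : m * (B - η) ≤ m * ∫ x, u x * u x * (dst 0 e (F x) * √(bi g F F x)) ∂μ := by
      apply mul_le_mul_of_nonneg_left _ hm.le
      linarith [h3.1]
    have h7 : m ^ 2 / (2 * s) * ∫ x in F ⁻¹' (Ioo (-e) 0), u x ^ 2 ∂μ ≤ m ^ 2 / (2 * s) * η :=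
      mul_le_mul_of_nonneg_left h4 (by positivity)
    have h8 : (m + m ^ 2 / (2 * s)) * η = η' := by rw [hη]; field_simp
    nlinarith
  have h9 : B ≤ (((3 * K0 + 1) * C ^ 2 + m ^ 2) / s * X1 + 36 * C ^ 2 * s / m ^ 2 * E) / m := by
    rw [le_div_iff₀ hm]; linarith
  refine h9.trans ?_
  have e1 : (((3 * K0 + 1) * C ^ 2 + m ^ 2) / s * X1 + 36 * C ^ 2 * s / m ^ 2 * E) / m =
      ((3 * K0 + 1) * C ^ 2 + m ^ 2) / m / s * X1 + 36 * C ^ 2 / m ^ 2 / m * s * E := by
    field_simp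
  rw [e1]
  gcongr
  · apply le_add_of_nonneg_right; positivity
  · apply le_add_of_nonneg_left; positivity

/-- the mass near the curve is small -/
theorem collar_small (H : Dat g F D μ ν s0 m C) {u : M → ℝ} (hu : Sm u) {e : ℝ} (he : 0 < e)
    (he0 : e ≤ 2 * s0) : ∫ x in F ⁻¹' (Icc (-e) e), u x ^ 2 ∂μ ≤
      14 * C ^ 2 / m ^ 2 * e * ((∫ x, bi g u u x ∂μ) + ∫ x, u x ^ 2 ∂μ) := by
  have hm := H.m0
  have hC : 0 < C := lt_of_lt_of_le one_pos H.C1
  have cF := H.sF.cont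
  have cu := hu.cont
  have cu2 : Continuous fun x => u x ^ 2 := cu.pow 2
  have cQ := (bi_smooth g H.sF H.sF).cont
  have cE := (bi_smooth g hu hu).cont
  set θ : ℝ → ℝ := fun x => e * (2 * Real.arctan (x / e) + Real.pi) with hθ
  have hθs : ContDiff ℝ ∞ θ := by
    rw [hθ]
    exact contDiff_const.mul ((contDiff_const.mul ((contDiff_id.div_const e).arctan)).add
      contDiff_const)
  have hθd : ∀ x, deriv θ x = 2 / (1 + (x / e) ^ 2) := by
    intro x
    have h1 : HasDerivAt (fun x : ℝ => x / e) (1 / e) x := (hasDerivAt_id x).div_const e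
    have h2 := (((h1.arctan).const_mul 2).add_const Real.pi).const_mul e
    rw [h2.deriv]
    field_simp
  have hθ0 : ∀ x, |θ x| ≤ 2 * Real.pi * e := by
    intro x
    have h1 := Real.neg_pi_div_two_lt_arctan (x / e)
    have h2 := Real.arctan_lt_pi_div_two (x / e)
    rw [hθ, abs_mul, abs_of_pos he]
    have : |2 * Real.arctan (x / e) + Real.pi| ≤ 2 * Real.pi := by
      rw [abs_le]; constructor <;> linarith
    calc e * |2 * Real.arctan (x / e) + Real.pi| ≤ e * (2 * Real.pi) := by gcongr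
      _ = _ := by ring
  have h1 := calc1 H (hu.mul hu) hθs
  have cj : Continuous fun x => bi g (fun x => u x * u x) F x + u x * u x * D x :=
    (bi_smooth g (hu.mul hu) H.sF).cont.add ((cu.mul cu).mul H.sD.cont)
  have cθ' : Continuous (deriv θ) := ((contDiff_infty_iff_deriv.1 hθs).2).continuous
  -- lower bound
  have h2 : m ^ 2 * ∫ x in F ⁻¹' (Icc (-e) e), u x ^ 2 ∂μ ≤
      ∫ x, u x * u x * (deriv θ (F x) * bi g F F x) ∂μ := by
    rw [← integral_const_mul, ← ind_int μ cF measurableSet_Icc]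
    apply integral_mono (ind_integrable cF measurableSet_Icc (continuous_const.mul cu2))
      (int_cont ((cu.mul cu).mul ((cθ'.comp cF).mul cQ)))
    intro x
    show (Icc (-e) e).indicator 1 (F x) * (m ^ 2 * u x ^ 2) ≤
      u x * u x * (deriv θ (F x) * bi g F F x)
    have hQ := bi_nonneg g F x
    have hd : 0 ≤ deriv θ (F x) := by rw [hθd]; positivity
    by_cases hx : F x ∈ Icc (-e) e
    · rw [indicator_of_mem hx, Pi.one_apply, one_mul]
      have h3 : m ^ 2 ≤ bi g F F x := H.low x (by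
        rw [abs_le]; constructor <;> linarith [hx.1, hx.2])
      have h4 : 1 ≤ deriv θ (F x) := by
        rw [hθd, le_div_iff₀ (by positivity), one_mul]
        have : (F x / e) ^ 2 ≤ 1 := by
          rw [sq_le_one_iff_abs_le_one, abs_div, abs_of_pos he, div_le_one he, abs_le]
          exact hx
        linarith
      have h5 : m ^ 2 ≤ deriv θ (F x) * bi g F F x := by nlinarith
      nlinarith [mul_le_mul_of_nonneg_left h5 (mul_self_nonneg (u x))]
    · rw [indicator_of_notMem hx, zero_mul]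
      exact mul_nonneg (mul_self_nonneg _) (mul_nonneg hd hQ)
  -- upper bound
  have h3 : -∫ x, θ (F x) * (bi g (fun x => u x * u x) F x + u x * u x * D x) ∂μ ≤
      2 * Real.pi * e * (2 * C ^ 2 * ((∫ x, bi g u u x ∂μ) + ∫ x, u x ^ 2 ∂μ)) := by
    have hsum : (∫ x, bi g u u x ∂μ) + ∫ x, u x ^ 2 ∂μ = ∫ x, (bi g u u x + u x ^ 2) ∂μ :=
      (integral_add (int_cont cE) (int_cont cu2)).symm
    rw [hsum, ← integral_neg, ← integral_const_mul, ← integral_const_mul]
    apply integral_mono (int_cont (hθs.continuous.comp cF |>.mul cj)).neg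
      (((int_cont (cE.add cu2)).const_mul _).const_mul _)
    intro x
    show -(θ (F x) * (bi g (fun x => u x * u x) F x + u x * u x * D x)) ≤
      2 * Real.pi * e * (2 * C ^ 2 * (bi g u u x + u x ^ 2))
    have h4 := j_sq H hu one_pos x
    have h5 := hθ0 (F x)
    have h6 := neg_abs_le (θ (F x) * (bi g (fun x => u x * u x) F x + u x * u x * D x))
    rw [abs_mul] at h6
    have h7 : (1 + C) * u x ^ 2 + C ^ 2 / 1 * bi g u u x ≤ 2 * C ^ 2 * (bi g u u x + u x ^ 2) := by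
      have := H.C1
      have q1 := sq_nonneg (u x)
      have q2 := bi_nonneg g u x
      have : 1 + C ≤ 2 * C ^ 2 := by nlinarith
      have : (1 + C) * u x ^ 2 ≤ 2 * C ^ 2 * u x ^ 2 := by gcongr
      have : C ^ 2 / 1 * bi g u u x ≤ 2 * C ^ 2 * bi g u u x := by
        rw [div_one]
        have : 0 ≤ C ^ 2 * bi g u u x := by positivity
        linarith
      linarith
    have h8 : |θ (F x)| * |bi g (fun x => u x * u x) F x + u x * u x * D x| ≤
        2 * Real.pi * e * (2 * C ^ 2 * (bi g u u x + u x ^ 2)) := by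
      have := h4.trans h7
      have p := Real.pi_pos
      gcongr
    linarith
  have h4 : m ^ 2 * ∫ x in F ⁻¹' (Icc (-e) e), u x ^ 2 ∂μ ≤
      2 * Real.pi * e * (2 * C ^ 2 * ((∫ x, bi g u u x ∂μ) + ∫ x, u x ^ 2 ∂μ)) :=
    (h2.trans (le_of_eq h1)).trans h3
  have hN : 0 ≤ (∫ x, bi g u u x ∂μ) + ∫ x, u x ^ 2 ∂μ :=
    add_nonneg (integral_nonneg fun x => bi_nonneg g u x) (integral_nonneg fun x => sq_nonneg _)
  set N := (∫ x, bi g u u x ∂μ) + ∫ x, u x ^ 2 ∂μ
  have h5 : 2 * Real.pi * e * (2 * C ^ 2 * N) ≤ 14 * C ^ 2 * e * N := by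
    have p : Real.pi < 3.5 := by linarith [Real.pi_lt_d2]
    have : 0 ≤ C ^ 2 * e * N := by positivity
    nlinarith
  have h6 : ∫ x in F ⁻¹' (Icc (-e) e), u x ^ 2 ∂μ ≤ (14 * C ^ 2 * e * N) / m ^ 2 := by
    rw [le_div_iff₀ (by positivity)]
    linarith
  refine h6.trans (le_of_eq ?_)
  field_simp

end Pool.Agent.W545.CS
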