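import Mathlib
import Pool.Agent.W545.CS.Trace2
set_option autoImplicit false
open Set Filter Topology MeasureTheory Metric
open scoped ENNReal Manifold ContDiff

/-! The smooth densities near the curve approximate the length measure in the energy norm. -/

namespace Pool.Agent.W545.CS
open Pool.Agent.W545.Man

variable {M : Type*} [TopologicalSpace M] [ChartedSpace (EuclideanHalfSpace (1 + 1)) M]
  [IsManifold (𝓡∂ (1 + 1)) ∞ M] [MeasurableSpace M] [BorelSpace M] [CompactSpace M]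

variable {g : RMetric 1 M} {F D : M → ℝ} {μ ν : Measure M} {s0 m C : ℝ} [IsFiniteMeasure μ]

omit [ChartedSpace (EuclideanHalfSpace (1 + 1)) M] [IsManifold (𝓡∂ (1 + 1)) ∞ M]
  [MeasurableSpace M] [BorelSpace M] in
theorem exists_bound {f : M → ℝ} (hf : Continuous f) : ∃ B : ℝ, 0 < B ∧ ∀ x, |f x| ≤ B := by
  obtain ⟨B, hB⟩ := (isCompact_univ (X := M)).exists_bound_of_continuousOn hf.continuousOn
  exact ⟨|B| + 1, by positivity, fun x => (hB x (mem_univ _)).trans
    ((le_abs_self B).trans (by linarith))⟩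

omit [IsFiniteMeasure μ] in
theorem exists_beta (H : Dat g F D μ ν s0 m C) : ∃ β : M → ℝ, Sm β ∧ (∀ x, 0 < β x) ∧
    ∀ x, |F x| ≤ s0 → β x ^ 2 = bi g F F x := by
  set ψ : ℝ → ℝ := fun x => Real.smoothTransition ((x ^ 2 - s0 ^ 2) / (3 * s0 ^ 2)) with hψ
  have hs := H.s00
  have hψs : ContDiff ℝ ∞ ψ := by
    rw [hψ]
    exact Real.smoothTransition.contDiff.comp (((contDiff_id.pow 2).sub contDiff_const).div_const _)
  have hpos : ∀ x, 0 < bi g F F x + ψ (F x) := by
    intro x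
    have h0 := bi_nonneg g F x
    have h1 : 0 ≤ ψ (F x) := Real.smoothTransition.nonneg _
    rcases le_or_gt |F x| (2 * s0) with h | h
    · have := H.low x h
      have := H.m0
      nlinarith
    · have : ψ (F x) = 1 := by
        apply Real.smoothTransition.one_of_one_le
        rw [le_div_iff₀ (by positivity)]
        have : (2 * s0) ^ 2 < F x ^ 2 := by
          rw [← sq_abs (F x)]
          exact pow_lt_pow_left₀ h (by positivity) (by norm_num)
        nlinarith
      linarith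
  have hsum : Sm fun x => bi g F F x + ψ (F x) :=
    (bi_smooth g H.sF H.sF).add (H.sF.comp fun x => hψs.contDiffAt)
  refine ⟨fun x => √(bi g F F x + ψ (F x)), ?_, fun x => Real.sqrt_pos.2 (hpos x), ?_⟩
  · exact hsum.comp (φ := fun y => √y) fun x => Real.contDiffAt_sqrt (hpos x).ne'
  · intro x hx
    have h1 : ψ (F x) = 0 := by
      apply Real.smoothTransition.zero_of_nonpos
      apply div_nonpos_of_nonpos_of_nonneg _ (by positivity)
      have : F x ^ 2 ≤ s0 ^ 2 := by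
        rw [← sq_abs (F x)]
        exact pow_le_pow_left₀ (abs_nonneg _) hx 2
      linarith
    show √(bi g F F x + ψ (F x)) ^ 2 = _
    rw [h1, add_zero, Real.sq_sqrt (bi_nonneg g F x)]

theorem near (H : Dat g F D μ ν s0 m C) {β : M → ℝ} (hβ : Sm β) (hβ0 : ∀ x, 0 < β x)
    (hβ2 : ∀ x, |F x| ≤ s0 → β x ^ 2 = bi g F F x) :
    ∃ C5 : ℝ, 0 < C5 ∧ ∀ u : M → ℝ, Sm u → ∀ r : ℝ, 0 < r → r ≤ 1 → r ^ 2 ≤ s0 →
      |∫ x, u x ^ 2 * (dst 0 (r ^ 2) (F x) * β x) ∂μ - ∫ x, u x ^ 2 ∂ν| ≤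
        C5 * r * ((∫ x, bi g u u x ∂μ) + ∫ x, u x ^ 2 ∂μ) := by
  have hm := H.m0
  have hC : 0 < C := lt_of_lt_of_le one_pos H.C1
  have cF := H.sF.cont
  have cQ := (bi_smooth g H.sF H.sF).cont
  have hb : Sm fun x => (β x)⁻¹ := hβ.comp (φ := fun y => y⁻¹) fun x =>
    contDiffAt_inv ℝ (hβ0 x).ne'
  set b : M → ℝ := fun x => (β x)⁻¹ with hbdef
  have hb0 : ∀ x, 0 < b x := fun x => inv_pos.2 (hβ0 x)
  obtain ⟨B0, hB0, hB0'⟩ := exists_bound hb.cont
  obtain ⟨B1, hB1, hB1'⟩ := exists_bound (bi_smooth g hb H.sF).cont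
  set C4 := 14 * C ^ 2 / m ^ 2 with hC4
  refine ⟨(B1 + B0 * C) * C4 + B0 * C4 + B0 * C ^ 2, by positivity, ?_⟩
  intro u hu r hr hr1 hrs
  have cu := hu.cont
  have cu2 : Continuous fun x => u x ^ 2 := cu.pow 2
  have cE := (bi_smooth g hu hu).cont
  set e := r ^ 2 with he
  have he0 : 0 < e := by positivity
  have hN : 0 ≤ (∫ x, bi g u u x ∂μ) + ∫ x, u x ^ 2 ∂μ :=
    add_nonneg (integral_nonneg fun x => bi_nonneg g u x) (integral_nonneg fun x => sq_nonneg _)
  have hEN : ∫ x, bi g u u x ∂μ ≤ (∫ x, bi g u u x ∂μ) + ∫ x, u x ^ 2 ∂μ :=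
    le_add_of_nonneg_right (integral_nonneg fun x => sq_nonneg _)
  set N := (∫ x, bi g u u x ∂μ) + ∫ x, u x ^ 2 ∂μ with hNdef
  have hw : Sm fun x => u x * u x * b x := (hu.mul hu).mul hb
  set w : M → ℝ := fun x => u x * u x * b x with hwdef
  set j : M → ℝ := fun x => bi g w F x + w x * D x with hj
  have cj : Continuous j := (bi_smooth g hw H.sF).cont.add (hw.cont.mul H.sD.cont)
  -- replace by `w`
  have e1 : ∀ e' : ℝ, 0 < e' → e' ≤ s0 → ∫ x, u x ^ 2 * (dst 0 e' (F x) * β x) ∂μ =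
      -∫ x, stp 0 e' (F x) * j x ∂μ := by
    intro e' he' hes
    rw [← calc1 H hw (stp_smooth 0 e')]
    congr 1
    funext x
    show u x ^ 2 * (dst 0 e' (F x) * β x) = u x * u x * (β x)⁻¹ * (dst 0 e' (F x) * bi g F F x)
    by_cases hx : dst 0 e' (F x) = 0
    · rw [hx]; simp
    · rw [← hβ2 x ((kernel_ok he' le_rfl _ hx).trans hes)]
      have := (hβ0 x).ne'
      field_simp
  -- the bound of the collar integral
  have hR : ∫ x in F ⁻¹' (Icc (-e) e), |j x| ∂μ ≤
      ((B1 + B0 * C) * C4 + B0 * C4 + B0 * C ^ 2) * r * N := by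
    have hpt : ∀ x, |j x| ≤ (B1 + B0 * (1 / r + C)) * u x ^ 2 + B0 * (C ^ 2 * r) * bi g u u x := by
      intro x
      have h1 := j_sq H hu (α := 1 / r) (by positivity) x
      have e2 : j x = u x * u x * bi g b F x + b x * (bi g (fun x => u x * u x) F x +
          u x * u x * D x) := by
        rw [hj, hwdef]
        simp only
        rw [bi_mul g (u := fun x => u x * u x) (hu.mul hu) hb]
        ring
      rw [e2]
      refine (abs_add_le _ _).trans ?_
      rw [abs_mul (u x * u x), abs_of_nonneg (mul_self_nonneg (u x)), abs_mul (b x)]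
      have h2 : u x * u x * |bi g b F x| ≤ u x * u x * B1 :=
        mul_le_mul_of_nonneg_left (hB1' x) (mul_self_nonneg _)
      have h3 : |b x| * |bi g (fun x => u x * u x) F x + u x * u x * D x| ≤
          B0 * ((1 / r + C) * u x ^ 2 + C ^ 2 / (1 / r) * bi g u u x) := by
        have := hB0' x
        gcongr
      have e3 : C ^ 2 / (1 / r) = C ^ 2 * r := by field_simp
      rw [e3] at h3
      nlinarith
    have h1 : ∫ x in F ⁻¹' (Icc (-e) e), |j x| ∂μ ≤
        (B1 + B0 * (1 / r + C)) * ∫ x in F ⁻¹' (Icc (-e) e), u x ^ 2 ∂μ +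
          B0 * (C ^ 2 * r) * ∫ x in F ⁻¹' (Icc (-e) e), bi g u u x ∂μ := by
      rw [← integral_const_mul, ← integral_const_mul, ← integral_add
        ((int_cont cu2).integrableOn.const_mul _) ((int_cont cE).integrableOn.const_mul _)]
      exact set_mono cF measurableSet_Icc cj.abs
        ((continuous_const.mul cu2).add (continuous_const.mul cE)) fun x _ => hpt x
    have h2 := collar_small H hu he0 (by linarith [H.s00])
    rw [← hC4] at h2
    have h3 : ∫ x in F ⁻¹' (Icc (-e) e), bi g u u x ∂μ ≤ N :=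
      (setIntegral_le_integral (int_cont cE) (Eventually.of_forall fun x => bi_nonneg g u x)).trans
        hEN
    have h4 : (B1 + B0 * (1 / r + C)) * ∫ x in F ⁻¹' (Icc (-e) e), u x ^ 2 ∂μ ≤
        (B1 + B0 * (1 / r + C)) * (C4 * e * N) := by gcongr
    have h5 : B0 * (C ^ 2 * r) * ∫ x in F ⁻¹' (Icc (-e) e), bi g u u x ∂μ ≤
        B0 * (C ^ 2 * r) * N := by gcongr
    have h6 : (B1 + B0 * (1 / r + C)) * (C4 * e * N) =
        (B1 + B0 * C) * C4 * (r ^ 2) * N + B0 * C4 * r * N := by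
      rw [he]; field_simp; ring
    have h7 : (B1 + B0 * C) * C4 * (r ^ 2) * N ≤ (B1 + B0 * C) * C4 * r * N := by
      have : r ^ 2 ≤ r := by nlinarith
      gcongr
    nlinarith
  refine le_trans ?_ hR
  apply le_of_forall_pos_le_add
  intro η hη
  obtain ⟨δ, hδ, h1⟩ := H.coarea (fun x => u x ^ 2) cu2 η hη
  set e' := min δ e with he'
  have he'0 : 0 < e' := lt_min hδ he0
  have he'e : e' ≤ e := min_le_right _ _
  have h2 := h1 (dst 0 e') (dst_smooth 0 e').continuous (dst_nonneg he'0)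
    (kernel_ok he'0 (min_le_left _ _)) (dst_integral he'0)
  have e3 : ∫ x, u x ^ 2 * (dst 0 e' (F x) * √(bi g F F x)) ∂μ =
      ∫ x, u x ^ 2 * (dst 0 e' (F x) * β x) ∂μ := by
    congr 1
    funext x
    by_cases hx : dst 0 e' (F x) = 0
    · rw [hx]; simp
    · rw [← hβ2 x ((kernel_ok he'0 (he'e.trans hrs) _ hx)), Real.sqrt_sq (hβ0 x).le]
  rw [e3] at h2
  have h3 : |∫ x, u x ^ 2 * (dst 0 e (F x) * β x) ∂μ - ∫ x, u x ^ 2 * (dst 0 e' (F x) * β x) ∂μ| ≤
      ∫ x in F ⁻¹' (Icc (-e) e), |j x| ∂μ := by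
    have c1 : Continuous fun x => stp 0 e (F x) * j x :=
      ((stp_smooth 0 e).continuous.comp cF).mul cj
    have c2 : Continuous fun x => stp 0 e' (F x) * j x :=
      ((stp_smooth 0 e').continuous.comp cF).mul cj
    rw [e1 e he0 hrs, e1 e' he'0 (he'e.trans hrs), neg_sub_neg, ← integral_sub (int_cont c2)
      (int_cont c1), ← ind_int μ cF measurableSet_Icc]
    refine (abs_integral_le_integral_abs).trans ?_
    apply integral_mono (int_cont (c2.sub c1)).abs (ind_integrable cF measurableSet_Icc cj.abs)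
    intro x
    show |stp 0 e' (F x) * j x - stp 0 e (F x) * j x| ≤ (Icc (-e) e).indicator 1 (F x) * |j x|
    rw [← sub_mul, abs_mul]
    gcongr
    by_cases hx : F x ∈ Icc (-e) e
    · rw [indicator_of_mem hx, Pi.one_apply, abs_le]
      have a1 := stp_nonneg 0 e (F x)
      have a2 := stp_nonneg 0 e' (F x)
      have a3 := stp_le_one 0 e (F x)
      have a4 := stp_le_one 0 e' (F x)
      constructor <;> linarith
    · rw [indicator_of_notMem hx]
      rw [mem_Icc, not_and_or, not_le, not_le] at hx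
      rcases hx with hx | hx
      · rw [stp_zero he0 (by linarith), stp_zero he'0 (by linarith)]; simp
      · rw [stp_one he0 (by linarith), stp_one he'0 (by linarith)]; simp
  calc |∫ x, u x ^ 2 * (dst 0 e (F x) * β x) ∂μ - ∫ x, u x ^ 2 ∂ν| ≤
      |∫ x, u x ^ 2 * (dst 0 e (F x) * β x) ∂μ - ∫ x, u x ^ 2 * (dst 0 e' (F x) * β x) ∂μ| +
      |∫ x, u x ^ 2 * (dst 0 e' (F x) * β x) ∂μ - ∫ x, u x ^ 2 ∂ν| := abs_sub_le _ _ _
    _ ≤ _ := add_le_add h3 h2

end Pool.Agent.W545.CS
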