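import Mathlib
import Pool.Agent.W545.CS.Near
import Pool.Agent.W45.CS.Poinc
set_option autoImplicit false
open Set Filter Topology MeasureTheory Metric
open scoped ENNReal Manifold ContDiff

/-! Coercivity estimates. -/

namespace Pool.Agent.W545.CS
open Pool.Agent.W545.Man

variable {M : Type*} [TopologicalSpace M] [ChartedSpace (EuclideanHalfSpace (1 + 1)) M]
  [IsManifold (𝓡∂ (1 + 1)) ∞ M] [MeasurableSpace M] [BorelSpace M] [CompactSpace M] [T2Space M]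

variable {g : RMetric 1 M} {F D : M → ℝ} {μ ν : Measure M} {s0 m C : ℝ} [IsFiniteMeasure μ]

omit [ChartedSpace (EuclideanHalfSpace (1 + 1)) M] [IsManifold (𝓡∂ (1 + 1)) ∞ M] [T2Space M] in
theorem lint_real (S : Set M) {f : M → ℝ} (hf : Continuous f) (h0 : ∀ x, 0 ≤ f x) :
    ∫⁻ x in S, ENNReal.ofReal (f x) ∂μ = ENNReal.ofReal (∫ x in S, f x ∂μ) :=
  (ofReal_integral_eq_lintegral_ofReal (int_cont hf).integrableOn (Eventually.of_forall h0)).symm

theorem poincR (hμ : IsVolume g μ) {O : Set M}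
    (hO : IsOpen O) (hc : IsConnected O) {K : Set M} (hK : IsCompact K) (hKO : K ⊆ O) :
    ∃ (K' : Set M) (C : ℝ), IsCompact K' ∧ K ⊆ K' ∧ K' ⊆ O ∧ 0 < C ∧
      ∀ u : M → ℝ, Sm u → ∃ b : ℝ,
        ∫ x in K', (u x - b) ^ 2 ∂μ ≤ C * ∫ x in K', bi g u u x ∂μ := by
  obtain ⟨K', C, h1, h2, h3, hC, h⟩ := Pool.Agent.W45.CS.poinc hμ hO hc hK hKO
  refine ⟨K', C.toReal + 1, h1, h2, h3, by positivity, ?_⟩
  intro u hu
  obtain ⟨b, hb⟩ := h u hu
  refine ⟨b, ?_⟩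
  have c1 : Continuous fun x => (u x - b) ^ 2 := (hu.cont.sub continuous_const).pow 2
  have c2 := (bi_smooth g hu hu).cont
  have e1 : ∫⁻ x in K', Man.sq (u x - b) ∂μ = ENNReal.ofReal (∫ x in K', (u x - b) ^ 2 ∂μ) :=
    lint_real K' c1 fun x => sq_nonneg _
  have e2 : ∫⁻ x in K', gradSq g u x ∂μ = ENNReal.ofReal (∫ x in K', bi g u u x ∂μ) := by
    rw [← lint_real K' c2 (bi_nonneg g u)]
    congr 1
    funext x
    exact (bi_self g hu x).symm
  have h0 : 0 ≤ ∫ x in K', bi g u u x ∂μ := integral_nonneg (bi_nonneg g u)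
  rw [e1, e2, ← ENNReal.ofReal_toReal hC, ← ENNReal.ofReal_mul ENNReal.toReal_nonneg,
    ENNReal.ofReal_le_ofReal_iff (mul_nonneg ENNReal.toReal_nonneg h0)] at hb
  nlinarith

theorem bi_sub_const (g : RMetric 1 M) {u : M → ℝ} (hu : Sm u) (b : ℝ) (x : M) :
    bi g (fun x => u x - b) (fun x => u x - b) x = bi g u u x := by
  have hb : Sm (fun _ : M => -b) := contMDiff_const
  have e : (fun x => u x - b) = fun x => u x + (fun _ : M => -b) x := by
    funext x; simp [sub_eq_add_neg]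
  have h1 : ∀ w : M → ℝ, bi g (fun x => u x - b) w x = bi g u w x := by
    intro w
    rw [e, bi_add g hu hb, bi_const, add_zero]
  rw [h1, bi_symm, h1]

omit [ChartedSpace (EuclideanHalfSpace (1 + 1)) M] [IsManifold (𝓡∂ (1 + 1)) ∞ M] [T2Space M] in
theorem mean_zero [IsFiniteMeasure ν] {u : M → ℝ} (hu : Continuous u) (h0 : ∫ x, u x ∂ν = 0)
    (b : ℝ) : ∫ x, u x ^ 2 ∂ν ≤ ∫ x, (u x - b) ^ 2 ∂ν := by
  have h1 : ∫ x, (u x - b) ^ 2 ∂ν = ∫ x, u x ^ 2 ∂ν - 2 * b * ∫ x, u x ∂ν + b ^ 2 * ν.real univ := by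
    have i1 : Integrable (fun x => u x ^ 2) ν := int_cont (hu.pow 2)
    have i2 : Integrable (fun x => 2 * b * u x) ν := (int_cont hu).const_mul _
    have i3 : Integrable (fun _ : M => b ^ 2) ν := integrable_const _
    have e : ∀ x, (u x - b) ^ 2 = u x ^ 2 - 2 * b * u x + b ^ 2 := fun x => by ring
    simp only [e]
    have e4 : ∫ x, (u x ^ 2 - 2 * b * u x + b ^ 2) ∂ν = ∫ x, (u x ^ 2 - 2 * b * u x) ∂ν +
      ∫ _x, b ^ 2 ∂ν := integral_add (i1.sub i2) i3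
    rw [e4, integral_sub i1 i2, integral_const_mul, integral_const, smul_eq_mul]
    ring
  rw [h1, h0, mul_zero, sub_zero]
  have := measureReal_nonneg (μ := ν) (s := univ)
  nlinarith [sq_nonneg b]

/-- the basic coercivity estimate on the domain -/
theorem coer0 [IsFiniteMeasure ν] (H : Dat g F D μ ν s0 m C) (hμ : IsVolume g μ)
    (hconn : IsConnected {x | F x < 0}) : ∃ s1 C1 : ℝ, 0 < s1 ∧ 0 < C1 ∧
    ∀ s, 0 < s → s ≤ s1 → ∃ s' Cs : ℝ, 0 < s' ∧ 0 < Cs ∧ ∀ u : M → ℝ, Sm u → ∫ x, u x ∂ν = 0 →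
      ∫ x, u x ^ 2 ∂ν ≤ Cs * ∫ x in F ⁻¹' (Iic (-s')), bi g u u x ∂μ +
        C1 * s * ∫ x in F ⁻¹' (Iio 0), bi g u u x ∂μ := by
  obtain ⟨s1, C1, hs1, -, hC1, h⟩ := trace_nu H
  refine ⟨s1, C1, hs1, hC1, ?_⟩
  intro s hs hss
  have cF := H.sF.cont
  have hO : IsOpen {x | F x < 0} := isOpen_lt cF continuous_const
  have hK : IsCompact (F ⁻¹' (Icc (-2 * s) (-s))) := (isClosed_Icc.preimage cF).isCompact
  have hKO : F ⁻¹' (Icc (-2 * s) (-s)) ⊆ {x | F x < 0} := fun x hx => by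
    have := hx.2
    show F x < 0
    linarith
  obtain ⟨K', CK, hK', hKK', hK'O, hCK, hP⟩ := poincR hμ hO hconn hK hKO
  obtain ⟨s', hs', hK's⟩ : ∃ s' : ℝ, 0 < s' ∧ K' ⊆ F ⁻¹' (Iic (-s')) := by
    by_cases hne : K'.Nonempty
    · obtain ⟨x0, hx0, hmax⟩ := hK'.exists_isMaxOn hne cF.continuousOn
      refine ⟨-(F x0), neg_pos.2 (hK'O hx0), fun x hx => ?_⟩
      have : F x ≤ F x0 := hmax hx
      show F x ≤ - -(F x0)
      linarith
    · rw [not_nonempty_iff_eq_empty] at hne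
      exact ⟨1, one_pos, by rw [hne]; exact empty_subset _⟩
  refine ⟨s', C1 / s * CK, hs', by positivity, ?_⟩
  intro u hu h0
  obtain ⟨b, hb⟩ := hP u hu
  have hub : Sm fun x => u x - b := hu.sub contMDiff_const
  have h1 := h s hs hss (fun x => u x - b) hub
  have cE := (bi_smooth g hu hu).cont
  simp only [bi_sub_const g hu b] at h1
  have h2 := mean_zero hu.cont h0 b
  have h3 : ∫ x in F ⁻¹' (Icc (-2 * s) (-s)), (u x - b) ^ 2 ∂μ ≤
      ∫ x in K', (u x - b) ^ 2 ∂μ :=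
    setIntegral_mono_set (int_cont (hub.cont.pow 2)).integrableOn
      (Eventually.of_forall fun x => sq_nonneg _) hKK'.eventuallyLE
  have h4 : ∫ x in K', bi g u u x ∂μ ≤ ∫ x in F ⁻¹' (Iic (-s')), bi g u u x ∂μ :=
    setIntegral_mono_set (int_cont cE).integrableOn
      (Eventually.of_forall fun x => bi_nonneg g u x) hK's.eventuallyLE
  have h5 : ∫ x in F ⁻¹' (Ico (-2 * s) 0), bi g u u x ∂μ ≤ ∫ x in F ⁻¹' (Iio 0), bi g u u x ∂μ :=
    setIntegral_mono_set (int_cont cE).integrableOn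
      (Eventually.of_forall fun x => bi_nonneg g u x)
      (HasSubset.Subset.eventuallyLE fun x hx => hx.2)
  have h6 : C1 / s * ∫ x in F ⁻¹' (Icc (-2 * s) (-s)), (u x - b) ^ 2 ∂μ ≤
      C1 / s * (CK * ∫ x in F ⁻¹' (Iic (-s')), bi g u u x ∂μ) := by
    have := h3.trans (hb.trans (mul_le_mul_of_nonneg_left h4 hCK.le))
    gcongr
  have h7 : C1 * s * ∫ x in F ⁻¹' (Ico (-2 * s) 0), bi g u u x ∂μ ≤
      C1 * s * ∫ x in F ⁻¹' (Iio 0), bi g u u x ∂μ := by gcongr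
  calc ∫ x, u x ^ 2 ∂ν ≤ _ := h2
    _ ≤ _ := h1
    _ ≤ _ := add_le_add h6 h7
    _ = _ := by ring

/-- coercivity under a bound of the energy -/
theorem coer [IsFiniteMeasure ν] (H : Dat g F D μ ν s0 m C) (hμ : IsVolume g μ)
    (hconn : IsConnected {x | F x < 0}) {A : ℝ} (hA : 0 < A) : ∃ s' c : ℝ, 0 < s' ∧ 0 < c ∧
    ∀ u : M → ℝ, Sm u → ∫ x, u x ∂ν = 0 →
      ∫ x in F ⁻¹' (Iio 0), bi g u u x ∂μ ≤ A * ∫ x, u x ^ 2 ∂ν →
      c * ∫ x, u x ^ 2 ∂ν ≤ ∫ x in F ⁻¹' (Iic (-s')), bi g u u x ∂μ := by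
  obtain ⟨s1, C1, hs1, hC1, h⟩ := coer0 H hμ hconn
  obtain ⟨s', Cs, hs', hCs, h'⟩ := h (min s1 (1 / (2 * C1 * A))) (lt_min hs1 (by positivity))
    (min_le_left _ _)
  refine ⟨s', 1 / (2 * Cs), hs', by positivity, ?_⟩
  intro u hu h0 hE
  have h1 := h' u hu h0
  have hB : 0 ≤ ∫ x, u x ^ 2 ∂ν := integral_nonneg fun x => sq_nonneg _
  have h2 : C1 * min s1 (1 / (2 * C1 * A)) * ∫ x in F ⁻¹' (Iio 0), bi g u u x ∂μ ≤
      C1 * (1 / (2 * C1 * A)) * (A * ∫ x, u x ^ 2 ∂ν) := by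
    have := min_le_right s1 (1 / (2 * C1 * A))
    have h3 : 0 ≤ ∫ x in F ⁻¹' (Iio 0), bi g u u x ∂μ := integral_nonneg (bi_nonneg g u)
    gcongr
  have e : C1 * (1 / (2 * C1 * A)) * (A * ∫ x, u x ^ 2 ∂ν) = (∫ x, u x ^ 2 ∂ν) / 2 := by
    field_simp
  rw [e] at h2
  rw [one_div, inv_mul_le_iff₀ (by positivity)]
  linarith

/-- the first eigenvalue of the domain is positive -/
theorem coer_dom [IsFiniteMeasure ν] (H : Dat g F D μ ν s0 m C) (hμ : IsVolume g μ)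
    (hconn : IsConnected {x | F x < 0}) : ∃ A : ℝ, 0 < A ∧
    ∀ u : M → ℝ, Sm u → ∫ x, u x ∂ν = 0 →
      ∫ x, u x ^ 2 ∂ν ≤ A * ∫ x in F ⁻¹' (Iio 0), bi g u u x ∂μ := by
  obtain ⟨s1, C1, hs1, hC1, h⟩ := coer0 H hμ hconn
  obtain ⟨s', Cs, hs', hCs, h'⟩ := h s1 hs1 le_rfl
  refine ⟨Cs + C1 * s1, by positivity, ?_⟩
  intro u hu h0
  have h1 := h' u hu h0
  have cE := (bi_smooth g hu hu).cont
  have h5 : ∫ x in F ⁻¹' (Iic (-s')), bi g u u x ∂μ ≤ ∫ x in F ⁻¹' (Iio 0), bi g u u x ∂μ :=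
    setIntegral_mono_set (int_cont cE).integrableOn
      (Eventually.of_forall fun x => bi_nonneg g u x)
      (HasSubset.Subset.eventuallyLE fun x (hx : F x ≤ -s') => by
        show F x < 0
        linarith)
  rw [add_mul]
  have := mul_le_mul_of_nonneg_left h5 hCs.le
  linarith

/-- control of the full norm by the energy and the boundary term -/
theorem full_norm [ConnectedSpace M] [IsFiniteMeasure ν] (H : Dat g F D μ ν s0 m C)
    (hμ : IsVolume g μ) (hL : 0 < ν.real univ) : ∃ A : ℝ, 0 < A ∧ ∀ u : M → ℝ, Sm u →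
      ∫ x, u x ^ 2 ∂μ ≤ A * ((∫ x, bi g u u x ∂μ) + ∫ x, u x ^ 2 ∂ν) := by
  obtain ⟨K', CP, -, hK', -, hCP, hP⟩ := poincR hμ isOpen_univ isConnected_univ isCompact_univ
    Subset.rfl
  rw [univ_subset_iff] at hK'
  subst hK'
  simp only [setIntegral_univ] at hP
  obtain ⟨s1, C1, hs1, -, hC1, h⟩ := trace_nu H
  set L := ν.real univ
  set Ar := μ.real univ
  have hAr : 0 ≤ Ar := measureReal_nonneg
  set C2 := C1 / s1 * CP + C1 * s1 with hC2
  have hC20 : 0 < C2 := by positivity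
  refine ⟨2 * CP + 2 * Ar / L * (2 + 2 * C2), by positivity, ?_⟩
  intro u hu
  obtain ⟨b, hb⟩ := hP u hu
  have hub : Sm fun x => u x - b := hu.sub contMDiff_const
  have cE := (bi_smooth g hu hu).cont
  have h1 := h s1 hs1 le_rfl (fun x => u x - b) hub
  simp only [bi_sub_const g hu b] at h1
  set E := ∫ x, bi g u u x ∂μ
  have hE0 : 0 ≤ E := integral_nonneg (bi_nonneg g u)
  set B := ∫ x, u x ^ 2 ∂ν
  have hB0 : 0 ≤ B := integral_nonneg fun x => sq_nonneg _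
  have h2 : ∫ x in F ⁻¹' (Icc (-2 * s1) (-s1)), (u x - b) ^ 2 ∂μ ≤ CP * E :=
    (setIntegral_le_integral (int_cont (hub.cont.pow 2))
      (Eventually.of_forall fun x => sq_nonneg _)).trans hb
  have h3 : ∫ x in F ⁻¹' (Ico (-2 * s1) 0), bi g u u x ∂μ ≤ E :=
    setIntegral_le_integral (int_cont cE) (Eventually.of_forall fun x => bi_nonneg g u x)
  have h4 : ∫ x, (u x - b) ^ 2 ∂ν ≤ C2 * E := by
    calc ∫ x, (u x - b) ^ 2 ∂ν ≤ _ := h1
      _ ≤ C1 / s1 * (CP * E) + C1 * s1 * E := by gcongr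
      _ = _ := by rw [hC2]; ring
  have c1 : Continuous fun x => (u x - b) ^ 2 := hub.cont.pow 2
  have cu2 : Continuous fun x => u x ^ 2 := hu.cont.pow 2
  have h5 : b ^ 2 * L ≤ 2 * B + 2 * (C2 * E) := by
    have e1 : b ^ 2 * L = ∫ _x, b ^ 2 ∂ν := by rw [integral_const, smul_eq_mul, mul_comm]
    have e2 : ∫ _x, b ^ 2 ∂ν ≤ ∫ x, (2 * u x ^ 2 + 2 * (u x - b) ^ 2) ∂ν := by
      apply integral_mono (integrable_const _) (((int_cont cu2).const_mul 2).add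
        ((int_cont c1).const_mul 2))
      intro x
      show b ^ 2 ≤ 2 * u x ^ 2 + 2 * (u x - b) ^ 2
      nlinarith [sq_nonneg (2 * u x - b)]
    rw [integral_add ((int_cont cu2).const_mul 2) ((int_cont c1).const_mul 2),
      integral_const_mul, integral_const_mul] at e2
    rw [e1]
    linarith
  have h6 : ∫ x, u x ^ 2 ∂μ ≤ 2 * (CP * E) + 2 * (b ^ 2 * Ar) := by
    have e2 : ∫ x, u x ^ 2 ∂μ ≤ ∫ x, (2 * (u x - b) ^ 2 + 2 * b ^ 2) ∂μ := by
      apply integral_mono (int_cont cu2) (((int_cont c1).const_mul 2).add (integrable_const _))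
      intro x
      show u x ^ 2 ≤ 2 * (u x - b) ^ 2 + 2 * b ^ 2
      nlinarith [sq_nonneg (u x - 2 * b)]
    rw [integral_add ((int_cont c1).const_mul 2) (integrable_const _), integral_const_mul,
      integral_const, smul_eq_mul] at e2
    have : μ.real univ * (2 * b ^ 2) = 2 * (b ^ 2 * Ar) := by ring
    linarith
  have h7 : b ^ 2 ≤ (2 * B + 2 * (C2 * E)) / L := by rw [le_div_iff₀ hL]; exact h5
  calc ∫ x, u x ^ 2 ∂μ ≤ 2 * (CP * E) + 2 * ((2 * B + 2 * (C2 * E)) / L * Ar) := by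
        refine h6.trans ?_
        gcongr
    _ = 2 * CP * E + 2 * Ar / L * (2 * B + 2 * C2 * E) := by ring
    _ ≤ 2 * CP * (E + B) + 2 * Ar / L * ((2 + 2 * C2) * (E + B)) := by
        gcongr
        · linarith
        · nlinarith
    _ = _ := by ring

end Pool.Agent.W545.CS
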