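import Mathlib
import Pool.Agent.W545.CS.Cut
set_option autoImplicit false
open Set Filter Topology MeasureTheory Metric
open scoped ContDiff

/-! The potential of one variable. -/

namespace Pool.Agent.W545.CS

/-- the weight -/
noncomputable def pw (s k x : ℝ) : ℝ := Real.exp (k * x) * stp s s x

theorem pw_smooth (s k : ℝ) : ContDiff ℝ ∞ (pw s k) :=
  (Real.contDiff_exp.comp (contDiff_const.mul contDiff_id)).mul (stp_smooth s s)

theorem pw_nonneg (s k x : ℝ) : 0 ≤ pw s k x := mul_nonneg (Real.exp_nonneg _) (stp_nonneg _ _ _)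

theorem pw_le_one {s k x : ℝ} (hk : 0 ≤ k) (hx : x ≤ 0) : pw s k x ≤ 1 := by
  have h1 : Real.exp (k * x) ≤ 1 := Real.exp_le_one_iff.2 (mul_nonpos_of_nonneg_of_nonpos hk hx)
  have h2 := stp_le_one s s x
  have h3 := stp_nonneg s s x
  unfold pw
  calc Real.exp (k * x) * stp s s x ≤ 1 * 1 := by gcongr
    _ = 1 := one_mul 1

theorem pw_zero {s k x : ℝ} (hs : 0 < s) (hx : x ≤ -2 * s) : pw s k x = 0 := by
  unfold pw; rw [stp_zero hs (by linarith), mul_zero]

theorem pw_deriv (s k x : ℝ) : HasDerivAt (pw s k) (k * pw s k x + Real.exp (k * x) * dst s s x) x := by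
  have h1 : HasDerivAt (fun x : ℝ => Real.exp (k * x)) (Real.exp (k * x) * k) x := by
    have := ((hasDerivAt_id x).const_mul k).exp
    simpa using this
  have h2 := h1.mul (dst_has s s x)
  have e : k * pw s k x + Real.exp (k * x) * dst s s x =
      Real.exp (k * x) * k * stp s s x + Real.exp (k * x) * dst s s x := by unfold pw; ring
  rw [e]
  exact h2

theorem pw_deriv_ge {s k x : ℝ} (hs : 0 < s) : k * pw s k x ≤ deriv (pw s k) x := by
  rw [(pw_deriv s k x).deriv]
  have := mul_nonneg (Real.exp_nonneg (k * x)) (dst_nonneg (a := s) hs x)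
  linarith

theorem pw_deriv_zero {s k x : ℝ} (hs : 0 < s) (hx : x ≤ -2 * s) : deriv (pw s k) x = 0 := by
  rw [(pw_deriv s k x).deriv, pw_zero hs hx, dst_zero_left hs (by linarith)]; simp

/-- minus the derivative of the potential -/
noncomputable def hm (s k e x : ℝ) : ℝ := (1 - stp 0 e x) * pw s k x

theorem hm_smooth (s k e : ℝ) : ContDiff ℝ ∞ (hm s k e) :=
  (contDiff_const.sub (stp_smooth 0 e)).mul (pw_smooth s k)

theorem hm_nonneg (s k e x : ℝ) : 0 ≤ hm s k e x :=
  mul_nonneg (by linarith [stp_le_one 0 e x]) (pw_nonneg _ _ _)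

theorem hm_zero {s k e x : ℝ} (he : 0 < e) (hx : 0 ≤ x) : hm s k e x = 0 := by
  unfold hm; rw [stp_one he (by linarith)]; simp

theorem hm_zero' {s k e x : ℝ} (hs : 0 < s) (hx : x ≤ -2 * s) : hm s k e x = 0 := by
  unfold hm; rw [pw_zero hs hx, mul_zero]

theorem hm_le_one {s k e : ℝ} (hk : 0 ≤ k) (he : 0 < e) (x : ℝ) : hm s k e x ≤ 1 := by
  rcases le_or_gt 0 x with hx | hx
  · rw [hm_zero he hx]; exact zero_le_one
  · have h1 := pw_le_one (s := s) hk hx.le
    have h2 := pw_nonneg s k x
    have h3 := stp_nonneg 0 e x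
    have h4 := stp_le_one 0 e x
    unfold hm
    calc (1 - stp 0 e x) * pw s k x ≤ 1 * 1 := by
          apply mul_le_mul (by linarith) h1 h2 zero_le_one
      _ = 1 := one_mul 1

/-- the potential -/
noncomputable def hp (s k e x : ℝ) : ℝ := ∫ y in x..0, hm s k e y

theorem hp_deriv (s k e x : ℝ) : HasDerivAt (hp s k e) (-hm s k e x) x := by
  have hc := (hm_smooth s k e).continuous
  exact intervalIntegral.integral_hasDerivAt_left (hc.intervalIntegrable _ _)
    (hc.stronglyMeasurableAtFilter _ _) hc.continuousAt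

theorem hp_smooth (s k e : ℝ) : ContDiff ℝ ∞ (hp s k e) := by
  rw [contDiff_infty_iff_deriv]
  refine ⟨fun x => (hp_deriv s k e x).differentiableAt, ?_⟩
  have : deriv (hp s k e) = fun x => -hm s k e x := by
    funext x; exact (hp_deriv s k e x).deriv
  rw [this]
  exact (hm_smooth s k e).neg

theorem hp_zero {s k e x : ℝ} (he : 0 < e) (hx : 0 ≤ x) : hp s k e x = 0 := by
  unfold hp
  rw [intervalIntegral.integral_symm]
  rw [neg_eq_zero]
  apply intervalIntegral.integral_zero_ae
  apply Eventually.of_forall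
  intro y hy
  rw [uIoc_of_le hx] at hy
  exact hm_zero he hy.1.le

theorem hp_nonneg {s k e : ℝ} (he : 0 < e) (x : ℝ) : 0 ≤ hp s k e x := by
  rcases le_or_gt 0 x with hx | hx
  · rw [hp_zero he hx]
  · exact intervalIntegral.integral_nonneg hx.le fun y _ => hm_nonneg _ _ _ _

theorem hp_anti {s k e x y : ℝ} (hxy : x ≤ y) : hp s k e y ≤ hp s k e x := by
  have hc := (hm_smooth s k e).continuous
  unfold hp
  rw [← intervalIntegral.integral_add_adjacent_intervals (hc.intervalIntegrable x y)
    (hc.intervalIntegrable y 0)]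
  have : 0 ≤ ∫ z in x..y, hm s k e z :=
    intervalIntegral.integral_nonneg hxy fun z _ => hm_nonneg _ _ _ _
  linarith

theorem hp_le {s k e : ℝ} (hs : 0 < s) (hk : 0 ≤ k) (he : 0 < e) (x : ℝ) :
    hp s k e x ≤ 2 * s := by
  have hc := (hm_smooth s k e).continuous
  have h1 : hp s k e (-2 * s) ≤ 2 * s := by
    unfold hp
    calc ∫ y in (-2 * s)..0, hm s k e y ≤ ∫ _y in (-2 * s)..0, (1 : ℝ) := by
          apply intervalIntegral.integral_mono_on (by linarith) (hc.intervalIntegrable _ _)
            (by simp)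
          intro y _
          exact hm_le_one hk he y
      _ = 2 * s := by simp
  rcases le_or_gt (-2 * s) x with hx | hx
  · exact (hp_anti hx).trans h1
  · have h2 : hp s k e x = hp s k e (-2 * s) := by
      unfold hp
      rw [← intervalIntegral.integral_add_adjacent_intervals (hc.intervalIntegrable x (-2 * s))
        (hc.intervalIntegrable (-2 * s) 0)]
      have : ∫ z in x..(-2 * s), hm s k e z = 0 := by
        apply intervalIntegral.integral_zero_ae
        apply Eventually.of_forall
        intro y hy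
        rw [uIoc_of_le hx.le] at hy
        exact hm_zero' hs hy.2
      rw [this, zero_add]
    rw [h2]; exact h1

theorem hp_lower {s k e σ x : ℝ} (hs : 0 < s) (hk : 0 ≤ k) (hσ : 0 < σ) (hσs : σ ≤ s)
    (he0 : 0 < e) (he : e ≤ σ / 2) (hx : x ≤ -σ) :
    σ / 2 * Real.exp (-(k * σ)) ≤ hp s k e x := by
  have hc := (hm_smooth s k e).continuous
  refine le_trans ?_ (hp_anti hx)
  unfold hp
  rw [← intervalIntegral.integral_add_adjacent_intervals (hc.intervalIntegrable (-σ) (-(σ / 2)))
    (hc.intervalIntegrable (-(σ / 2)) 0)]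
  have h1 : 0 ≤ ∫ y in (-(σ / 2))..0, hm s k e y :=
    intervalIntegral.integral_nonneg (by linarith) fun z _ => hm_nonneg _ _ _ _
  have h2 : ∫ _y in (-σ)..(-(σ / 2)), Real.exp (-(k * σ)) ≤ ∫ y in (-σ)..(-(σ / 2)), hm s k e y := by
    apply intervalIntegral.integral_mono_on (by linarith) (by simp) (hc.intervalIntegrable _ _)
    intro y hy
    unfold hm pw
    rw [stp_zero he0 (by linarith [hy.2]), stp_one hs (by linarith [hy.1])]
    simp only [sub_zero, mul_one, one_mul]
    apply Real.exp_le_exp.2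
    nlinarith [hy.1]
  rw [intervalIntegral.integral_const, smul_eq_mul] at h2
  have e1 : (-(σ / 2) - -σ) * Real.exp (-(k * σ)) = σ / 2 * Real.exp (-(k * σ)) := by ring
  rw [e1] at h2
  linarith

/-- minus the Laplacian of the potential composed with `F`, in terms of `q = |∇F|²` and `d = ΔF` -/
noncomputable def lapm (s k e x q d : ℝ) : ℝ := deriv (hm s k e) x * q + hm s k e x * d

theorem hm_deriv (s k e x : ℝ) : deriv (hm s k e) x =
    (1 - stp 0 e x) * deriv (pw s k) x - dst 0 e x * pw s k x := by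
  have h1 := ((dst_has 0 e x).const_sub 1).mul (pw_deriv s k x)
  have h2 : deriv (hm s k e) x = _ := h1.deriv
  rw [h2, (pw_deriv s k x).deriv]
  ring

theorem lapm_lower {s k e x q d m C : ℝ} (hs : 0 < s) (hk : 0 ≤ k) (he : 0 < e) (hq : 0 ≤ q)
    (hd : |d| ≤ C) (hkm : C ≤ k * m ^ 2) (hqm : |x| ≤ 2 * s → m ^ 2 ≤ q) :
    -(dst 0 e x * q) ≤ lapm s k e x q d := by
  unfold lapm
  rw [hm_deriv]
  unfold hm
  have h1 := pw_nonneg s k x
  have h2 := stp_le_one 0 e x
  have h3 := stp_nonneg 0 e x
  have h4 := dst_nonneg (a := 0) he x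
  have h5 := pw_deriv_ge (k := k) (x := x) hs
  rw [abs_le] at hd
  rcases le_or_gt 0 x with hx | hx
  · rw [stp_one he (by linarith), dst_zero_right he (by linarith)]
    simp
  · have hp1 := pw_le_one (s := s) hk hx.le
    have h6 : dst 0 e x * pw s k x * q ≤ dst 0 e x * q := by
      have : dst 0 e x * pw s k x ≤ dst 0 e x * 1 := mul_le_mul_of_nonneg_left hp1 h4
      rw [mul_one] at this
      exact mul_le_mul_of_nonneg_right this hq
    have h7 : 0 ≤ (1 - stp 0 e x) * (deriv (pw s k) x * q + pw s k x * d) := by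
      apply mul_nonneg (by linarith)
      rcases le_or_gt x (-2 * s) with hx2 | hx2
      · rw [pw_deriv_zero hs hx2, pw_zero hs hx2]; simp
      · have hqm' := hqm (by rw [abs_le]; constructor <;> linarith)
        have h8 : k * pw s k x * q ≤ deriv (pw s k) x * q := mul_le_mul_of_nonneg_right h5 hq
        have h9 : C ≤ k * q := hkm.trans (mul_le_mul_of_nonneg_left hqm' hk)
        have h10 : 0 ≤ pw s k x * (k * q + d) := mul_nonneg h1 (by linarith)
        nlinarith
    nlinarith

theorem lapm_upper {s k C : ℝ} (hs : 0 < s) (hC : 0 ≤ C) : ∃ B : ℝ, 0 < B ∧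
    ∀ e x q d : ℝ, 0 < e → 0 ≤ q → q ≤ C ^ 2 → |d| ≤ C → lapm s k e x q d ≤ B := by
  have hc : Continuous (deriv (pw s k)) := ((contDiff_infty_iff_deriv.1 (pw_smooth s k)).2).continuous
  have hc2 := (pw_smooth s k).continuous
  obtain ⟨B1, hB1⟩ := (isCompact_Icc (a := -2 * s) (b := 0)).exists_bound_of_continuousOn
    hc.continuousOn
  obtain ⟨B2, hB2⟩ := (isCompact_Icc (a := -2 * s) (b := 0)).exists_bound_of_continuousOn
    hc2.continuousOn
  refine ⟨|B1| * C ^ 2 + |B2| * C + 1, by positivity, ?_⟩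
  intro e x q d he hq hqC hd
  unfold lapm
  rw [hm_deriv]
  unfold hm
  have h1 := pw_nonneg s k x
  have h2 := stp_le_one 0 e x
  have h3 := stp_nonneg 0 e x
  have h4 := dst_nonneg (a := 0) he x
  by_cases hx : x ∈ Icc (-2 * s) 0
  · have a1 : deriv (pw s k) x ≤ |B1| := (le_abs_self _).trans ((hB1 x hx).trans (le_abs_self _))
    have a2 : pw s k x ≤ |B2| := (le_abs_self _).trans ((hB2 x hx).trans (le_abs_self _))
    have b1 : (1 - stp 0 e x) * deriv (pw s k) x * q ≤ |B1| * C ^ 2 := by
      have c1 : (1 - stp 0 e x) * deriv (pw s k) x ≤ |B1| := by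
        calc (1 - stp 0 e x) * deriv (pw s k) x ≤ (1 - stp 0 e x) * |B1| :=
              mul_le_mul_of_nonneg_left a1 (by linarith)
          _ ≤ 1 * |B1| := mul_le_mul_of_nonneg_right (by linarith) (abs_nonneg _)
          _ = _ := one_mul _
      calc (1 - stp 0 e x) * deriv (pw s k) x * q ≤ |B1| * q := mul_le_mul_of_nonneg_right c1 hq
        _ ≤ |B1| * C ^ 2 := mul_le_mul_of_nonneg_left hqC (abs_nonneg _)
    have b2 : 0 ≤ dst 0 e x * pw s k x * q := by positivity
    have b3 : (1 - stp 0 e x) * pw s k x * d ≤ |B2| * C := by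
      have c1 : (1 - stp 0 e x) * pw s k x ≤ |B2| := by
        calc (1 - stp 0 e x) * pw s k x ≤ 1 * |B2| :=
              mul_le_mul (by linarith) a2 h1 zero_le_one
          _ = _ := one_mul _
      have c0 : 0 ≤ (1 - stp 0 e x) * pw s k x := mul_nonneg (by linarith) h1
      calc (1 - stp 0 e x) * pw s k x * d ≤ (1 - stp 0 e x) * pw s k x * C :=
            mul_le_mul_of_nonneg_left ((le_abs_self d).trans hd) c0
        _ ≤ |B2| * C := mul_le_mul_of_nonneg_right c1 hC
    nlinarith
  · rw [mem_Icc, not_and_or, not_le, not_le] at hx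
    have hpos : 0 ≤ |B1| * C ^ 2 + |B2| * C + 1 := by positivity
    rcases hx with hx | hx
    · rw [pw_deriv_zero hs hx.le, pw_zero hs hx.le]
      simpa using hpos
    · rw [stp_one he (by linarith), dst_zero_right he (by linarith)]
      simpa using hpos

end Pool.Agent.W545.CS
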