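import Mathlib
import Pool.Agent.W545.CS.Coer
import Pool.Agent.W545.CS.Pot
set_option autoImplicit false
open Set Filter Topology MeasureTheory Metric
open scoped ENNReal Manifold ContDiff

/-! The main estimate. -/

namespace Pool.Agent.W545.CS
open Pool.Agent.W545.Man

variable {M : Type*} [TopologicalSpace M] [ChartedSpace (EuclideanHalfSpace (1 + 1)) M]
  [IsManifold (𝓡∂ (1 + 1)) ∞ M] [MeasurableSpace M] [BorelSpace M] [CompactSpace M] [T2Space M]

variable {g : RMetric 1 M} {F D : M → ℝ} {μ ν : Measure M} {s0 m C : ℝ} [IsFiniteMeasure μ]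

/-- pointwise bound of the energy of the modified function -/
theorem bi_mod (g : RMetric 1 M) {φ v : M → ℝ} (hφ : Sm φ) (hv : Sm v) {κ R : ℝ} (x : M)
    (h1 : φ x ^ 2 ≤ R) (h2 : bi g φ φ x ≤ R) :
    bi g (fun x => (1 - κ * φ x) * v x) (fun x => (1 - κ * φ x) * v x) x ≤
      bi g v v x - 2 * κ * (φ x * bi g v v x) - 2 * κ * (v x * bi g φ v x) +
        κ ^ 2 * (2 * R) * (bi g v v x + v x ^ 2) := by
  have hc : Sm fun _ : M => -κ := contMDiff_const
  have h1' : Sm fun _ : M => (1 : ℝ) := contMDiff_const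
  have hψ : Sm fun x => 1 - κ * φ x := contMDiff_const.sub (contMDiff_const.mul hφ)
  have eψ : ∀ w : M → ℝ, bi g (fun x => 1 - κ * φ x) w x = -κ * bi g φ w x := by
    intro w
    have e : (fun x => 1 - κ * φ x) = fun x => (fun _ : M => (1 : ℝ)) x + (fun x => (fun _ : M => -κ) x * φ x) x := by
      funext y; ring
    rw [e, bi_add g (u := fun _ : M => (1 : ℝ)) (v := fun x => (fun _ : M => -κ) x * φ x) h1'
      (hc.mul hφ), bi_const, zero_add, bi_mul g hc hφ, bi_const]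
    ring
  have e1 : bi g (fun x => (1 - κ * φ x) * v x) (fun x => (1 - κ * φ x) * v x) x =
      (1 - κ * φ x) ^ 2 * bi g v v x - 2 * κ * (1 - κ * φ x) * (v x * bi g φ v x) +
        κ ^ 2 * (v x ^ 2 * bi g φ φ x) := by
    rw [bi_mul g hψ hv, eψ, bi_symm g v, bi_mul g hψ hv, eψ, bi_symm g φ (fun x => (1 - κ * φ x) * v x),
      bi_mul g hψ hv, eψ, bi_symm g v φ]
    ring
  rw [e1]
  have hcs := bi_cs g φ v x
  have q1 := bi_nonneg g φ x
  have q2 := bi_nonneg g v x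
  -- 2 φ v bi(φ,v) ≤ φ² Q(v) + v² Q(φ)
  have h3 : 2 * (φ x * (v x * bi g φ v x)) ≤ φ x ^ 2 * bi g v v x + v x ^ 2 * bi g φ φ x := by
    have a1 : (2 * (φ x * (v x * bi g φ v x))) ^ 2 ≤
        (φ x ^ 2 * bi g v v x + v x ^ 2 * bi g φ φ x) ^ 2 := by
      have b1 : (2 * (φ x * (v x * bi g φ v x))) ^ 2 ≤
          4 * (φ x ^ 2 * v x ^ 2) * (bi g φ φ x * bi g v v x) := by
        have := mul_le_mul_of_nonneg_left hcs (show 0 ≤ 4 * (φ x ^ 2 * v x ^ 2) by positivity)
        calc _ = 4 * (φ x ^ 2 * v x ^ 2) * bi g φ v x ^ 2 := by ring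
          _ ≤ _ := this
      nlinarith [sq_nonneg (φ x ^ 2 * bi g v v x - v x ^ 2 * bi g φ φ x)]
    exact abs_le_of_sq_le_sq' a1 (by positivity) |>.2
  have h4 : φ x ^ 2 * bi g v v x + v x ^ 2 * bi g φ φ x ≤ R * (bi g v v x + v x ^ 2) := by
    have a1 := mul_le_mul_of_nonneg_right h1 q2
    have a2 := mul_le_mul_of_nonneg_left h2 (sq_nonneg (v x))
    nlinarith
  have hk : 0 ≤ κ ^ 2 := sq_nonneg κ
  have h5 := mul_le_mul_of_nonneg_left h3 hk
  have h6 := mul_le_mul_of_nonneg_left h4 hk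
  nlinarith

theorem arith0 {a t A B E V T Gv τ C5 r CN CD AF : ℝ} (ha : 0 < a) (haA : a ≤ A) (ht0 : 0 < t)
    (hτ0 : 0 < τ) (hC5 : 0 < C5) (hr0 : 0 < r) (hCD : 0 < CD) (hAF : 0 < AF) (hE0 : 0 ≤ E)
    (hV0 : 0 ≤ V) (hB0 : 0 ≤ B) (hTB : T ≤ B + C5 * r * (E + V))
    (hE : E ≤ a * (T + t * Gv + τ * V)) (hGle : Gv ≤ CD * V) (hVle : V ≤ AF * (E + B))
    (hCN : CN = 2 * ((1 + AF) * A + AF)) (ht2 : (1 + AF) * A * (t * CD) ≤ 1 / 4)
    (hr5 : (1 + AF) * A * (C5 * r) ≤ 1 / 8) (hτ2 : (1 + AF) * A * τ ≤ 1 / 8) :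
    E + V ≤ CN * B := by
  set N := E + V with hNdef
  have hN0 : 0 ≤ N := by positivity
  have hVN : V ≤ N := by linarith
  have h1 : E ≤ A * (B + C5 * r * N + (t * CD + τ) * N) := by
    have a1 : T + t * Gv + τ * V ≤ B + C5 * r * N + (t * CD + τ) * N := by
      have b1 : t * Gv ≤ t * (CD * N) :=
        mul_le_mul_of_nonneg_left (hGle.trans (mul_le_mul_of_nonneg_left hVN hCD.le)) ht0.le
      have b2 : τ * V ≤ τ * N := mul_le_mul_of_nonneg_left hVN hτ0.le
      linarith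
    have a2 : 0 ≤ B + C5 * r * N + (t * CD + τ) * N := by positivity
    calc E ≤ a * (T + t * Gv + τ * V) := hE
      _ ≤ a * (B + C5 * r * N + (t * CD + τ) * N) := mul_le_mul_of_nonneg_left a1 ha.le
      _ ≤ _ := mul_le_mul_of_nonneg_right haA a2
  have h2 : N ≤ (1 + AF) * E + AF * B := by linarith
  have h3 : (1 + AF) * E ≤ (1 + AF) * (A * (B + C5 * r * N + (t * CD + τ) * N)) :=
    mul_le_mul_of_nonneg_left h1 (by positivity)
  have h4 : (1 + AF) * (A * (B + C5 * r * N + (t * CD + τ) * N)) = (1 + AF) * A * B +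
      ((1 + AF) * A * (C5 * r) + (1 + AF) * A * (t * CD) + (1 + AF) * A * τ) * N := by ring
  have h5 : ((1 + AF) * A * (C5 * r) + (1 + AF) * A * (t * CD) + (1 + AF) * A * τ) * N ≤
      1 / 2 * N := mul_le_mul_of_nonneg_right (by linarith) hN0
  rw [hCN]
  linarith

theorem arith1 {a t c A B E V S1 S2 T Gv τ C5 r R CN : ℝ} (ha : 0 < a) (haA : a ≤ A)
    (ht0 : 0 < t) (hτ0 : 0 < τ) (hC5 : 0 < C5) (hr0 : 0 < r) (hR0 : 0 < R) (hCN0 : 0 < CN)
    (hE0 : 0 ≤ E) (hV0 : 0 ≤ V) (hB0 : 0 ≤ B) (hN : E + V ≤ CN * B)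
    (hTB : T ≤ B + C5 * r * (E + V)) (hE : E ≤ a * (T + t * Gv + τ * V)) (hGv : Gv = 2 * S2)
    (hgain : c * B ≤ S1) (ht3 : A * t * (2 * R) * CN ≤ c / 2) (hr4 : CN * (C5 * r) ≤ t * c / 4)
    (hτ1 : CN * τ ≤ t * c / 4) :
    E - 2 * (a * t) * S1 - 2 * (a * t) * S2 + (a * t) ^ 2 * (2 * R) * (E + V) ≤
      a * (1 - t * c) * B := by
  have hN0 : 0 ≤ E + V := by positivity
  have h1 : E - 2 * (a * t) * S2 ≤ a * (B + C5 * r * (E + V) + τ * (E + V)) := by
    have a1 : a * (t * Gv) = 2 * (a * t) * S2 := by rw [hGv]; ring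
    have a2 : a * (T + t * Gv + τ * V) = a * T + 2 * (a * t) * S2 + a * (τ * V) := by
      rw [← a1]; ring
    rw [a2] at hE
    have a3 : a * T ≤ a * (B + C5 * r * (E + V)) := mul_le_mul_of_nonneg_left hTB ha.le
    have a4 : a * (τ * V) ≤ a * (τ * (E + V)) := by
      apply mul_le_mul_of_nonneg_left _ ha.le
      apply mul_le_mul_of_nonneg_left _ hτ0.le
      linarith
    linarith
  have hA : 0 < A := ha.trans_le haA
  have h2 : (a * t) ^ 2 * (2 * R) * (E + V) ≤ a * t * (c / 2) * B := by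
    calc (a * t) ^ 2 * (2 * R) * (E + V) ≤ (a * t) ^ 2 * (2 * R) * (CN * B) := by gcongr
      _ = a * t * (a * t * (2 * R) * CN) * B := by ring
      _ ≤ a * t * (A * t * (2 * R) * CN) * B := by gcongr
      _ ≤ a * t * (c / 2) * B := by gcongr
  have h3 : a * (C5 * r * (E + V) + τ * (E + V)) ≤ a * (t * c / 2) * B := by
    calc a * (C5 * r * (E + V) + τ * (E + V)) = a * ((C5 * r + τ) * (E + V)) := by ring
      _ ≤ a * ((C5 * r + τ) * (CN * B)) := by gcongr
      _ = a * (CN * (C5 * r) + CN * τ) * B := by ring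
      _ ≤ a * (t * c / 4 + t * c / 4) * B := by gcongr
      _ = _ := by ring
  have h4 : 2 * (a * t) * (c * B) ≤ 2 * (a * t) * S1 := by gcongr
  have e1 : a * (B + C5 * r * (E + V) + τ * (E + V)) = a * B +
      a * (C5 * r * (E + V) + τ * (E + V)) := by ring
  rw [e1] at h1
  have e2 : a * (1 - t * c) * B = a * B - 2 * (a * t) * (c * B) + a * t * (c / 2) * B +
      a * (t * c / 2) * B := by ring
  rw [e2]
  linarith

theorem main_est [ConnectedSpace M] [IsFiniteMeasure ν] (H : Dat g F D μ ν s0 m C)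
    (hμ : IsVolume g μ) (hconn : IsConnected {x | F x < 0}) (hL : 0 < ν.real univ) {A : ℝ}
    (hA : 0 < A) :
    ∃ t c CN : ℝ, 0 < t ∧ 0 < c ∧ 0 < CN ∧ ∀ η : ℝ, 0 < η → ∃ (ρ φ : M → ℝ) (τ : ℝ),
      Continuous ρ ∧ (∀ x, 0 ≤ ρ x) ∧ Sm φ ∧ (∀ x, 0 ≤ F x → φ x = 0) ∧ 0 < τ ∧
      ν.real univ - η ≤ ∫ x, ρ x ∂μ ∧ ∀ a, 0 < a → a ≤ A → ∀ v : M → ℝ, Sm v →
        ∫ x, bi g v v x ∂μ ≤ a * ∫ x, v x ^ 2 * (ρ x + τ) ∂μ →
        ((∫ x, bi g v v x ∂μ) + ∫ x, v x ^ 2 ∂μ ≤ CN * ∫ x, v x ^ 2 ∂ν) ∧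
        (∫ x, v x ∂ν = 0 → ∫ x, bi g (fun x => (1 - a * t * φ x) * v x)
          (fun x => (1 - a * t * φ x) * v x) x ∂μ ≤ a * (1 - t * c) * ∫ x, v x ^ 2 ∂ν) := by
  have hm0 := H.m0
  have hs0 := H.s00
  have hC : 0 < C := lt_of_lt_of_le one_pos H.C1
  have cF := H.sF.cont
  have cD := H.sD.cont
  have cQ := (bi_smooth g H.sF H.sF).cont
  obtain ⟨β, hβ, hβ0, hβ2⟩ := exists_beta H
  obtain ⟨Bβ, hBβ, hBβ'⟩ := exists_bound hβ.cont
  obtain ⟨C5, hC5, hnear⟩ := near H hβ hβ0 hβ2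
  obtain ⟨AF, hAF, hfull⟩ := full_norm H hμ hL
  set k := C / m ^ 2 with hk
  have hk0 : 0 ≤ k := by positivity
  have hkm : C ≤ k * m ^ 2 := by rw [hk, div_mul_cancel₀ _ (by positivity)]
  obtain ⟨CD, hCD, hlap⟩ := lapm_upper (s := s0) (k := k) hs0 hC.le
  set CN := 2 * ((1 + AF) * A + AF) with hCN
  have hCN0 : 0 < CN := by positivity
  obtain ⟨s', c0, hs', hc0, hcoer⟩ := coer H hμ hconn hCN0
  set σ := min s' s0 with hσ
  have hσ0 : 0 < σ := lt_min hs' hs0
  have hσs : σ ≤ s0 := min_le_right _ _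
  set cφ := σ / 2 * Real.exp (-(k * σ)) with hcφ
  have hcφ0 : 0 < cφ := by positivity
  set c := cφ * c0 with hc
  have hcpos : 0 < c := by positivity
  set R := 4 * s0 ^ 2 + C ^ 2 with hR
  have hR0 : 0 < R := by positivity
  set Ar := μ.real univ with hAr
  have hAr0 : 0 ≤ Ar := measureReal_nonneg
  set L := ν.real univ with hLdef
  -- the parameter `t`
  obtain ⟨t, ht0, ht1, ht2, ht3⟩ : ∃ t : ℝ, 0 < t ∧ t * Bβ ≤ 1 ∧ (1 + AF) * A * (t * CD) ≤ 1 / 4 ∧
      A * t * (2 * R) * CN ≤ c / 2 := by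
    refine ⟨min (1 / Bβ) (min (1 / (4 * ((1 + AF) * A * CD))) (c / (2 * (A * (2 * R) * CN)))),
      by positivity, ?_, ?_, ?_⟩
    · have := min_le_left (1 / Bβ) (min (1 / (4 * ((1 + AF) * A * CD))) (c / (2 * (A * (2 * R) * CN))))
      calc _ ≤ 1 / Bβ * Bβ := by gcongr
        _ = 1 := by field_simp
    · have := (min_le_right (1 / Bβ) (min (1 / (4 * ((1 + AF) * A * CD)))
        (c / (2 * (A * (2 * R) * CN))))).trans (min_le_left _ _)
      calc _ ≤ (1 + AF) * A * (1 / (4 * ((1 + AF) * A * CD)) * CD) := by gcongr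
        _ = 1 / 4 := by field_simp
    · have := (min_le_right (1 / Bβ) (min (1 / (4 * ((1 + AF) * A * CD)))
        (c / (2 * (A * (2 * R) * CN))))).trans (min_le_right _ _)
      calc _ ≤ A * (c / (2 * (A * (2 * R) * CN))) * (2 * R) * CN := by gcongr
        _ = c / 2 := by field_simp
  refine ⟨t, c, CN, ht0, hcpos, hCN0, ?_⟩
  intro η hη
  -- the parameters `r` and `τ`
  obtain ⟨r, hr0, hr1, hr2, hr3, hr4, hr5, hr6⟩ : ∃ r : ℝ, 0 < r ∧ r ≤ 1 ∧ r ^ 2 ≤ s0 ∧
      r ^ 2 ≤ σ / 2 ∧ CN * (C5 * r) ≤ t * c / 4 ∧ (1 + AF) * A * (C5 * r) ≤ 1 / 8 ∧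
      C5 * r * Ar ≤ η := by
    have hev : ∀ᶠ r : ℝ in 𝓝[>] 0, r ≤ 1 ∧ r ^ 2 ≤ s0 ∧ r ^ 2 ≤ σ / 2 ∧
        CN * (C5 * r) ≤ t * c / 4 ∧ (1 + AF) * A * (C5 * r) ≤ 1 / 8 ∧ C5 * r * Ar ≤ η := by
      have key : ∀ (f : ℝ → ℝ) (z : ℝ), Continuous f → f 0 < z → ∀ᶠ r : ℝ in 𝓝[>] 0, f r ≤ z := by
        intro f z hf h0
        have : ∀ᶠ r in 𝓝 (0 : ℝ), f r < z := hf.continuousAt.eventually (gt_mem_nhds h0)
        exact (this.filter_mono nhdsWithin_le_nhds).mono fun r hr => hr.le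
      have k1 := key (fun r => r) 1 continuous_id (by norm_num)
      have k2 := key (fun r => r ^ 2) s0 (by fun_prop) (by simpa using hs0)
      have k3 := key (fun r => r ^ 2) (σ / 2) (by fun_prop) (by simpa using half_pos hσ0)
      have k4 := key (fun r => CN * (C5 * r)) (t * c / 4) (by fun_prop) (by
        simp only [mul_zero]; positivity)
      have k5 := key (fun r => (1 + AF) * A * (C5 * r)) (1 / 8) (by fun_prop) (by
        simp only [mul_zero]; positivity)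
      have k6 := key (fun r => C5 * r * Ar) η (by fun_prop) (by
        simp only [mul_zero, zero_mul]; exact hη)
      filter_upwards [k1, k2, k3, k4, k5, k6] with r a1 a2 a3 a4 a5 a6
      exact ⟨a1, a2, a3, a4, a5, a6⟩
    obtain ⟨r, hr, h⟩ := (hev.and self_mem_nhdsWithin).exists
    exact ⟨r, h, hr⟩
  obtain ⟨τ, hτ0, hτ1, hτ2⟩ : ∃ τ : ℝ, 0 < τ ∧ CN * τ ≤ t * c / 4 ∧ (1 + AF) * A * τ ≤ 1 / 8 := by
    refine ⟨min (t * c / 4 / CN) (1 / 8 / ((1 + AF) * A)), by positivity, ?_, ?_⟩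
    · have := min_le_left (t * c / 4 / CN) (1 / 8 / ((1 + AF) * A))
      calc _ ≤ CN * (t * c / 4 / CN) := by gcongr
        _ = _ := by field_simp
    · have := min_le_right (t * c / 4 / CN) (1 / 8 / ((1 + AF) * A))
      calc _ ≤ (1 + AF) * A * (1 / 8 / ((1 + AF) * A)) := by gcongr
        _ = _ := by field_simp
  set e := r ^ 2 with he
  have he0 : 0 < e := by positivity
  set lp : M → ℝ := fun x => lapm s0 k e (F x) (bi g F F x) (D x) with hlp
  have clp : Continuous lp := by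
    have c1 : Continuous fun x => deriv (hm s0 k e) (F x) :=
      ((contDiff_infty_iff_deriv.1 (hm_smooth s0 k e)).2).continuous.comp cF
    have c2 : Continuous fun x => hm s0 k e (F x) := (hm_smooth s0 k e).continuous.comp cF
    exact (c1.mul cQ).add (c2.mul cD)
  set φ : M → ℝ := fun x => hp s0 k e (F x) with hφdef
  have hφ : Sm φ := H.sF.comp fun x => (hp_smooth s0 k e).contDiffAt
  set kb : M → ℝ := fun x => dst 0 e (F x) * β x with hkb
  have ckb : Continuous kb := ((dst_smooth 0 e).continuous.comp cF).mul hβ.cont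
  have hbφ : ∀ w x, bi g φ w x = -(hm s0 k e (F x)) * bi g F w x := by
    intro w x
    rw [hφdef, bi_comp g H.sF x ((hp_smooth s0 k e).differentiable (by simp) _),
      (hp_deriv s0 k e (F x)).deriv]
  -- the Laplacian of the potential
  have hgreen : ∀ w : M → ℝ, Sm w → ∫ x, w x * lp x ∂μ = ∫ x, bi g φ w x ∂μ := by
    intro w hw
    have h1 := calc1 H hw (hm_smooth s0 k e)
    have c1 : Continuous fun x => deriv (hm s0 k e) (F x) :=
      ((contDiff_infty_iff_deriv.1 (hm_smooth s0 k e)).2).continuous.comp cF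
    have c2 : Continuous fun x => hm s0 k e (F x) := (hm_smooth s0 k e).continuous.comp cF
    have cb := (bi_smooth g hw H.sF).cont
    have i1 : Integrable (fun x => w x * (deriv (hm s0 k e) (F x) * bi g F F x)) μ :=
      int_cont (hw.cont.mul (c1.mul cQ))
    have i2 : Integrable (fun x => hm s0 k e (F x) * (w x * D x)) μ :=
      int_cont (c2.mul (hw.cont.mul cD))
    have i3 : Integrable (fun x => hm s0 k e (F x) * bi g w F x) μ := int_cont (c2.mul cb)
    have e1 : ∫ x, w x * lp x ∂μ = ∫ x, w x * (deriv (hm s0 k e) (F x) * bi g F F x) ∂μ +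
        ∫ x, hm s0 k e (F x) * (w x * D x) ∂μ := by
      rw [← integral_add i1 i2]
      congr 1; funext x
      simp only [hlp]
      unfold lapm; ring
    have e2 : ∫ x, hm s0 k e (F x) * (bi g w F x + w x * D x) ∂μ =
        ∫ x, hm s0 k e (F x) * bi g w F x ∂μ + ∫ x, hm s0 k e (F x) * (w x * D x) ∂μ := by
      rw [← integral_add i3 i2]
      congr 1; funext x; ring
    have e3 : ∫ x, bi g φ w x ∂μ = -∫ x, hm s0 k e (F x) * bi g w F x ∂μ := by
      rw [← integral_neg]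
      congr 1; funext x
      rw [hbφ, bi_symm g F w]; ring
    rw [e1, h1, e2, e3]; ring
  -- bounds
  have hQ0 : ∀ x, 0 ≤ bi g F F x := bi_nonneg g F
  have hlow : ∀ x, -(dst 0 e (F x) * bi g F F x) ≤ lp x := fun x =>
    lapm_lower hs0 hk0 he0 (hQ0 x) (H.Dle x) hkm (H.low x)
  have hup : ∀ x, lp x ≤ CD := fun x => hlap e _ _ _ he0 (hQ0 x) (H.up x) (H.Dle x)
  have hkb0 : ∀ x, 0 ≤ kb x := fun x => mul_nonneg (dst_nonneg he0 _) (hβ0 x).le
  have hφ1 : ∀ x, φ x ^ 2 ≤ R := by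
    intro x
    have a1 : 0 ≤ φ x := hp_nonneg he0 _
    have a2 : φ x ≤ 2 * s0 := hp_le hs0 hk0 he0 _
    rw [hR]
    nlinarith [sq_nonneg C]
  have hφ2 : ∀ x, bi g φ φ x ≤ R := by
    intro x
    rw [hbφ, bi_symm, hbφ]
    have a1 := hm_nonneg s0 k e (F x)
    have a2 := hm_le_one (s := s0) hk0 he0 (F x)
    have a3 := H.up x
    have a4 : hm s0 k e (F x) * hm s0 k e (F x) ≤ 1 := by nlinarith
    have a5 : hm s0 k e (F x) * hm s0 k e (F x) * bi g F F x ≤ 1 * C ^ 2 :=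
      mul_le_mul a4 a3 (hQ0 x) zero_le_one
    rw [hR]
    nlinarith [sq_nonneg s0]
  have hφ3 : ∀ x, F x ≤ -s' → cφ ≤ φ x := fun x hx =>
    hp_lower hs0 hk0 hσ0 hσs he0 hr3 (hx.trans (neg_le_neg (min_le_left _ _)))
  have hφ0 : ∀ x, 0 ≤ φ x := fun x => hp_nonneg he0 _
  refine ⟨fun x => kb x + t * lp x, φ, τ, ckb.add (continuous_const.mul clp), ?_, hφ,
    fun x hx => hp_zero he0 hx, hτ0, ?_, ?_⟩
  · intro x
    have h1 := hlow x
    by_cases hx : dst 0 e (F x) = 0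
    · rw [hx, zero_mul, neg_zero] at h1
      exact add_nonneg (hkb0 x) (mul_nonneg ht0.le h1)
    · rw [← hβ2 x ((kernel_ok he0 le_rfl _ hx).trans hr2)] at h1
      have h2 := mul_le_mul_of_nonneg_left h1 ht0.le
      have h3 : t * β x ≤ 1 := (mul_le_mul_of_nonneg_left ((le_abs_self _).trans (hBβ' x))
        ht0.le).trans ht1
      have h4 := dst_nonneg (a := 0) he0 (F x)
      have h5 := mul_nonneg (hkb0 x) (show 0 ≤ 1 - t * β x by linarith)
      show 0 ≤ kb x + t * lp x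
      have h6 : kb x * (1 - t * β x) = kb x + t * -(dst 0 e (F x) * β x ^ 2) := by
        simp only [hkb]; ring
      linarith
  · have h1 := hnear (fun _ => (1 : ℝ)) contMDiff_const r hr0 hr1 hr2
    have h2 := hgreen (fun _ => (1 : ℝ)) contMDiff_const
    have e1 : ∀ x, bi g φ (fun _ => (1 : ℝ)) x = 0 := fun x => by rw [bi_symm, bi_const]
    simp only [one_mul, e1, integral_zero] at h2
    simp only [bi_const, one_pow, one_mul, integral_zero, zero_add, integral_const, smul_eq_mul,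
      mul_one] at h1
    rw [abs_le] at h1
    have e2 : ∫ x, (kb x + t * lp x) ∂μ = ∫ x, kb x ∂μ + t * ∫ x, lp x ∂μ := by
      rw [integral_add (int_cont ckb) ((int_cont clp).const_mul t), integral_const_mul]
    rw [e2, h2, mul_zero, add_zero]
    have h3 := h1.1
    show L - η ≤ ∫ x, dst 0 e (F x) * β x ∂μ
    linarith
  · intro a ha haA v hv hE
    have cv := hv.cont
    have cv2 : Continuous fun x => v x ^ 2 := cv.pow 2
    have cE := (bi_smooth g hv hv).cont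
    have cφv := (bi_smooth g hφ hv).cont
    set E := ∫ x, bi g v v x ∂μ with hEdef
    have hE0 : 0 ≤ E := integral_nonneg (bi_nonneg g v)
    set V := ∫ x, v x ^ 2 ∂μ with hV
    have hV0 : 0 ≤ V := integral_nonneg fun x => sq_nonneg _
    set B := ∫ x, v x ^ 2 ∂ν with hB
    have hB0 : 0 ≤ B := integral_nonneg fun x => sq_nonneg _
    set T := ∫ x, v x ^ 2 * kb x ∂μ with hT
    set Gv := ∫ x, v x ^ 2 * lp x ∂μ with hG
    have hTB : T ≤ B + C5 * r * (E + V) := by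
      have := hnear v hv r hr0 hr1 hr2
      rw [abs_le] at this
      linarith [this.2]
    have hsplit : ∫ x, v x ^ 2 * (kb x + t * lp x + τ) ∂μ = T + t * Gv + τ * V := by
      have i1 : Integrable (fun x => v x ^ 2 * kb x) μ := int_cont (cv2.mul ckb)
      have i2 : Integrable (fun x => t * (v x ^ 2 * lp x)) μ := (int_cont (cv2.mul clp)).const_mul t
      have i3 : Integrable (fun x => τ * v x ^ 2) μ := (int_cont cv2).const_mul τ
      have j1 : ∫ x, (v x ^ 2 * kb x + t * (v x ^ 2 * lp x) + τ * v x ^ 2) ∂μ =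
          ∫ x, (v x ^ 2 * kb x + t * (v x ^ 2 * lp x)) ∂μ + ∫ x, τ * v x ^ 2 ∂μ :=
        integral_add (i1.add i2) i3
      have j2 : ∫ x, (v x ^ 2 * kb x + t * (v x ^ 2 * lp x)) ∂μ =
          T + ∫ x, t * (v x ^ 2 * lp x) ∂μ := integral_add i1 i2
      have j3 : ∫ x, v x ^ 2 * (kb x + t * lp x + τ) ∂μ =
          ∫ x, (v x ^ 2 * kb x + t * (v x ^ 2 * lp x) + τ * v x ^ 2) ∂μ := by
        congr 1; funext x; ring
      rw [j3, j1, j2, integral_const_mul, integral_const_mul]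
    rw [hsplit] at hE
    have hGle : Gv ≤ CD * V := by
      rw [hG, hV, ← integral_const_mul]
      apply integral_mono (int_cont (cv2.mul clp)) ((int_cont cv2).const_mul CD)
      intro x
      show v x ^ 2 * lp x ≤ CD * v x ^ 2
      have := mul_le_mul_of_nonneg_left (hup x) (sq_nonneg (v x))
      linarith
    have hVle : V ≤ AF * (E + B) := hfull v hv
    -- the full norm
    have hN : E + V ≤ CN * B := arith0 ha haA ht0 hτ0 hC5 hr0 hCD hAF hE0 hV0 hB0 hTB hE hGle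
      hVle hCN ht2 hr5 hτ2
    refine ⟨hN, ?_⟩
    intro h0
    -- the modified function
    have hGv : Gv = 2 * ∫ x, v x * bi g φ v x ∂μ := by
      have h1 := hgreen (fun x => v x * v x) (hv.mul hv)
      have e1 : ∀ x, bi g φ (fun x => v x * v x) x = 2 * (v x * bi g φ v x) := by
        intro x
        rw [bi_symm, bi_mul g hv hv, bi_symm g v φ]; ring
      simp only [e1] at h1
      rw [integral_const_mul] at h1
      rw [hG, ← h1]
      congr 1; funext x; ring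
    have hmod : ∫ x, bi g (fun x => (1 - a * t * φ x) * v x)
        (fun x => (1 - a * t * φ x) * v x) x ∂μ ≤ E - 2 * (a * t) * ∫ x, φ x * bi g v v x ∂μ -
          2 * (a * t) * ∫ x, v x * bi g φ v x ∂μ + (a * t) ^ 2 * (2 * R) * (E + V) := by
      have hs : Sm fun x => (1 - a * t * φ x) * v x :=
        (contMDiff_const.sub (contMDiff_const.mul hφ)).mul hv
      have i1 := int_cont (μ := μ) cE
      have i2 : Integrable (fun x => 2 * (a * t) * (φ x * bi g v v x)) μ :=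
        (int_cont (hφ.cont.mul cE)).const_mul _
      have i3 : Integrable (fun x => 2 * (a * t) * (v x * bi g φ v x)) μ :=
        (int_cont (cv.mul cφv)).const_mul _
      have i4 : Integrable (fun x => (a * t) ^ 2 * (2 * R) * (bi g v v x + v x ^ 2)) μ :=
        (int_cont (cE.add cv2)).const_mul _
      have e1 : E - 2 * (a * t) * ∫ x, φ x * bi g v v x ∂μ -
          2 * (a * t) * ∫ x, v x * bi g φ v x ∂μ + (a * t) ^ 2 * (2 * R) * (E + V) =
          ∫ x, (bi g v v x - 2 * (a * t) * (φ x * bi g v v x) -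
            2 * (a * t) * (v x * bi g φ v x) + (a * t) ^ 2 * (2 * R) * (bi g v v x + v x ^ 2)) ∂μ := by
        have j1 : ∫ x, (bi g v v x - 2 * (a * t) * (φ x * bi g v v x) -
            2 * (a * t) * (v x * bi g φ v x) + (a * t) ^ 2 * (2 * R) * (bi g v v x + v x ^ 2)) ∂μ =
            ∫ x, (bi g v v x - 2 * (a * t) * (φ x * bi g v v x) -
            2 * (a * t) * (v x * bi g φ v x)) ∂μ +
            ∫ x, (a * t) ^ 2 * (2 * R) * (bi g v v x + v x ^ 2) ∂μ :=
          integral_add ((i1.sub i2).sub i3) i4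
        have j2 : ∫ x, (bi g v v x - 2 * (a * t) * (φ x * bi g v v x) -
            2 * (a * t) * (v x * bi g φ v x)) ∂μ = ∫ x, (bi g v v x - 2 * (a * t) *
            (φ x * bi g v v x)) ∂μ - ∫ x, 2 * (a * t) * (v x * bi g φ v x) ∂μ :=
          integral_sub (i1.sub i2) i3
        have j3 : ∫ x, (bi g v v x - 2 * (a * t) * (φ x * bi g v v x)) ∂μ =
            E - ∫ x, 2 * (a * t) * (φ x * bi g v v x) ∂μ := integral_sub i1 i2
        have j4 : ∫ x, (bi g v v x + v x ^ 2) ∂μ = E + V := integral_add i1 (int_cont cv2)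
        rw [j1, j2, j3, integral_const_mul, integral_const_mul, integral_const_mul, j4]
      rw [e1]
      apply integral_mono (int_cont (bi_smooth g hs hs).cont) (((i1.sub i2).sub i3).add i4)
      intro x
      exact bi_mod g hφ hv x (hφ1 x) (hφ2 x)
    have hgain : c * B ≤ ∫ x, φ x * bi g v v x ∂μ := by
      have h1 : ∫ x in F ⁻¹' (Iio 0), bi g v v x ∂μ ≤ CN * B := by
        have : ∫ x in F ⁻¹' (Iio 0), bi g v v x ∂μ ≤ E :=
          setIntegral_le_integral (int_cont cE) (Eventually.of_forall fun x => bi_nonneg g v x)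
        linarith
      have h2 := hcoer v hv h0 h1
      have h3 : cφ * ∫ x in F ⁻¹' (Iic (-s')), bi g v v x ∂μ ≤ ∫ x, φ x * bi g v v x ∂μ := by
        rw [← integral_const_mul]
        calc ∫ x in F ⁻¹' (Iic (-s')), cφ * bi g v v x ∂μ ≤
            ∫ x in F ⁻¹' (Iic (-s')), φ x * bi g v v x ∂μ :=
              set_mono cF measurableSet_Iic (continuous_const.mul cE) (hφ.cont.mul cE)
                fun x hx => mul_le_mul_of_nonneg_right (hφ3 x hx) (bi_nonneg g v x)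
          _ ≤ _ := setIntegral_le_integral (int_cont (hφ.cont.mul cE))
            (Eventually.of_forall fun x => mul_nonneg (hφ0 x) (bi_nonneg g v x))
      have h4 := mul_le_mul_of_nonneg_left h2 hcφ0.le
      rw [hc]
      linarith
    exact hmod.trans (arith1 ha haA ht0 hτ0 hC5 hr0 hR0 hCN0 hE0 hV0 hB0 hN hTB hE hGv hgain ht3
      hr4 hτ1)

end Pool.Agent.W545.CS
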