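import Mathlib
import Pool.Agent.W545.CS.Main
import Pool.Agent.W545.Man.SurfSuper
set_option autoImplicit false
open Set Filter Topology MeasureTheory Metric
open scoped ENNReal Manifold ContDiff

/-! Steklov eigenvalues of domains of closed surfaces against conformal Laplace eigenvalues. -/

namespace Pool.Agent.W545.CS
open Pool.Agent.W545.Man

variable {M : Type*} [TopologicalSpace M] [ChartedSpace (EuclideanHalfSpace (1 + 1)) M]
  [IsManifold (𝓡∂ (1 + 1)) ∞ M] [MeasurableSpace M]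

/-- the Steklov eigenvalue number `k` of the domain `O` -/
noncomputable def stek (k : ℕ) (g : RMetric 1 M) (O : Set M) (μ ν : Measure M) : ℝ≥0∞ :=
  ⨅ (V : Submodule ℝ C^∞⟮𝓡∂ (1 + 1), M; 𝓘(ℝ, ℝ), ℝ⟯) (_ : Module.finrank ℝ V = k + 1)
    (_ : ∀ u ∈ V, u ≠ 0 → bsq ν u ≠ 0),
    ⨆ (u ∈ V) (_ : u ≠ 0), (∫⁻ x in O, gradSq g u x ∂μ) / bsq ν u

/-- the conformal supremum of the normalised Laplace eigenvalue number `k` -/
noncomputable def confLap (k : ℕ) (g : RMetric 1 M) : ℝ≥0∞ :=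
  ⨆ (f : PosFun 1 M) (μ' : Measure M) (_ : IsVolume (conf g f) μ'),
    sigma k (conf g f) μ' μ' * μ' univ

variable [BorelSpace M] [CompactSpace M] [T2Space M]

omit [IsManifold (𝓡∂ (1 + 1)) ∞ M] [T2Space M] in
theorem bsq_real (ν : Measure M) [IsFiniteMeasure ν] {u : M → ℝ} (hu : Continuous u) :
    bsq ν u = ENNReal.ofReal (∫ x, u x ^ 2 ∂ν) :=
  (ofReal_integral_eq_lintegral_ofReal (int_cont (hu.pow 2))
    (Eventually.of_forall fun x => sq_nonneg _)).symm

omit [T2Space M] in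
theorem grad_real (g : RMetric 1 M) (μ : Measure M) [IsFiniteMeasure μ] {u : M → ℝ} (hu : Sm u)
    (O : Set M) : ∫⁻ x in O, gradSq g u x ∂μ = ENNReal.ofReal (∫ x in O, bi g u u x ∂μ) := by
  rw [← lint_real O (bi_smooth g hu hu).cont (bi_nonneg g u)]
  congr 1
  funext x
  exact (bi_self g hu x).symm

variable {g : RMetric 1 M} {F D : M → ℝ} {μ ν : Measure M} {s0 m C : ℝ} [IsFiniteMeasure μ]
  [IsFiniteMeasure ν]

theorem stek_pos (H : Dat g F D μ ν s0 m C) (hμ : IsVolume g μ)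
    (hconn : IsConnected {x | F x < 0}) {k : ℕ} (hk : 1 ≤ k) :
    stek k g {x | F x < 0} μ ν ≠ 0 := by
  obtain ⟨A, hA, h⟩ := coer_dom H hμ hconn
  have key : ENNReal.ofReal A⁻¹ ≤ stek k g {x | F x < 0} μ ν := by
    unfold stek
    refine le_iInf fun V => le_iInf fun hV => le_iInf fun hnd => ?_
    obtain ⟨W, hWV, hW, hl⟩ := exists_ker_sub (k := k) hV
      (intL (d := 1) ν (fun _ => 1) continuous_const)
    obtain ⟨u, hu, hu0⟩ : ∃ u ∈ W, u ≠ 0 := by
      by_contra hcon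
      push Not at hcon
      have : W = ⊥ := by
        rw [eq_bot_iff]
        intro u hu
        rw [Submodule.mem_bot]
        exact hcon u hu
      rw [this, finrank_bot] at hW
      omega
    refine le_iSup_of_le u (le_iSup_of_le (hWV hu) (le_iSup_of_le hu0 ?_))
    have hsm : Sm u := u.contMDiff
    have h0 : ∫ x, u x ∂ν = 0 := by
      have := hl u hu
      have e : intL (d := 1) ν (fun _ => 1) continuous_const u = ∫ x, 1 * u x ∂ν := rfl
      rw [e] at this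
      simpa using this
    have h1 := h u hsm h0
    have hb0 := hnd u (hWV hu) hu0
    rw [bsq_real ν hsm.cont] at hb0 ⊢
    rw [grad_real g μ hsm, ENNReal.le_div_iff_mul_le (Or.inl hb0) (Or.inl ENNReal.ofReal_ne_top),
      ← ENNReal.ofReal_mul (by positivity)]
    apply ENNReal.ofReal_le_ofReal
    rw [inv_mul_le_iff₀ hA]
    exact h1
  intro h0
  rw [h0, nonpos_iff_eq_zero, ENNReal.ofReal_eq_zero] at key
  have : 0 < A⁻¹ := by positivity
  linarith

omit [IsFiniteMeasure ν] [IsManifold (𝓡∂ (1 + 1)) ∞ M] [MeasurableSpace M] [BorelSpace M] [CompactSpace M] in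
/-- smooth approximation from above -/
theorem exists_smooth_above [IsManifold (𝓡∂ (1 + 1)) ∞ M] [CompactSpace M] {ρ : M → ℝ}
    (hρ : Continuous ρ) {τ : ℝ} (hτ : 0 < τ) :
    ∃ ρ' : M → ℝ, Sm ρ' ∧ ∀ x, ρ x < ρ' x ∧ ρ' x < ρ x + τ := by
  obtain ⟨f, hf⟩ := exists_contMDiffMap_forall_mem_convex_of_local_const (n := ⊤) (𝓡∂ (1 + 1))
    (t := fun x => Ioo (ρ x) (ρ x + τ)) (fun x => convex_Ioo _ _) (by
      intro x
      refine ⟨ρ x + τ / 2, ?_⟩
      have h1 : ∀ᶠ y in 𝓝 x, ρ y < ρ x + τ / 2 := hρ.continuousAt.eventually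
        (gt_mem_nhds (by linarith))
      have h2 : ∀ᶠ y in 𝓝 x, ρ x - τ / 2 < ρ y := hρ.continuousAt.eventually
        (lt_mem_nhds (by linarith))
      filter_upwards [h1, h2] with y a b
      exact ⟨a, by linarith⟩)
  exact ⟨f, f.contMDiff, fun x => hf x⟩

theorem strict_core [ConnectedSpace M] (H : Dat g F D μ ν s0 m C) (hμ : IsVolume g μ)
    (hν0 : ∀ᵐ x ∂ν, F x = 0) (hconn : IsConnected {x | F x < 0}) (hL : 0 < ν.real univ)
    {k : ℕ} (hk : 1 ≤ k) (hfin : stek k g {x | F x < 0} μ ν ≠ ⊤) :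
    stek k g {x | F x < 0} μ ν * ν univ < confLap k g := by
  by_contra hcon
  rw [not_lt] at hcon
  have hpos := stek_pos H hμ hconn hk
  have hopen := vol_openPos hμ
  set σ := (stek k g {x | F x < 0} μ ν).toReal with hσ
  have hσ0 : 0 < σ := ENNReal.toReal_pos hpos hfin
  have hσe : stek k g {x | F x < 0} μ ν = ENNReal.ofReal σ := (ENNReal.ofReal_toReal hfin).symm
  set L := ν.real univ with hLdef
  have hLe : ν univ = ENNReal.ofReal L := (ENNReal.ofReal_toReal (measure_ne_top ν _)).symm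
  obtain ⟨t, c, CN, ht0, hc0, hCN0, hmain⟩ := main_est H hμ hconn hL (A := 2 * σ) (by positivity)
  set δ := min 1 (t * c) with hδ
  have hδ0 : 0 < δ := lt_min one_pos (by positivity)
  have hδ1 : δ ≤ 1 := min_le_left _ _
  have hδ2 : δ ≤ t * c := min_le_right _ _
  set a := σ * (1 + δ) with ha
  have ha0 : 0 < a := by positivity
  have haA : a ≤ 2 * σ := by nlinarith
  obtain ⟨ρ, φ, τ, hρ, hρ0, hφ, hφ0, hτ0, hmass, hest⟩ := hmain (L * δ / 4) (by positivity)
  obtain ⟨ρ', hρ's, hρ'⟩ := exists_smooth_above hρ hτ0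
  have hρ'0 : ∀ x, 0 < ρ' x := fun x => (hρ0 x).trans_lt (hρ' x).1
  have hf : Sm fun x => √(ρ' x) := hρ's.comp (φ := fun y => √y) fun x =>
    Real.contDiffAt_sqrt (hρ'0 x).ne'
  set f : PosFun 1 M := mkPos (fun x => √(ρ' x)) hf (fun x => Real.sqrt_pos.2 (hρ'0 x)) with hfdef
  have hfx : ∀ x, f.1 x ^ (1 + 1) = ρ' x := fun x => by
    show √(ρ' x) ^ 2 = ρ' x
    exact Real.sq_sqrt (hρ'0 x).le
  set μ' := μ.withDensity fun x => ENNReal.ofReal (f.1 x ^ (1 + 1)) with hμ'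
  have hμ'v : IsVolume (conf g f) μ' := isVolume_conf hμ f
  have hmass' : μ' univ = ENNReal.ofReal (∫ x, ρ' x ∂μ) := by
    rw [hμ', univ_wd]
    simp only [hfx]
    exact (ofReal_integral_eq_lintegral_ofReal (int_cont hρ's.cont)
      (Eventually.of_forall fun x => (hρ'0 x).le)).symm
  have hmass2 : L - L * δ / 4 ≤ ∫ x, ρ' x ∂μ := hmass.trans
    (integral_mono (int_cont hρ) (int_cont hρ's.cont) fun x => (hρ' x).1.le)
  have hLδ : L * δ ≤ L := by nlinarith
  have hmass3 : 0 < ∫ x, ρ' x ∂μ := by linarith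
  -- the eigenvalue of the conformal metric is small
  have h1 : sigma k (conf g f) μ' μ' * μ' univ ≤ ENNReal.ofReal (σ * L) := by
    rw [ENNReal.ofReal_mul hσ0.le, ← hσe, ← hLe]
    refine le_trans ?_ hcon
    exact le_iSup_of_le f (le_iSup_of_le μ' (le_iSup_of_le hμ'v le_rfl))
  have h2 : sigma k (conf g f) μ' μ' < ENNReal.ofReal a := by
    rw [hmass'] at h1
    have h3 : sigma k (conf g f) μ' μ' ≤ ENNReal.ofReal (σ * L) /
        ENNReal.ofReal (∫ x, ρ' x ∂μ) := by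
      rw [ENNReal.le_div_iff_mul_le (Or.inl (by rw [Ne, ENNReal.ofReal_eq_zero, not_le]; exact hmass3))
        (Or.inl ENNReal.ofReal_ne_top)]
      exact h1
    refine h3.trans_lt ?_
    rw [← ENNReal.ofReal_div_of_pos hmass3, ENNReal.ofReal_lt_ofReal_iff ha0, div_lt_iff₀ hmass3,
      ha]
    have : L < (1 + δ) * ∫ x, ρ' x ∂μ := by nlinarith
    nlinarith
  unfold sigma at h2
  simp only [iInf_lt_iff] at h2
  obtain ⟨V, hV, hnd, hlt⟩ := h2
  have hVest : ∀ v ∈ V, ∫ x, bi g v v x ∂μ ≤ a * ∫ x, v x ^ 2 * (ρ x + τ) ∂μ := by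
    intro v hv
    have hvs : Sm v := v.contMDiff
    by_cases hv0 : v = 0
    · subst hv0
      have e1 : ∫ x, bi g (fun _ : M => (0 : ℝ)) (fun _ : M => (0 : ℝ)) x ∂μ = 0 := by
        simp [bi_const]
      exact le_trans (le_of_eq e1) (mul_nonneg ha0.le (integral_nonneg fun x =>
        mul_nonneg (sq_nonneg _) (add_nonneg (hρ0 x) hτ0.le)))
    have h3 : energy (conf g f) μ' v / bsq μ' v < ENNReal.ofReal a :=
      lt_of_le_of_lt (le_iSup_of_le v (le_iSup_of_le hv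
        (le_iSup (fun _ : v ≠ 0 => energy (conf g f) μ' v / bsq μ' v) hv0))) hlt
    have e1 : energy (conf g f) μ' v = ENNReal.ofReal (∫ x, bi g v v x ∂μ) := by
      rw [hμ', energy_conf_one]
      unfold energy
      have := grad_real g μ hvs univ
      rwa [setLIntegral_univ, setIntegral_univ] at this
    have e2 : bsq μ' v = ENNReal.ofReal (∫ x, v x ^ 2 * ρ' x ∂μ) := by
      unfold bsq
      rw [hμ', lint_wd]
      have e3 : ENNReal.ofReal (∫ x, v x ^ 2 * ρ' x ∂μ) =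
          ∫⁻ x, ENNReal.ofReal (v x ^ 2 * ρ' x) ∂μ :=
        ofReal_integral_eq_lintegral_ofReal (int_cont ((hvs.cont.pow 2).mul hρ's.cont))
          (Eventually.of_forall fun x => mul_nonneg (sq_nonneg _) (hρ'0 x).le)
      rw [e3]
      congr 1; funext x
      rw [← ENNReal.ofReal_mul (by rw [hfx]; exact (hρ'0 x).le), hfx]
      congr 1
      ring
    have hb0 := hnd v hv hv0
    rw [e1, e2] at h3
    rw [e2] at hb0
    have hint0 : 0 ≤ ∫ x, v x ^ 2 * ρ' x ∂μ := integral_nonneg fun x =>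
      mul_nonneg (sq_nonneg _) (hρ'0 x).le
    have h4 := (ENNReal.div_le_iff_le_mul (Or.inl hb0) (Or.inl ENNReal.ofReal_ne_top)).1 h3.le
    rw [← ENNReal.ofReal_mul ha0.le, ENNReal.ofReal_le_ofReal_iff (by positivity)] at h4
    refine h4.trans (mul_le_mul_of_nonneg_left ?_ ha0.le)
    apply integral_mono (int_cont ((hvs.cont.pow 2).mul hρ's.cont))
      (int_cont ((hvs.cont.pow 2).mul (hρ.add continuous_const)))
    intro x
    exact mul_le_mul_of_nonneg_left (hρ' x).2.le (sq_nonneg _)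
  -- the new space
  obtain ⟨V1, hV1V, hV1, hl⟩ := exists_ker_sub (k := k) hV
    (intL (d := 1) ν (fun _ => 1) continuous_const)
  have hmean : ∀ v ∈ V1, ∫ x, v x ∂ν = 0 := by
    intro v hv
    have := hl v hv
    have e : intL (d := 1) ν (fun _ => 1) continuous_const v = ∫ x, 1 * v x ∂ν := rfl
    rw [e] at this
    simpa using this
  have hfd : FiniteDimensional ℝ V1 := Module.finite_of_finrank_pos (by omega)
  have hψs : Sm fun x => 1 - a * t * φ x := contMDiff_const.sub (contMDiff_const.mul hφ)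
  set ψ : C^∞⟮𝓡∂ (1 + 1), M; 𝓘(ℝ, ℝ), ℝ⟯ := ⟨fun x => 1 - a * t * φ x, hψs⟩ with hψ
  set Φ : ℝ × V1 →ₗ[ℝ] C^∞⟮𝓡∂ (1 + 1), M; 𝓘(ℝ, ℝ), ℝ⟯ :=
    (LinearMap.toSpanSingleton ℝ _ (1 : C^∞⟮𝓡∂ (1 + 1), M; 𝓘(ℝ, ℝ), ℝ⟯)).coprod
      ((LinearMap.mulLeft ℝ ψ).comp V1.subtype) with hΦ
  have hΦx : ∀ (b : ℝ) (v : V1) (x : M), Φ (b, v) x = b + (1 - a * t * φ x) * v.1 x := by
    intro b v x
    have : Φ (b, v) = b • (1 : C^∞⟮𝓡∂ (1 + 1), M; 𝓘(ℝ, ℝ), ℝ⟯) + ψ * v.1 := rfl
    rw [this]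
    show b * 1 + (1 - a * t * φ x) * v.1 x = _
    ring
  -- boundary values
  have hbdy : ∀ (b : ℝ) (v : V1), ∫ x, Φ (b, v) x ^ 2 ∂ν = b ^ 2 * L + ∫ x, v.1 x ^ 2 ∂ν := by
    intro b v
    have e1 : ∫ x, Φ (b, v) x ^ 2 ∂ν = ∫ x, (b ^ 2 + 2 * b * v.1 x + v.1 x ^ 2) ∂ν := by
      apply integral_congr_ae
      filter_upwards [hν0] with x hx
      rw [hΦx, hφ0 x (by rw [hx])]
      ring
    have i1 : Integrable (fun _ : M => b ^ 2) ν := integrable_const _
    have i2 : Integrable (fun x => 2 * b * v.1 x) ν := (int_cont v.1.contMDiff.continuous).const_mul _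
    have i3 : Integrable (fun x => v.1 x ^ 2) ν := int_cont (v.1.contMDiff.continuous.pow 2)
    have e2 : ∫ x, (b ^ 2 + 2 * b * v.1 x + v.1 x ^ 2) ∂ν =
        ∫ x, (b ^ 2 + 2 * b * v.1 x) ∂ν + ∫ x, v.1 x ^ 2 ∂ν := integral_add (i1.add i2) i3
    have e3 : ∫ x, (b ^ 2 + 2 * b * v.1 x) ∂ν = ∫ _x, b ^ 2 ∂ν + ∫ x, 2 * b * v.1 x ∂ν :=
      integral_add i1 i2
    rw [e1, e2, e3, integral_const_mul, hmean v.1 v.2, integral_const, smul_eq_mul]
    ring
  have hzero : ∀ v : V1, ∫ x, v.1 x ^ 2 ∂ν ≤ 0 → v = 0 := by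
    intro v hv
    have hvs : Sm v.1 := v.1.contMDiff
    obtain ⟨h3, -⟩ := hest a ha0 haA v.1 hvs (hVest v.1 (hV1V v.2))
    have h4 : 0 ≤ ∫ x, bi g v.1 v.1 x ∂μ := integral_nonneg (bi_nonneg g _)
    have h5 : ∫ x, v.1 x ^ 2 ∂μ ≤ 0 := by nlinarith
    have h6 : ∫ x, v.1 x ^ 2 ∂μ = 0 := le_antisymm h5 (integral_nonneg fun x => sq_nonneg _)
    rw [integral_eq_zero_iff_of_nonneg (fun x => sq_nonneg _) (int_cont (hvs.cont.pow 2))] at h6
    have h7 := (Continuous.ae_eq_iff_eq μ (hvs.cont.pow 2) continuous_zero).1 h6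
    apply Subtype.ext
    ext x
    have := congrFun h7 x
    simp only [Pi.zero_apply, Pi.pow_apply] at this
    show v.1 x = 0
    exact pow_eq_zero_iff two_ne_zero |>.1 this
  have hinj : Function.Injective Φ := by
    rw [← LinearMap.ker_eq_bot, LinearMap.ker_eq_bot']
    rintro ⟨b, v⟩ h
    have h3 := hbdy b v
    rw [h] at h3
    have e : ∫ x, (0 : C^∞⟮𝓡∂ (1 + 1), M; 𝓘(ℝ, ℝ), ℝ⟯) x ^ 2 ∂ν = 0 := by
      have e2 : ∀ x, (0 : C^∞⟮𝓡∂ (1 + 1), M; 𝓘(ℝ, ℝ), ℝ⟯) x = 0 := fun x => rfl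
      simp [e2]
    rw [e] at h3
    have h4 : 0 ≤ ∫ x, v.1 x ^ 2 ∂ν := integral_nonneg fun x => sq_nonneg _
    have h5 : b ^ 2 * L ≤ 0 := by linarith
    have h6 : b = 0 := by
      by_contra hb
      have : 0 < b ^ 2 * L := by positivity
      linarith
    have h7 : v = 0 := hzero v (by
      have : 0 ≤ b ^ 2 * L := by positivity
      linarith)
    rw [h6, h7]
    rfl
  set V' := LinearMap.range Φ with hV'
  have hV'r : Module.finrank ℝ V' = k + 1 := by
    rw [hV', LinearMap.finrank_range_of_inj hinj, Module.finrank_prod, Module.finrank_self, hV1]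
    omega
  have hnd' : ∀ u ∈ V', u ≠ 0 → bsq ν u ≠ 0 := by
    rintro _ ⟨⟨b, v⟩, rfl⟩ hu h0
    have hs : Continuous (Φ (b, v)) := (Φ (b, v)).contMDiff.continuous
    rw [bsq_real ν hs, hbdy, ENNReal.ofReal_eq_zero] at h0
    have h4 : 0 ≤ ∫ x, v.1 x ^ 2 ∂ν := integral_nonneg fun x => sq_nonneg _
    have h6 : b = 0 := by
      by_contra hb
      have : 0 < b ^ 2 * L := by positivity
      linarith
    have h7 : v = 0 := hzero v (by
      have : 0 ≤ b ^ 2 * L := by positivity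
      linarith)
    apply hu
    rw [h6, h7]
    exact map_zero Φ
  set θ := max (1 - t * c) 0 with hθ
  have hθ0 : 0 ≤ θ := le_max_right _ _
  have hθ1 : (1 + δ) * θ < 1 := by
    rw [hθ]
    rcases le_total (1 - t * c) 0 with h | h
    · rw [max_eq_right h, mul_zero]; exact one_pos
    · rw [max_eq_left h]
      have : (1 + δ) * (1 - t * c) ≤ (1 + t * c) * (1 - t * c) := by gcongr
      nlinarith [mul_pos (mul_pos ht0 hc0) (mul_pos ht0 hc0)]
  have hfinal : stek k g {x | F x < 0} μ ν ≤ ENNReal.ofReal (a * θ) := by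
    unfold stek
    refine iInf_le_of_le V' (iInf_le_of_le hV'r (iInf_le_of_le hnd' ?_))
    refine iSup_le fun u => iSup_le fun hu => iSup_le fun hu0 => ?_
    have hb0 := hnd' u hu hu0
    obtain ⟨⟨b, v⟩, rfl⟩ := hu
    have hs : Sm (Φ (b, v)) := (Φ (b, v)).contMDiff
    have hvs : Sm v.1 := v.1.contMDiff
    rw [bsq_real ν hs.cont] at hb0 ⊢
    rw [grad_real g μ hs, ENNReal.div_le_iff_le_mul (Or.inl hb0) (Or.inl ENNReal.ofReal_ne_top),
      ← ENNReal.ofReal_mul (by positivity)]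
    apply ENNReal.ofReal_le_ofReal
    obtain ⟨-, h3⟩ := hest a ha0 haA v.1 hvs (hVest v.1 (hV1V v.2))
    have h4 := h3 (hmean v.1 v.2)
    have hws : Sm fun x => (1 - a * t * φ x) * v.1 x := hψs.mul hvs
    have e1 : ∀ x, bi g (Φ (b, v)) (Φ (b, v)) x =
        bi g (fun x => (1 - a * t * φ x) * v.1 x) (fun x => (1 - a * t * φ x) * v.1 x) x := by
      intro x
      have e2 : (Φ (b, v) : M → ℝ) = fun x => (1 - a * t * φ x) * v.1 x - (-b) := by
        funext y
        rw [hΦx]; ring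
      rw [e2, bi_sub_const g hws]
    simp only [e1]
    have h5 : ∫ x in {x | F x < 0}, bi g (fun x => (1 - a * t * φ x) * v.1 x)
        (fun x => (1 - a * t * φ x) * v.1 x) x ∂μ ≤ ∫ x, bi g (fun x => (1 - a * t * φ x) * v.1 x)
        (fun x => (1 - a * t * φ x) * v.1 x) x ∂μ :=
      setIntegral_le_integral (int_cont (bi_smooth g hws hws).cont)
        (Eventually.of_forall fun x => bi_nonneg g _ x)
    refine (h5.trans h4).trans ?_
    rw [hbdy]
    have h6 : 0 ≤ ∫ x, v.1 x ^ 2 ∂ν := integral_nonneg fun x => sq_nonneg _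
    have h7 : 0 ≤ b ^ 2 * L := by positivity
    calc a * (1 - t * c) * ∫ x, v.1 x ^ 2 ∂ν ≤ a * θ * ∫ x, v.1 x ^ 2 ∂ν := by
          have := le_max_left (1 - t * c) 0
          gcongr
      _ ≤ a * θ * (b ^ 2 * L + ∫ x, v.1 x ^ 2 ∂ν) := by
          apply mul_le_mul_of_nonneg_left _ (by positivity)
          linarith
  rw [hσe, ENNReal.ofReal_le_ofReal_iff (by positivity), ha] at hfinal
  nlinarith

end Pool.Agent.W545.CS
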