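import Mathlib
import Pool.Agent.W545.Man.Stmt
set_option autoImplicit false
open Set MeasureTheory Pool.Agent.W545.Man.St
open scoped ENNReal Manifold ContDiff Matrix

/-!
Domains of a closed surface `M`, their Steklov eigenvalues, and the conformal supremum of the
Laplace eigenvalues of `M`. A closed surface is a compact connected surface with empty boundary;
its charts take values in the half-plane `y₀ ≥ 0`. Metrics, charts, smooth functions, gradients,
Riemannian measures and the eigenvalues `sigma` are those of `Pool/Agent/W545/Man/Stmt.lean`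
(with `d = 1`).
-/

namespace Pool.Agent.W545.CS.St

variable {M : Type*} [TopologicalSpace M] [ChartedSpace (EuclideanHalfSpace (1 + 1)) M]

/-- `O` is a domain of `M` with nonempty smooth boundary: it is connected and it is `{F < 0}` for a
smooth function `F` which vanishes somewhere and has no critical point on its zero set (this zero
set is then the boundary `frontier O`) -/
def IsSmoothDomain (O : Set M) : Prop :=
  IsConnected O ∧ ∃ F : M → ℝ, Smooth 1 F ∧ O = {x | F x < 0} ∧ (∃ x, F x = 0) ∧
    ∀ x, F x = 0 → ∃ v, der 1 (fun y => F ((ch 1 x).symm y)) (ch 1 x x) v ≠ 0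

variable [MeasurableSpace M]

/-- `ν` is the length measure of the curve `Γ` for the metric `G`: it is carried by `Γ` and, for
every arc `t ↦ γ t`, `a < t < b`, of `Γ` (smooth, regular and injective, written in the chart at
some point `c`), the integral of `h` over the arc is the line integral `∫ h(γ(t)) |γ'(t)|_G dt` -/
def IsLength (G : M → E (1 + 1) → Mat (1 + 1)) (Γ : Set M) (ν : Measure M) : Prop :=
  ν Γᶜ = 0 ∧ ∀ (c : M) (γ : ℝ → E (1 + 1)) (a b : ℝ), ContDiffOn ℝ ∞ γ (Ioo a b) →
    InjOn γ (Ioo a b) →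
    (∀ t ∈ Ioo a b, deriv γ t ≠ 0 ∧ γ t ∈ (ch 1 c).target ∧ (ch 1 c).symm (γ t) ∈ Γ) →
    ∀ h : M → ℝ≥0∞, Measurable h →
      ∫⁻ x in (ch 1 c).symm '' (γ '' Ioo a b), h x ∂ν =
        ∫⁻ t in Ioo a b, h ((ch 1 c).symm (γ t)) *
          ENNReal.ofReal (√((deriv γ t).ofLp ⬝ᵥ (G c (γ t)) *ᵥ (deriv γ t).ofLp))

/-- the Steklov eigenvalue `σ_k(O, G)` of the domain `O` by its variational characterisation (`μ`:
area of `G`, `ν`: length on `∂O`): the infimum, over the `(k+1)`-dimensional spaces `V` of smooth
functions none of whose nonzero elements vanishes on `∂O`, of the maximum over `V` of the quotient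
of `∫_O |∇u|² dμ` by `∫_{∂O} u² dν`. (The functions smooth up to the boundary on `O` are the
restrictions of the smooth functions on `M`.) -/
noncomputable def steklov (k : ℕ) (G : M → E (1 + 1) → Mat (1 + 1)) (O : Set M)
    (μ ν : Measure M) : ℝ≥0∞ :=
  ⨅ (V : Submodule ℝ (M → ℝ)) (_ : Module.finrank ℝ V = k + 1) (_ : ∀ u ∈ V, Smooth 1 u)
    (_ : ∀ u ∈ V, u ≠ 0 → bsq ν u ≠ 0),
    ⨆ (u ∈ V) (_ : u ≠ 0), (∫⁻ x in O, gradSq G u x ∂μ) / bsq ν u

/-- the Laplace eigenvalue `λ_k(M, G)` by its variational characterisation (`μ`: area of `G`): the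
infimum, over the `(k+1)`-dimensional spaces `V` of smooth functions, of the maximum over `V` of
the quotient of `∫_M |∇u|² dμ` by `∫_M u² dμ`; it is `sigma` with `ν = μ` -/
noncomputable def laplace (k : ℕ) (G : M → E (1 + 1) → Mat (1 + 1)) (μ : Measure M) : ℝ≥0∞ :=
  sigma k G μ μ

/-- the conformal supremum `λ_k*(M, [G])`: the supremum of `λ_k(M, G') Area(M, G')` over the metrics
`G'` conformal to `G` -/
noncomputable def lamStar (k : ℕ) (G : M → E (1 + 1) → Mat (1 + 1)) : ℝ≥0∞ :=
  ⨆ (G' : M → E (1 + 1) → Mat (1 + 1)) (μ : Measure M) (_ : IsMetric G') (_ : Conformal G G')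
    (_ : IsVolume G' μ), laplace k G' μ * μ univ

end Pool.Agent.W545.CS.St
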