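import Mathlib
import Pool.Agent.W545.CS.Stmt
import Pool.Agent.W545.CS.MinMax
import Pool.Agent.W545.Man.Bridge
import Pool.Agent.W45.CS.Green
import Pool.Agent.W45.CS.Coarea
set_option autoImplicit false
open Set Filter Topology MeasureTheory Metric
open scoped ENNReal Manifold ContDiff Matrix

/-! Assembly. -/

namespace Pool.Agent.W545.CS
open Pool.Agent.W545.Man

variable {M : Type*} [TopologicalSpace M] [ChartedSpace (EuclideanHalfSpace (1 + 1)) M]
  [IsManifold (𝓡∂ (1 + 1)) ∞ M] [MeasurableSpace M] [BorelSpace M] [CompactSpace M] [T2Space M]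

/-- the analytic data exist -/
theorem exists_dat (g : RMetric 1 M) (hbd : bd 1 M = ∅) {F : M → ℝ} (hF : Sm F)
    (hreg : ∀ x, F x = 0 → bi g F F x ≠ 0) (hne : ∃ x, F x = 0) {μ ν : Measure M}
    (hμ : IsVolume g μ) (hν : IsLen g {x | F x = 0} ν) :
    ∃ (D : M → ℝ) (s0 m C : ℝ), Dat g F D μ ν s0 m C := by
  obtain ⟨D, hD, hgreen⟩ := Pool.Agent.W45.CS.green g hbd hF
  have cQ := (bi_smooth g hF hF).cont
  obtain ⟨B1, hB1, hB1'⟩ := exists_bound cQ
  obtain ⟨B2, hB2, hB2'⟩ := exists_bound hD.cont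
  -- a collar without critical points
  obtain ⟨s0, m, hs0, hm, hlow⟩ : ∃ s0 m : ℝ, 0 < s0 ∧ 0 < m ∧ ∀ x, |F x| ≤ 2 * s0 →
      m ^ 2 ≤ bi g F F x := by
    have hK0 : IsCompact {x | F x = 0} := (isClosed_eq hF.cont continuous_const).isCompact
    obtain ⟨x0, hx0, hmin⟩ := hK0.exists_isMinOn hne cQ.continuousOn
    set q := bi g F F x0 with hq
    have hq0 : 0 < q := lt_of_le_of_ne (bi_nonneg g F x0) (Ne.symm (hreg x0 hx0))
    have hKc : IsCompact {x | bi g F F x ≤ q / 2} :=
      (isClosed_le cQ continuous_const).isCompact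
    by_cases hKe : {x | bi g F F x ≤ q / 2}.Nonempty
    · obtain ⟨x1, hx1, hmin1⟩ := hKc.exists_isMinOn hKe hF.cont.abs.continuousOn
      have hx1' : 0 < |F x1| := by
        rw [abs_pos]
        intro h0
        have : q ≤ bi g F F x1 := hmin h0
        have h2 : bi g F F x1 ≤ q / 2 := hx1
        linarith
      refine ⟨|F x1| / 4, √(q / 2), by positivity, Real.sqrt_pos.2 (by positivity), ?_⟩
      intro x hx
      rw [Real.sq_sqrt (by positivity)]
      by_contra hc
      rw [not_le] at hc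
      have : |F x1| ≤ |F x| := hmin1 hc.le
      linarith
    · rw [not_nonempty_iff_eq_empty] at hKe
      refine ⟨1, √(q / 2), one_pos, Real.sqrt_pos.2 (by positivity), ?_⟩
      intro x _
      rw [Real.sq_sqrt (by positivity)]
      by_contra hc
      rw [not_le] at hc
      have : x ∈ {x | bi g F F x ≤ q / 2} := hc.le
      rw [hKe] at this
      exact this
  refine ⟨D, s0, m, 1 + B1 + B2, ⟨hF, hD, fun w hw => hgreen μ hμ w hw, hs0, hm, by linarith,
    hlow, ?_, ?_, fun w hw η hη => Pool.Agent.W45.CS.coarea g hbd hF hreg hμ hν hw hη⟩⟩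
  · intro x
    have h1 := (le_abs_self _).trans (hB1' x)
    nlinarith
  · intro x
    have := hB2' x
    linarith

theorem strict_surface [ConnectedSpace M] (g : RMetric 1 M) (hbd : bd 1 M = ∅) {F : M → ℝ}
    (hF : Sm F) (hreg : ∀ x, F x = 0 → bi g F F x ≠ 0) (hne : ∃ x, F x = 0) {μ ν : Measure M}
    (hμ : IsVolume g μ) (hν : IsLen g {x | F x = 0} ν) (hconn : IsConnected {x | F x < 0})
    {k : ℕ} (hk : 1 ≤ k) (hfin : sigma k g μ ν ≠ ⊤) :
    stek k g {x | F x < 0} μ ν * ν univ < confLap k g := by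
  obtain ⟨D, s0, m, C, H⟩ := exists_dat g hbd hF hreg hne hμ hν
  have hμf := vol_locFin hμ
  have hνf : IsFiniteMeasure ν := ⟨(Pool.Agent.W45.CS.len_finite g hbd hF hreg hμ hν).lt_top⟩
  have hν0 : ∀ᵐ x ∂ν, F x = 0 := hν.1
  obtain ⟨q, hq⟩ := hne
  have hL : 0 < ν.real univ := ENNReal.toReal_pos
    (Pool.Agent.W45.CS.len_pos g hbd hF hreg hμ hν hq univ_mem) (measure_ne_top _ _)
  refine strict_core H hμ hν0 hconn hL hk (ne_top_of_le_ne_top hfin ?_)
  unfold stek sigma
  refine iInf_mono fun V => iInf_mono fun _ => iInf_mono fun _ => iSup_mono fun u =>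
    iSup_mono fun _ => iSup_mono fun _ => ?_
  exact ENNReal.div_le_div_right (setLIntegral_le_lintegral _ _) _

/-! ### Bridge -/

theorem rel_steklov {g : RMetric 1 M} {G : M → EE 1 → Man.St.Mat (1 + 1)} (h : Rel g G) (k : ℕ)
    (O : Set M) (μ ν : Measure M) : St.steklov k G O μ ν = stek k g O μ ν := by
  have hen : ∀ u : M → ℝ, Sm u → ∫⁻ x in O, Man.St.gradSq G u x ∂μ = ∫⁻ x in O, gradSq g u x ∂μ := by
    intro u hu
    congr 1
    funext x
    exact rel_gradSq h (hu.md x)
  unfold St.steklov stek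
  apply le_antisymm
  · refine le_iInf fun V => le_iInf fun hV => le_iInf fun hnd => ?_
    refine iInf_le_of_le (V.map (coeL 1 M)) (iInf_le_of_le ?_ (iInf_le_of_le ?_ (iInf_le_of_le ?_ ?_)))
    · rw [← hV]
      exact (Submodule.equivMapOfInjective (coeL 1 M) coeL_inj V).finrank_eq.symm
    · rintro _ ⟨u, -, rfl⟩
      exact u.contMDiff
    · rintro _ ⟨u, hu, rfl⟩ h0
      refine hnd u hu ?_
      rintro rfl
      exact h0 (map_zero _)
    · refine iSup_le fun w => iSup_le fun hw => iSup_le fun hw0 => ?_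
      obtain ⟨u, hu, rfl⟩ := hw
      refine le_iSup_of_le u (le_iSup_of_le hu (le_iSup_of_le ?_ ?_))
      · rintro rfl
        exact hw0 (map_zero _)
      · rw [hen (coeL 1 M u) u.contMDiff]
        exact le_rfl
  · refine le_iInf fun V => le_iInf fun hV => le_iInf fun hs => le_iInf fun hnd => ?_
    have hVr : V ≤ LinearMap.range (coeL 1 M) := by
      intro u hu
      exact ⟨⟨u, hs u hu⟩, rfl⟩
    refine iInf_le_of_le (V.comap (coeL 1 M)) (iInf_le_of_le ?_ (iInf_le_of_le ?_ ?_))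
    · rw [← hV, (Submodule.equivMapOfInjective (coeL 1 M) coeL_inj
        (V.comap (coeL 1 M))).finrank_eq, Submodule.map_comap_eq_of_le hVr]
    · intro u hu h0
      refine hnd _ hu ?_
      intro h1
      exact h0 (coeL_inj (h1.trans (map_zero _).symm))
    · refine iSup_le fun u => iSup_le fun hu => iSup_le fun hu0 => ?_
      refine le_iSup_of_le (coeL 1 M u) (le_iSup_of_le hu (le_iSup_of_le ?_ ?_))
      · intro h1
        exact hu0 (coeL_inj (h1.trans (map_zero _).symm))
      · rw [hen (coeL 1 M u) u.contMDiff]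
        exact le_rfl

theorem rel_lamStar {g : RMetric 1 M} {G : M → EE 1 → Man.St.Mat (1 + 1)} (h : Rel g G) (k : ℕ) :
    St.lamStar k G = confLap k g := by
  unfold St.lamStar confLap
  apply le_antisymm
  · refine iSup_le fun G' => iSup_le fun μ => iSup_le fun hG' =>
      iSup_le fun hc => iSup_le fun hμ => ?_
    obtain ⟨f, hf, hf0, hcf⟩ := hc
    have hrel : Rel (conf g (mkPos f hf hf0)) G' := conf_rel h hcf
    refine le_iSup_of_le (mkPos f hf hf0) (le_iSup_of_le μ
      (le_iSup_of_le ((rel_isVolume hrel).1 hμ) ?_))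
    unfold St.laplace
    rw [rel_sigma hrel]
  · refine iSup_le fun f => iSup_le fun μ => iSup_le fun hμ => ?_
    have hrel := toG_rel (conf g f)
    refine le_iSup_of_le _ (le_iSup_of_le μ (le_iSup_of_le (toG_isMetric (conf g f))
      (le_iSup_of_le ?_ (le_iSup_of_le ((rel_isVolume hrel).2 hμ) ?_))))
    · refine ⟨f.1, f.1.contMDiff, f.2, ?_⟩
      intro c y hy
      have := h c y hy
      rw [this]
      exact gram_conf g f c _
    · unfold St.laplace
      rw [rel_sigma hrel]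

theorem rel_isLen {g : RMetric 1 M} {G : M → EE 1 → Man.St.Mat (1 + 1)} (h : Rel g G)
    {Γ : Set M} {ν : Measure M} (hν : St.IsLength G Γ ν) : IsLen g Γ ν := by
  refine ⟨hν.1, fun c γ a b hγ hinj hγt w hw => ?_⟩
  have h1 := hν.2 c γ a b hγ hinj hγt w hw
  refine h1.trans ?_
  apply setLIntegral_congr_fun measurableSet_Ioo
  intro t ht
  have h2 : G c (γ t) = gram g c ((ph 1 c).symm (γ t)) := h c (γ t) (hγt t ht).2.1
  show w ((ph 1 c).symm (γ t)) * ENNReal.ofReal (√((deriv γ t).ofLp ⬝ᵥ (G c (γ t)) *ᵥ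
    (deriv γ t).ofLp)) = _
  rw [h2, ← coeff_gram]

/-- a function with a nonzero derivative -/
theorem bi_ne_zero (g : RMetric 1 M) {F : M → ℝ} {x : M}
    (h : ∃ v, Man.St.der 1 (fun y => F ((Man.St.ch 1 x).symm y)) (Man.St.ch 1 x x) v ≠ 0) :
    bi g F F x ≠ 0 := by
  obtain ⟨v, hv⟩ := h
  rw [der_eq] at hv
  have hv' : Dloc 1 x F (ph 1 x x) v ≠ 0 := hv
  intro h0
  have hA := gram_posDef g (mem_extChartAt_source (I := 𝓡∂ (1 + 1)) x)
  have h1 := lagrange2 hA (Dloc 1 x F (ph 1 x x)) v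
  have h2 : qf (gram g x x) (Dloc 1 x F (ph 1 x x)) (Dloc 1 x F (ph 1 x x)) = 0 := h0
  rw [h2, zero_mul, zero_mul] at h1
  have h3 := hA.det_pos
  have h4 : 0 < (Dloc 1 x F (ph 1 x x) v) ^ 2 := by positivity
  have : 0 < (Dloc 1 x F (ph 1 x x) v) ^ 2 * (gram g x x).det := mul_pos h4 h3
  linarith

/-- the boundary of the domain is the zero set -/
theorem frontier_dom (g : RMetric 1 M) (hbd : bd 1 M = ∅) {F : M → ℝ} (hF : Sm F)
    (hreg : ∀ x, F x = 0 → bi g F F x ≠ 0) : frontier {x | F x < 0} = {x | F x = 0} := by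
  have hO : IsOpen {x | F x < 0} := isOpen_lt hF.cont continuous_const
  apply Subset.antisymm
  · intro x hx
    exact frontier_lt_subset_eq hF.cont continuous_const hx
  · intro x hx
    have hx0 : F x = 0 := hx
    rw [hO.frontier_eq]
    refine ⟨?_, fun h => by
      have : F x < 0 := h
      linarith⟩
    by_contra hcl
    -- `F` has a local minimum at `x`
    have h1 : ∀ᶠ y in 𝓝 x, 0 ≤ F y := by
      have : (closure {x | F x < 0})ᶜ ∈ 𝓝 x := isClosed_closure.isOpen_compl.mem_nhds hcl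
      filter_upwards [this] with y hy
      by_contra hc
      rw [not_le] at hc
      exact hy (subset_closure hc)
    have hyt := mem_extChartAt_target (I := 𝓡∂ (1 + 1)) x
    have h2 : IsLocalMin (loc 1 x F) (ph 1 x x) := by
      have hct : ContinuousAt (ph 1 x).symm (ph 1 x x) := continuousAt_extChartAt_symm x
      have h1' : ∀ᶠ y in 𝓝 ((ph 1 x).symm (ph 1 x x)), 0 ≤ F y := by
        rw [sym_ph]
        exact h1
      have h3 : ∀ᶠ y in 𝓝 (ph 1 x x), 0 ≤ F ((ph 1 x).symm y) := hct h1'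
      filter_upwards [h3] with y hy
      show F ((ph 1 x).symm (ph 1 x x)) ≤ F ((ph 1 x).symm y)
      rw [sym_ph, hx0]
      exact hy
    have h4 : Dloc 1 x F (ph 1 x x) = 0 := by
      rw [Dloc_fd hbd F hyt]
      exact h2.fderiv_eq_zero
    apply hreg x hx0
    unfold bi
    rw [h4]
    unfold qf
    simp

end Pool.Agent.W545.CS
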